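import Pool.Agent.P.MP_f981b0_an.ShiftCore

set_option autoImplicit false

namespace Pool.Agent.P.MP_f981b0_an

open Filter Topology

lemma exists_cumul {a : ℤ → ℂ} (ha : ∀ n, a n ≠ 0) :
    ∃ W : ℤ → ℂ, (∀ n, W n ≠ 0) ∧ ∀ n, W (n + 1) = a n * W n := by
  let W : ℤ → ℂ := fun n => Int.inductionOn' (motive := fun _ => ℂ) n 0 1
    (fun k _ x => a k * x) (fun k _ x => x / a (k - 1))
  have h0 : W 0 = 1 := Int.inductionOn'_self
  have h1 : ∀ n, W (n + 1) = a n * W n := by
    intro n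
    rcases le_or_gt 0 n with h | h
    · exact Int.inductionOn'_add_one h
    · have h2 : W (n + 1 - 1) = W (n + 1) / a (n + 1 - 1) :=
        Int.inductionOn'_sub_one (by omega)
      rw [add_sub_cancel_right] at h2
      rw [h2]
      have := ha n
      field_simp
  refine ⟨W, fun n => ?_, h1⟩
  induction n using Int.induction_on with
  | zero => rw [h0]; exact one_ne_zero
  | succ n ih => rw [h1]; exact mul_ne_zero (ha _) ih
  | pred n ih =>
    have := h1 (-(n : ℤ) - 1)
    rw [sub_add_cancel] at this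
    intro h
    rw [h, mul_zero] at this
    exact ih this

section

variable {X : Type*} [NormedAddCommGroup X] [NormedSpace ℂ X]

/-- The largest subspace killed by `φ` after any operator commuting with `S`. -/
def hypKer (S : X →L[ℂ] X) (φ : X →L[ℂ] ℂ) : Submodule ℂ X where
  carrier := {y | ∀ A : X →L[ℂ] X, A * S = S * A → φ (A y) = 0}
  add_mem' ha hb A hA := by rw [map_add, map_add, ha A hA, hb A hA, add_zero]
  zero_mem' A _ := by simp
  smul_mem' c x hx A hA := by rw [map_smul, map_smul, hx A hA, smul_zero]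

lemma hyper_of_pair (S : X →L[ℂ] X) {x : X} (hx : x ≠ 0) {φ : X →L[ℂ] ℂ} (hφ : φ ≠ 0)
    (h : ∀ A : X →L[ℂ] X, A * S = S * A → φ (A x) = 0) :
    ∃ V : Submodule ℂ X, IsClosed (V : Set X) ∧ V ≠ ⊥ ∧ V ≠ ⊤ ∧
      ∀ A : X →L[ℂ] X, A * S = S * A → ∀ y ∈ V, A y ∈ V := by
  refine ⟨hypKer S φ, ?_, ?_, ?_, ?_⟩
  · have : (hypKer S φ : Set X) = ⋂ A : X →L[ℂ] X, ⋂ _ : A * S = S * A, {y | φ (A y) = 0} := by
      ext y
      simp only [Set.mem_iInter, Set.mem_ofPred_eq]
      rfl
    rw [this]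
    exact isClosed_iInter fun A => isClosed_iInter fun _ =>
      isClosed_eq (φ.continuous.comp A.continuous) continuous_const
  · exact (Submodule.ne_bot_iff _).2 ⟨x, h, hx⟩
  · intro hV
    apply hφ
    ext y
    have : y ∈ hypKer S φ := by rw [hV]; trivial
    simpa using this 1 (by simp)
  · intro B hB y hy A hA
    exact hy (A * B) (by rw [mul_assoc, hB, ← mul_assoc, hA, mul_assoc])

lemma toeplitz {S : X →L[ℂ] X} {u : ℤ → X} {ψ : ℤ → X →L[ℂ] ℂ} (hu : ∀ n, S (u n) = u (n + 1))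
    (hψ : ∀ n x, ψ (n + 1) (S x) = ψ n x) {A : X →L[ℂ] X} (hA : A * S = S * A) (k n : ℤ) :
    ψ (n + k) (A (u n)) = ψ k (A (u 0)) := by
  have step : ∀ n, ψ (n + 1 + k) (A (u (n + 1))) = ψ (n + k) (A (u n)) := by
    intro n
    have : A (S (u n)) = S (A (u n)) := congrArg (fun B : X →L[ℂ] X => B (u n)) hA
    rw [← hu, this, add_right_comm, hψ]
  induction n using Int.induction_on with
  | zero => simp
  | succ n ih => rw [step, ih]
  | pred n ih => rw [← step, sub_add_cancel, ih]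

variable [CompleteSpace X]

/-- The pair of a vector and a functional which are orthogonal along the whole commutant. -/
theorem pair_of_orbit {S : X →L[ℂ] X} {u : ℤ → X} {ψ : ℤ → X →L[ℂ] ℂ}
    (hu : ∀ n, S (u n) = u (n + 1)) (hψ : ∀ n x, ψ (n + 1) (S x) = ψ n x)
    (hbi : ∀ m n, ψ m (u n) = if m = n then 1 else 0) {C : ℝ} (hC : ∀ n, ‖u n‖ * ‖ψ n‖ ≤ C) :
    ∃ x : X, ∃ φ : X →L[ℂ] ℂ, x ≠ 0 ∧ φ ≠ 0 ∧
      ∀ A : X →L[ℂ] X, A * S = S * A → φ (A x) = 0 := by
  have hw : ∀ n, 0 < ‖u n‖ := fun n => norm_pos_iff.2 fun h => by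
    have := hbi n n
    rw [h, map_zero, if_pos rfl] at this
    exact zero_ne_one this
  have hC0 : 0 ≤ C := le_trans (by positivity) (hC 0)
  have hψn : ∀ n, ‖ψ n‖ ≤ C / ‖u n‖ := fun n => by
    rw [le_div_iff₀ (hw n), mul_comm]; exact hC n
  have hent : ∀ (A : X →L[ℂ] X) m n, ‖ψ m (A (u n))‖ ≤ C * ‖A‖ * (‖u n‖ / ‖u m‖) := by
    intro A m n
    calc ‖ψ m (A (u n))‖ ≤ ‖ψ m‖ * ‖A (u n)‖ := (ψ m).le_opNorm _
      _ ≤ (C / ‖u m‖) * (‖A‖ * ‖u n‖) :=
        mul_le_mul (hψn m) (A.le_opNorm _) (norm_nonneg _) (div_nonneg hC0 (hw m).le)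
      _ = _ := by ring
  by_cases hK : ∃ K : ℝ, ∀ n, ‖u n‖ ≤ K * ‖u (n + 1)‖
  · obtain ⟨K, hK⟩ := hK
    obtain ⟨p, g, sp, sg, p0, g0, hz⟩ := weight_core (w := fun n => ‖u n‖) hw
      (K := max K ‖S‖) (le_max_of_le_right (norm_nonneg _))
      (fun n => by
        rw [← hu]
        exact (S.le_opNorm _).trans (mul_le_mul_of_nonneg_right (le_max_right _ _) (hw n).le))
      (fun n => (hK n).trans (mul_le_mul_of_nonneg_right (le_max_left _ _) (hw _).le))
    have hwc : ∀ n, ((‖u n‖ : ℝ) : ℂ) ≠ 0 := fun n => Complex.ofReal_ne_zero.2 (hw n).ne'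
    let ξ : ℤ → ℂ := fun n => p n / (‖u n‖ : ℝ)
    let γ : ℤ → ℂ := fun n => g n * (‖u n‖ : ℝ)
    have nξ : ∀ n, ‖ξ n‖ = ‖p n‖ / ‖u n‖ := fun n => by simp [ξ]
    have nγ : ∀ n, ‖γ n‖ = ‖g n‖ * ‖u n‖ := fun n => by simp [γ]
    have sx : Summable fun n => ξ n • u n := by
      refine Summable.of_norm_bounded sp fun n => ?_
      rw [norm_smul, nξ, div_mul_cancel₀ _ (hw n).ne']
    have sφ : Summable fun n => γ n • ψ n := by
      refine Summable.of_norm_bounded (sg.mul_right C) fun n => ?_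
      rw [norm_smul, nγ, mul_assoc]
      exact mul_le_mul_of_nonneg_left (hC n) (norm_nonneg _)
    have evx : ∀ L : X →L[ℂ] ℂ, L (∑' n, ξ n • u n) = ∑' n, ξ n * L (u n) := fun L => by
      rw [L.map_tsum sx]
      simp
    have evφ : ∀ y : X, (∑' n, γ n • ψ n) y = ∑' n, γ n * ψ n y := fun y => by
      have := (ContinuousLinearMap.apply ℂ ℂ y).map_tsum sφ
      simpa using this
    refine ⟨∑' n, ξ n • u n, ∑' n, γ n • ψ n, ?_, ?_, fun A hA => ?_⟩
    · intro h
      apply p0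
      ext m
      have h1 := evx (ψ m)
      rw [h, map_zero, tsum_eq_single m (fun n hn => by rw [hbi, if_neg (Ne.symm hn), mul_zero]),
        hbi, if_pos rfl, mul_one] at h1
      simpa [ξ, (hw m).ne'] using h1.symm
    · intro h
      apply g0
      ext m
      have h1 := evφ (u m)
      rw [h, zero_apply,
        tsum_eq_single m (fun n hn => by rw [hbi, if_neg hn, mul_zero]),
        hbi, if_pos rfl, mul_one] at h1
      simpa [γ, (hw m).ne'] using h1.symm
    · let F : ℤ × ℤ → ℂ := fun q => ξ q.1 * (γ q.2 * ψ q.2 (A (u q.1)))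
      have sF : Summable F := by
        refine Summable.of_norm_bounded
          ((summable_mul_of_summable_norm (f := fun n => ‖p n‖) (g := fun n => ‖g n‖)
            (by simpa using sp) (by simpa using sg)).mul_right (C * ‖A‖)) fun q => ?_
        simp only [F, norm_mul, nξ, nγ]
        have h1 := hent A q.2 q.1
        have h2 := hw q.1
        have h3 := hw q.2
        calc ‖p q.1‖ / ‖u q.1‖ * (‖g q.2‖ * ‖u q.2‖ * ‖ψ q.2 (A (u q.1))‖)
            ≤ ‖p q.1‖ / ‖u q.1‖ * (‖g q.2‖ * ‖u q.2‖ * (C * ‖A‖ * (‖u q.1‖ / ‖u q.2‖))) := by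
              gcongr
          _ = _ := by field_simp
      have e1 : (∑' n, γ n • ψ n) (A (∑' n, ξ n • u n)) = ∑' q, F q := by
        have := evx ((∑' n, γ n • ψ n).comp A)
        simp only [ContinuousLinearMap.comp_apply] at this
        rw [this, sF.tsum_prod]
        refine tsum_congr fun n => ?_
        rw [evφ, ← tsum_mul_left]
      let E : ℤ × ℤ ≃ ℤ × ℤ :=
        { toFun := fun q => (q.2, q.2 + q.1)
          invFun := fun q => (q.2 - q.1, q.1)
          left_inv := fun q => by simp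
          right_inv := fun q => by simp }
      have sFE : Summable fun q => F (E q) := E.summable_iff.2 sF
      rw [e1, ← E.tsum_eq, sFE.tsum_prod]
      refine (tsum_congr fun k => ?_).trans tsum_zero
      have e2 : ∀ n, F (E (k, n)) =
          ψ k (A (u 0)) * (p n * g (n + k) * ((‖u (n + k)‖ / ‖u n‖ : ℝ) : ℂ)) := by
        intro n
        simp only [F, E, Equiv.coe_fn_mk, toeplitz hu hψ hA, ξ, γ]
        push_cast
        ring
      simp only [e2]
      rw [tsum_mul_left, hz, mul_zero]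
  · push Not at hK
    refine ⟨u 1, ψ 0, norm_pos_iff.1 (hw 1), fun h => ?_, fun A hA => ?_⟩
    · have := hbi 0 0
      rw [h] at this
      simp at this
    · have e : ∀ n, ψ n (A (u (n + 1))) = ψ 0 (A (u 1)) := fun n => by
        have h1 := toeplitz hu hψ hA (-1) (n + 1)
        have h2 := toeplitz hu hψ hA (-1) 1
        rw [add_neg_cancel_right] at h1
        rw [add_neg_cancel] at h2
        rw [h1, h2]
      by_contra hc
      have hc0 : 0 < ‖ψ 0 (A (u 1))‖ := norm_pos_iff.2 hc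
      obtain ⟨n, hn⟩ := hK (C * ‖A‖ / ‖ψ 0 (A (u 1))‖)
      have h1 := hent A n (n + 1)
      rw [e, ← mul_div_assoc, le_div_iff₀ (hw n)] at h1
      rw [div_mul_eq_mul_div, div_lt_iff₀ hc0] at hn
      linarith

theorem shift_hyper (e : ℤ → X) (f : ℤ → X →L[ℂ] ℂ)
    (hbi : ∀ m n, f m (e n) = if m = n then 1 else 0) (C : ℝ) (hC : ∀ n, ‖e n‖ * ‖f n‖ ≤ C)
    (S : X →L[ℂ] X) (a : ℤ → ℂ) (hS : ∀ n, S (e n) = a n • e (n + 1))
    (hS' : ∀ n x, f (n + 1) (S x) = a n * f n x) (hS0 : S ≠ 0) :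
    ∃ V : Submodule ℂ X, IsClosed (V : Set X) ∧ V ≠ ⊥ ∧ V ≠ ⊤ ∧
      ∀ A : X →L[ℂ] X, A * S = S * A → ∀ y ∈ V, A y ∈ V := by
  by_cases ha : ∀ n, a n ≠ 0
  · obtain ⟨W, W0, hW⟩ := exists_cumul ha
    obtain ⟨x, φ, hx, hφ, h⟩ := pair_of_orbit (S := S) (u := fun n => W n • e n)
      (ψ := fun n => (W n)⁻¹ • f n) (C := C)
      (fun n => by rw [map_smul, hS, smul_smul, hW, mul_comm])
      (fun n x => by
        simp only [smul_apply, hS', hW, smul_eq_mul]
        have := ha n
        have := W0 n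
        field_simp)
      (fun m n => by
        simp only [smul_apply, map_smul, hbi, smul_eq_mul]
        split_ifs with h
        · subst h
          have := W0 m
          field_simp
        · simp)
      (fun n => by
        rw [norm_smul, norm_smul, norm_inv]
        have := norm_ne_zero_iff.2 (W0 n)
        calc ‖W n‖ * ‖e n‖ * (‖W n‖⁻¹ * ‖f n‖) = ‖e n‖ * ‖f n‖ := by field_simp
          _ ≤ C := hC n)
    exact hyper_of_pair S hx hφ h
  · push Not at ha
    obtain ⟨n, hn⟩ := ha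
    refine ⟨LinearMap.ker (S : X →ₗ[ℂ] X), S.isClosed_ker, ?_, ?_, fun A hA y hy => ?_⟩
    · refine (Submodule.ne_bot_iff _).2 ⟨e n, ?_, fun h => ?_⟩
      · simp [LinearMap.mem_ker, hS, hn]
      · have := hbi n n
        rw [h, map_zero, if_pos rfl] at this
        exact zero_ne_one this
    · intro h
      apply hS0
      ext y
      have : y ∈ LinearMap.ker (S : X →ₗ[ℂ] X) := by rw [h]; trivial
      simpa using this
    · have h1 : A (S y) = S (A y) := congrArg (fun B : X →L[ℂ] X => B y) hA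
      have h2 : S y = 0 := by simpa using hy
      simp only [LinearMap.mem_ker, ContinuousLinearMap.coe_coe]
      rw [← h1, h2, map_zero]

end

end Pool.Agent.P.MP_f981b0_an
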