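import Mathlib

set_option autoImplicit false

namespace Pool.Agent.P.MP_f981b0_an

open Real

/-- Two point convexity of the power function. -/
lemma rpow_convex2 {r : ℝ} (hr : 1 ≤ r) {x y a b : ℝ} (hx : 0 ≤ x) (hy : 0 ≤ y) (ha : 0 ≤ a)
    (hb : 0 ≤ b) (hab : a + b = 1) : (a * x + b * y) ^ r ≤ a * x ^ r + b * y ^ r := by
  have := (convexOn_rpow hr).2 (Set.mem_Ici.2 hx) (Set.mem_Ici.2 hy) ha hb hab
  simpa [smul_eq_mul] using this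

/-- Two point concavity of the power function. -/
lemma rpow_concave2 {r : ℝ} (hr0 : 0 ≤ r) (hr : r ≤ 1) {x y a b : ℝ} (hx : 0 ≤ x) (hy : 0 ≤ y)
    (ha : 0 ≤ a) (hb : 0 ≤ b) (hab : a + b = 1) : a * x ^ r + b * y ^ r ≤ (a * x + b * y) ^ r := by
  have := (Real.concaveOn_rpow hr0 hr).2 (Set.mem_Ici.2 hx) (Set.mem_Ici.2 hy) ha hb hab
  simpa [smul_eq_mul] using this

lemma add_rpow_le_two {r : ℝ} (hr : 0 ≤ r) {x y : ℝ} (hx : 0 ≤ x) (hy : 0 ≤ y) :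
    (x + y) ^ r ≤ 2 ^ r * (x ^ r + y ^ r) := by
  have hxr : 0 ≤ x ^ r := rpow_nonneg hx r
  have hyr : 0 ≤ y ^ r := rpow_nonneg hy r
  have h2 : 0 ≤ (2 : ℝ) ^ r := by positivity
  rcases le_total x y with h | h
  · calc (x + y) ^ r ≤ (2 * y) ^ r := rpow_le_rpow (by positivity) (by linarith) hr
      _ = 2 ^ r * y ^ r := mul_rpow (by norm_num) hy
      _ ≤ _ := by nlinarith
  · calc (x + y) ^ r ≤ (2 * x) ^ r := rpow_le_rpow (by positivity) (by linarith) hr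
      _ = 2 ^ r * x ^ r := mul_rpow (by norm_num) hx
      _ ≤ _ := by nlinarith

section Normed
variable {E : Type*} [NormedAddCommGroup E]

/-- Midpoint convexity of the `r`-th power of the norm. -/
lemma two_mul_norm_rpow_le [NormedSpace ℝ E] {r : ℝ} (hr : 1 ≤ r) (u c : E) :
    2 * ‖u‖ ^ r ≤ ‖u + c‖ ^ r + ‖u - c‖ ^ r := by
  have h1 : ‖u‖ ≤ (1 / 2) * ‖u + c‖ + (1 / 2) * ‖u - c‖ := by
    have h : (2 : ℝ) • u = (u + c) + (u - c) := by rw [two_smul]; abel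
    have h2 : ‖(2 : ℝ) • u‖ = 2 * ‖u‖ := by rw [norm_smul]; simp
    have h3 := norm_add_le (u + c) (u - c)
    rw [← h, h2] at h3
    linarith
  have h2 : ‖u‖ ^ r ≤ ((1 / 2) * ‖u + c‖ + (1 / 2) * ‖u - c‖) ^ r :=
    rpow_le_rpow (norm_nonneg _) h1 (by linarith)
  have h3 := rpow_convex2 hr (norm_nonneg (u + c)) (norm_nonneg (u - c)) (a := 1 / 2) (b := 1 / 2)
    (by norm_num) (by norm_num) (by norm_num)
  linarith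

end Normed

lemma sq_rpow_half {x : ℝ} (hx : 0 ≤ x) (r : ℝ) : (x ^ 2) ^ (r / 2) = x ^ r := by
  rw [← rpow_natCast, ← rpow_mul hx]; congr 1; push_cast; ring

lemma rpow_sub_two_mul {x : ℝ} (hx : 0 < x) (r : ℝ) : x ^ (r - 2) * x ^ 2 = x ^ r := by
  rw [← rpow_natCast, ← rpow_add hx]; congr 1; push_cast; ring

lemma complex_par (u c : ℂ) : ‖u + c‖ ^ 2 + ‖u - c‖ ^ 2 = 2 * (‖u‖ ^ 2 + ‖c‖ ^ 2) := by
  have := parallelogram_law_with_norm ℂ u c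
  nlinarith

/-- Second order lower bound, exponent at least two. -/
lemma complex_lower {r : ℝ} (hr : 2 ≤ r) {u : ℂ} (hu : u ≠ 0) (c : ℂ) :
    2 * ‖u‖ ^ r + r * ‖u‖ ^ (r - 2) * ‖c‖ ^ 2 ≤ ‖u + c‖ ^ r + ‖u - c‖ ^ r := by
  have hu' : 0 < ‖u‖ := norm_pos_iff.2 hu
  have hr2 : 1 ≤ r / 2 := by linarith
  have h1 := rpow_convex2 hr2 (sq_nonneg ‖u + c‖) (sq_nonneg ‖u - c‖) (a := 1 / 2) (b := 1 / 2)
    (by norm_num) (by norm_num) (by norm_num)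
  rw [sq_rpow_half (norm_nonneg _), sq_rpow_half (norm_nonneg _)] at h1
  have h2 : 1 / 2 * ‖u + c‖ ^ 2 + 1 / 2 * ‖u - c‖ ^ 2 = ‖u‖ ^ 2 * (1 + ‖c‖ ^ 2 / ‖u‖ ^ 2) := by
    have := complex_par u c
    field_simp
    linarith
  rw [h2, mul_rpow (by positivity) (by positivity), sq_rpow_half (norm_nonneg _)] at h1
  have h3 := one_add_mul_self_le_rpow_one_add (s := ‖c‖ ^ 2 / ‖u‖ ^ 2)
    (le_trans (by norm_num) (by positivity : (0 : ℝ) ≤ ‖c‖ ^ 2 / ‖u‖ ^ 2)) hr2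
  have h4 := rpow_sub_two_mul hu' r
  have h5 : ‖u‖ ^ r * (1 + r / 2 * (‖c‖ ^ 2 / ‖u‖ ^ 2)) ≤
      ‖u‖ ^ r * (1 + ‖c‖ ^ 2 / ‖u‖ ^ 2) ^ (r / 2) :=
    mul_le_mul_of_nonneg_left h3 (by positivity)
  have h6 : ‖u‖ ^ r * (1 + r / 2 * (‖c‖ ^ 2 / ‖u‖ ^ 2)) =
      ‖u‖ ^ r + r / 2 * ‖u‖ ^ (r - 2) * ‖c‖ ^ 2 := by
    rw [← h4]; field_simp
  linarith

/-- Second order upper bound, exponent at most two. -/
lemma complex_upper {r : ℝ} (hr0 : 0 ≤ r) (hr : r ≤ 2) {u : ℂ} (hu : u ≠ 0) (c : ℂ) :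
    ‖u + c‖ ^ r + ‖u - c‖ ^ r ≤ 2 * ‖u‖ ^ r + r * ‖u‖ ^ (r - 2) * ‖c‖ ^ 2 := by
  have hu' : 0 < ‖u‖ := norm_pos_iff.2 hu
  have hr2 : r / 2 ≤ 1 := by linarith
  have hr3 : 0 ≤ r / 2 := by linarith
  have h1 := rpow_concave2 hr3 hr2 (sq_nonneg ‖u + c‖) (sq_nonneg ‖u - c‖) (a := 1 / 2)
    (b := 1 / 2) (by norm_num) (by norm_num) (by norm_num)
  rw [sq_rpow_half (norm_nonneg _), sq_rpow_half (norm_nonneg _)] at h1
  have h2 : 1 / 2 * ‖u + c‖ ^ 2 + 1 / 2 * ‖u - c‖ ^ 2 = ‖u‖ ^ 2 * (1 + ‖c‖ ^ 2 / ‖u‖ ^ 2) := by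
    have := complex_par u c
    field_simp
    linarith
  rw [h2, mul_rpow (by positivity) (by positivity), sq_rpow_half (norm_nonneg _)] at h1
  have h3 := rpow_one_add_le_one_add_mul_self (s := ‖c‖ ^ 2 / ‖u‖ ^ 2)
    (le_trans (by norm_num) (by positivity : (0 : ℝ) ≤ ‖c‖ ^ 2 / ‖u‖ ^ 2)) hr3 hr2
  have h4 := rpow_sub_two_mul hu' r
  have h5 : ‖u‖ ^ r * (1 + ‖c‖ ^ 2 / ‖u‖ ^ 2) ^ (r / 2) ≤
      ‖u‖ ^ r * (1 + r / 2 * (‖c‖ ^ 2 / ‖u‖ ^ 2)) :=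
    mul_le_mul_of_nonneg_left h3 (by positivity)
  have h6 : ‖u‖ ^ r * (1 + r / 2 * (‖c‖ ^ 2 / ‖u‖ ^ 2)) =
      ‖u‖ ^ r + r / 2 * ‖u‖ ^ (r - 2) * ‖c‖ ^ 2 := by
    rw [← h4]; field_simp
  linarith

/-- The recursion inequality used for stable operators. -/
lemma rpow_stable {r : ℝ} (hr : 1 ≤ r) {σ x y : ℝ} (hσ0 : 0 ≤ σ) (hσ : σ < 1) (hx : 0 ≤ x)
    (hy : 0 ≤ y) : (σ * x + y) ^ r ≤ σ * x ^ r + (1 - σ) * ((1 - σ)⁻¹ ^ r * y ^ r) := by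
  have h1 : 0 < 1 - σ := by linarith
  have h := rpow_convex2 hr hx (y := (1 - σ)⁻¹ * y) (by positivity) hσ0 h1.le (by ring)
  rw [mul_rpow (by positivity) hy] at h
  have h2 : (1 - σ) * ((1 - σ)⁻¹ * y) = y := by field_simp
  rwa [h2] at h

end Pool.Agent.P.MP_f981b0_an
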