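import Mathlib
import Pool.Agent.P.MP_f981b0_an.Scalar

set_option autoImplicit false

set_option linter.dupNamespace false

noncomputable section

namespace Pool.Agent.P.MP_f981b0_an

open Real Finset Filter Topology
open scoped ENNReal

/-- The sequence space. -/
abbrev X (p : ℝ≥0∞) : Type := lp (fun _ : ℕ => ℂ) p

variable {p : ℝ≥0∞} [Fact (1 ≤ p)]

/-- Unit vectors. -/
def e (p : ℝ≥0∞) (j : ℕ) : X p := lp.single p j (1 : ℂ)

/-- Coordinate functionals. -/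
def ev (p : ℝ≥0∞) [Fact (1 ≤ p)] (i : ℕ) : X p →L[ℂ] ℂ := lp.evalCLM ℂ (fun _ : ℕ => ℂ) p i

/-- Coordinate projections. -/
def P (p : ℝ≥0∞) [Fact (1 ≤ p)] (N : ℕ) : X p →L[ℂ] X p :=
  ∑ i ∈ range N, (ev p i).smulRight (e p i)

lemma p_pos : (0 : ℝ≥0∞) < p := zero_lt_one.trans_le (Fact.out : 1 ≤ p)

lemma r_pos (hp : p ≠ ⊤) : 0 < p.toReal := ENNReal.toReal_pos p_pos.ne' hp

lemma one_le_r (hp : p ≠ ⊤) : 1 ≤ p.toReal := by
  have := ENNReal.toReal_mono hp (Fact.out : 1 ≤ p)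
  simpa using this

@[simp] lemma ev_apply (i : ℕ) (v : X p) : ev p i v = v i := rfl

omit [Fact (1 ≤ p)] in
lemma e_apply (j i : ℕ) : (e p j) i = if i = j then 1 else 0 := by
  simp [e, lp.single_apply, Pi.single_apply]

@[simp] lemma norm_e (j : ℕ) : ‖e p j‖ = 1 := by
  rw [e, lp.norm_single p_pos]; simp

lemma norm_apply_le (v : X p) (i : ℕ) : ‖v i‖ ≤ ‖v‖ := lp.norm_apply_le_norm p_pos.ne' v i

lemma norm_ev_le (i : ℕ) : ‖ev p i‖ ≤ 1 :=
  ContinuousLinearMap.opNorm_le_bound _ zero_le_one fun v => by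
    simpa using norm_apply_le v i

omit [Fact (1 ≤ p)] in
@[simp] lemma add_coord (u v : X p) (i : ℕ) : (u + v) i = u i + v i := rfl
omit [Fact (1 ≤ p)] in
@[simp] lemma sub_coord (u v : X p) (i : ℕ) : (u - v) i = u i - v i := rfl
omit [Fact (1 ≤ p)] in
@[simp] lemma neg_coord (u : X p) (i : ℕ) : (-u) i = - u i := rfl
omit [Fact (1 ≤ p)] in
@[simp] lemma zero_coord (i : ℕ) : (0 : X p) i = 0 := rfl
omit [Fact (1 ≤ p)] in
@[simp] lemma smul_coord (c : ℂ) (v : X p) (i : ℕ) : (c • v) i = c * v i := rfl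

lemma sum_coord {ι : Type*} (s : Finset ι) (f : ι → X p) (i : ℕ) :
    (∑ j ∈ s, f j) i = ∑ j ∈ s, f j i := by
  rw [← ev_apply, map_sum]; rfl

lemma P_eq_sum (N : ℕ) (v : X p) : P p N v = ∑ i ∈ range N, v i • e p i := by
  simp [P]

lemma sum_e_coord (s : Finset ℕ) (c : ℕ → ℂ) (i : ℕ) :
    (∑ j ∈ s, c j • e p j) i = if i ∈ s then c i else 0 := by
  rw [sum_coord]
  simp only [smul_coord, e_apply, mul_ite, mul_one, mul_zero]
  rw [Finset.sum_ite_eq]

lemma P_coord (N : ℕ) (v : X p) (i : ℕ) : (P p N v) i = if i < N then v i else 0 := by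
  rw [P_eq_sum, sum_e_coord]; simp

lemma P_eq_self_iff {N : ℕ} {v : X p} : P p N v = v ↔ ∀ i, N ≤ i → v i = 0 := by
  constructor
  · intro h i hi
    rw [← h, P_coord, if_neg (by omega)]
  · intro h
    ext i
    rw [P_coord]
    split_ifs with hi
    · rfl
    · exact (h i (by omega)).symm

lemma P_eq_zero_iff {N : ℕ} {v : X p} : P p N v = 0 ↔ ∀ i, i < N → v i = 0 := by
  constructor
  · intro h i hi
    have := P_coord N v i
    rw [h, if_pos hi] at this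
    exact this.symm
  · intro h
    ext i
    rw [P_coord]
    split_ifs with hi
    · exact h i hi
    · rfl

lemma P_P (N : ℕ) (v : X p) : P p N (P p N v) = P p N v :=
  P_eq_self_iff.2 fun i hi => by rw [P_coord, if_neg (by omega)]

lemma P_mono {N M : ℕ} {v : X p} (h : P p N v = v) (hNM : N ≤ M) : P p M v = v :=
  P_eq_self_iff.2 fun i hi => P_eq_self_iff.1 h i (by omega)

lemma P_P_of_le {N M : ℕ} (hNM : N ≤ M) (v : X p) : P p N (P p M v) = P p N v := by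
  ext i
  simp only [P_coord]
  split_ifs with h1 h2
  · rfl
  · omega
  · rfl

lemma P_e {N j : ℕ} (h : j < N) : P p N (e p j) = e p j :=
  P_eq_self_iff.2 fun i hi => by rw [e_apply, if_neg (by omega)]

lemma P_e_zero {N j : ℕ} (h : N ≤ j) : P p N (e p j) = 0 :=
  P_eq_zero_iff.2 fun i hi => by rw [e_apply, if_neg (by omega)]

lemma norm_add_rpow (hp : p ≠ ⊤) {u v : X p} (h : ∀ i, u i = 0 ∨ v i = 0) :
    ‖u + v‖ ^ p.toReal = ‖u‖ ^ p.toReal + ‖v‖ ^ p.toReal := by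
  have hr := r_pos hp
  refine (lp.hasSum_norm hr (u + v)).unique ?_
  convert (lp.hasSum_norm hr u).add (lp.hasSum_norm hr v) using 2 with i
  rcases h i with h | h <;> simp [h, zero_rpow hr.ne']

lemma norm_P_rpow (hp : p ≠ ⊤) (N : ℕ) (v : X p) :
    ‖P p N v‖ ^ p.toReal + ‖v - P p N v‖ ^ p.toReal = ‖v‖ ^ p.toReal := by
  rw [← norm_add_rpow hp]
  · simp
  · intro i
    rw [sub_coord, P_coord]
    split_ifs <;> simp

lemma norm_add_rpow_P (hp : p ≠ ⊤) {N : ℕ} {a b : X p} (ha : P p N a = a) (hb : P p N b = 0) :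
    ‖a + b‖ ^ p.toReal = ‖a‖ ^ p.toReal + ‖b‖ ^ p.toReal := by
  refine norm_add_rpow hp fun i => ?_
  rcases lt_or_ge i N with h | h
  · exact Or.inr (P_eq_zero_iff.1 hb i h)
  · exact Or.inl (P_eq_self_iff.1 ha i h)

lemma le_of_rpow_le (hp : p ≠ ⊤) {x y : ℝ} (hx : 0 ≤ x) (hy : 0 ≤ y)
    (h : x ^ p.toReal ≤ y ^ p.toReal) : x ≤ y :=
  (rpow_le_rpow_iff hx hy (r_pos hp)).1 h

lemma norm_P_le (hp : p ≠ ⊤) (N : ℕ) (v : X p) : ‖P p N v‖ ≤ ‖v‖ := by
  refine le_of_rpow_le hp (norm_nonneg _) (norm_nonneg _) ?_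
  have := norm_P_rpow hp N v
  have h2 : 0 ≤ ‖v - P p N v‖ ^ p.toReal := by positivity
  linarith

lemma norm_sub_P_le (hp : p ≠ ⊤) (N : ℕ) (v : X p) : ‖v - P p N v‖ ≤ ‖v‖ := by
  refine le_of_rpow_le hp (norm_nonneg _) (norm_nonneg _) ?_
  have := norm_P_rpow hp N v
  have h2 : 0 ≤ ‖P p N v‖ ^ p.toReal := by positivity
  linarith

lemma opNorm_P_le (hp : p ≠ ⊤) (N : ℕ) : ‖P p N‖ ≤ 1 :=
  ContinuousLinearMap.opNorm_le_bound _ zero_le_one fun v => by simpa using norm_P_le hp N v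

lemma norm_sum_e_rpow (hp : p ≠ ⊤) (s : Finset ℕ) (c : ℕ → ℂ) :
    ‖∑ j ∈ s, c j • e p j‖ ^ p.toReal = ∑ j ∈ s, ‖c j‖ ^ p.toReal := by
  rw [← lp.norm_sum_single (E := fun _ : ℕ => ℂ) (r_pos hp) c s]
  congr 2
  refine sum_congr rfl fun j _ => ?_
  rw [e, ← lp.single_smul]; simp

lemma tendsto_P (hp : p ≠ ⊤) (v : X p) : Tendsto (fun N => P p N v) atTop (𝓝 v) := by
  have h := (lp.hasSum_single hp v).tendsto_sum_nat
  refine h.congr fun N => ?_
  rw [P_eq_sum]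
  refine sum_congr rfl fun j _ => ?_
  rw [e, ← lp.single_smul]; simp

lemma pair_lower (hp : p ≠ ⊤) (u c : X p) (i : ℕ) :
    2 * ‖u‖ ^ p.toReal + (‖u i + c i‖ ^ p.toReal + ‖u i - c i‖ ^ p.toReal - 2 * ‖u i‖ ^ p.toReal)
      ≤ ‖u + c‖ ^ p.toReal + ‖u - c‖ ^ p.toReal := by
  have hr := r_pos hp
  have h := ((lp.hasSum_norm hr (u + c)).add (lp.hasSum_norm hr (u - c))).sub
    ((lp.hasSum_norm hr u).mul_left 2)
  have h2 := le_hasSum h i fun j _ => by
    have := two_mul_norm_rpow_le (E := ℂ) (one_le_r hp) (u j) (c j)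
    simp only [add_coord, sub_coord]
    linarith
  simp only [add_coord, sub_coord] at h2
  linarith

lemma pair_eq (hp : p ≠ ⊤) (u : X p) {a : X p} {N : ℕ} (ha : P p N a = a) :
    ‖u + a‖ ^ p.toReal + ‖u - a‖ ^ p.toReal = 2 * ‖u‖ ^ p.toReal +
      ∑ i ∈ range N,
        (‖u i + a i‖ ^ p.toReal + ‖u i - a i‖ ^ p.toReal - 2 * ‖u i‖ ^ p.toReal) := by
  have hr := r_pos hp
  have h := ((lp.hasSum_norm hr (u + a)).add (lp.hasSum_norm hr (u - a))).sub
    ((lp.hasSum_norm hr u).mul_left 2)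
  have h2 := hasSum_sum_of_ne_finset_zero (s := range N)
    (f := fun i => ‖u i + a i‖ ^ p.toReal + ‖u i - a i‖ ^ p.toReal - 2 * ‖u i‖ ^ p.toReal)
    (L := SummationFilter.unconditional ℕ) fun i hi => by
      have : a i = 0 := P_eq_self_iff.1 ha i (by simpa using hi)
      simp only [this, add_zero, sub_zero]; ring
  have h3 := h.unique h2
  linarith

lemma tendsto_comp_P (hp1 : 1 < p) (hp : p ≠ ⊤) (φ : X p →L[ℂ] ℂ) :
    Tendsto (fun N => φ.comp (P p N)) atTop (𝓝 φ) := by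
  have hr : 1 < p.toReal := by
    have := (ENNReal.toReal_lt_toReal ENNReal.one_ne_top hp).2 hp1
    simpa using this
  rw [Metric.tendsto_atTop']
  rcases eq_or_ne φ 0 with rfl | hφ
  · intro ε hε; exact ⟨0, fun n _ => by simpa using hε⟩
  have hφ' : 0 < ‖φ‖ := norm_pos_iff.2 hφ
  intro ε hε
  -- choose t
  obtain ⟨t, ht0, ht⟩ : ∃ t : ℝ, 0 < t ∧ ‖φ‖ * t ^ (p.toReal - 1) ≤ ε / 4 := by
    refine ⟨(ε / 4 / ‖φ‖) ^ (p.toReal - 1)⁻¹, by positivity, ?_⟩
    rw [rpow_inv_rpow (by positivity) (by linarith)]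
    exact le_of_eq (by field_simp)
  obtain ⟨u, hu1, hu2⟩ := φ.exists_lt_apply_of_lt_opNorm (r := ‖φ‖ - t * ε / 4)
    (by have : 0 < t * ε / 4 := by positivity
        linarith)
  have hlim : Tendsto (fun N => ‖φ (P p N u)‖) atTop (𝓝 ‖φ u‖) :=
    ((φ.continuous.tendsto u).comp (tendsto_P hp u)).norm
  obtain ⟨N0, hN0⟩ := eventually_atTop.1 (hlim.eventually (lt_mem_nhds hu2))
  refine ⟨N0, fun N hN => ?_⟩
  have hN' := hN0 N hN.le
  rw [dist_eq_norm, norm_sub_rev]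
  refine lt_of_le_of_lt (b := ε / 2) ?_ (by linarith)
  refine ContinuousLinearMap.opNorm_le_of_unit_norm (by positivity) fun v hv => ?_
  obtain ⟨c1, hc1, hc1'⟩ := Complex.exists_norm_eq_mul_self (φ (P p N u))
  obtain ⟨c2, hc2, hc2'⟩ := Complex.exists_norm_eq_mul_self (φ (v - P p N v))
  set z : X p := c1 • P p N u + ((t : ℂ) * c2) • (v - P p N v) with hz
  have hz1 : ‖z‖ ^ p.toReal ≤ 1 + t ^ p.toReal := by
    rw [hz, norm_add_rpow_P hp (N := N) (by rw [map_smul, P_P])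
      (by rw [map_smul, map_sub, P_P, sub_self, smul_zero])]
    refine add_le_add ?_ ?_
    · refine rpow_le_one (norm_nonneg _) ?_ (by linarith)
      rw [norm_smul, hc1, one_mul]; exact (norm_P_le hp N u).trans hu1.le
    · refine rpow_le_rpow (norm_nonneg _) ?_ (by linarith)
      rw [norm_smul, norm_mul, hc2, Complex.norm_real, Real.norm_of_nonneg ht0.le, mul_one]
      have := norm_sub_P_le hp N v
      rw [hv] at this
      nlinarith
  have htr : 0 ≤ t ^ p.toReal := by positivity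
  have hz2 : ‖z‖ ≤ 1 + t ^ p.toReal := by
    refine le_of_rpow_le hp (norm_nonneg _) (by positivity) (hz1.trans ?_)
    calc 1 + t ^ p.toReal = (1 + t ^ p.toReal) ^ (1 : ℝ) := (rpow_one _).symm
      _ ≤ _ := rpow_le_rpow_of_exponent_le (by linarith) hr.le
  have hz3 : φ z = ((‖φ (P p N u)‖ + t * ‖φ (v - P p N v)‖ : ℝ) : ℂ) := by
    rw [hz, map_add, map_smul, map_smul, smul_eq_mul, smul_eq_mul, mul_assoc, ← hc1', ← hc2']
    push_cast; ring
  have hz4 : ‖φ (P p N u)‖ + t * ‖φ (v - P p N v)‖ ≤ ‖φ‖ * (1 + t ^ p.toReal) := by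
    have h1 := φ.le_opNorm z
    rw [hz3, Complex.norm_real, Real.norm_of_nonneg (by positivity)] at h1
    exact h1.trans (mul_le_mul_of_nonneg_left hz2 hφ'.le)
  have hz5 : t ^ p.toReal = t * t ^ (p.toReal - 1) := by
    rw [rpow_sub_one ht0.ne']; field_simp
  have hz6 : t * ‖φ (v - P p N v)‖ ≤ t * (ε / 2) := by
    have : ‖φ‖ * t ^ p.toReal ≤ t * (ε / 4) := by
      rw [hz5, mul_left_comm]; exact mul_le_mul_of_nonneg_left ht ht0.le
    nlinarith
  have hz7 := le_of_mul_le_mul_left hz6 ht0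
  simpa [map_sub] using hz7

end Pool.Agent.P.MP_f981b0_an
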