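import Pool.Agent.P.MP_f981b0_an.BlockOp

set_option autoImplicit false

namespace Pool.Agent.P.MP_f981b0_an.BilateralShift

/-- Every nonzero bilateral weighted shift of finite multiplicity has a nontrivial closed
hyperinvariant subspace. `E` is a nonzero finite dimensional space, `j n : E → X` and
`r n : X → E` (`n : ℤ`) form a bounded biorthogonal system of blocks in a complex Banach space `X`,
for instance the coordinate embeddings and projections of `ℓ^p(ℤ, E)` or `c₀(ℤ, E)`, and `S` is the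
shift with matrix weights `a n`: it sends `j n v` to `j (n + 1) (a n v)`, and the coordinate
`n + 1` of `S x` is `a n` applied to the coordinate `n` of `x`. Scalar weighted shifts are the case
`E = ℂ`. -/
theorem result {X : Type*} [NormedAddCommGroup X] [NormedSpace ℂ X] [CompleteSpace X]
    {E : Type*} [NormedAddCommGroup E] [NormedSpace ℂ E] [FiniteDimensional ℂ E] [Nontrivial E]
    (j : ℤ → E →L[ℂ] X) (r : ℤ → X →L[ℂ] E)
    (hbi : ∀ m n v, r m (j n v) = if m = n then v else 0)
    (C : ℝ) (hC : ∀ n, ‖j n‖ * ‖r n‖ ≤ C)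
    (S : X →L[ℂ] X) (a : ℤ → E →ₗ[ℂ] E) (hS : ∀ n v, S (j n v) = j (n + 1) (a n v))
    (hS' : ∀ n x, r (n + 1) (S x) = a n (r n x)) (hS0 : S ≠ 0) :
    ∃ V : Submodule ℂ X, IsClosed (V : Set X) ∧ V ≠ ⊥ ∧ V ≠ ⊤ ∧
      ∀ A : X →L[ℂ] X, A * S = S * A → ∀ y ∈ V, A y ∈ V :=
  Pool.Agent.P.MP_f981b0_an.Blk.block_hyper j r hbi C hC S a hS hS' hS0

end Pool.Agent.P.MP_f981b0_an.BilateralShift
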