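import Mathlib
import Pool.Agent.P.MP_f981b0_an.Scalar

set_option autoImplicit false

namespace Pool.Agent.P.MP_f981b0_an

open Real Finset

variable {X : Type*} [NormedAddCommGroup X] [NormedSpace ℂ X]

/-- The operator is a strict contraction for an equivalent subadditive gauge. -/
def Stable (S : X →L[ℂ] X) : Prop :=
  ∃ (ν : X → ℝ) (σ Λ : ℝ), 0 ≤ σ ∧ σ < 1 ∧ 0 < Λ ∧ (∀ u v, ν (u + v) ≤ ν u + ν v) ∧
    (∀ v, ‖v‖ ≤ ν v) ∧ (∀ v, ν v ≤ Λ * ‖v‖) ∧ ∀ v, ν (S v) ≤ σ * ν v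

lemma gain_defect {r : ℝ} (hr : 1 ≤ r) (P T : X →L[ℂ] X) (α : ℝ) (hα : 0 ≤ α)
    (hPP : ∀ v, P (P v) = P v)
    (H2 : ∀ a b, P a = a → P b = 0 →
      ‖T (a + b) - P (T (a + b))‖ ^ r ≤ α ^ r * ‖a‖ ^ r + ‖b‖ ^ r)
    (x : X) (hx : P x = x) (M : ℕ) :
    ∑ m ∈ range M, (‖(T ^ m) x - P ((T ^ m) x)‖ ^ r -
        ‖T ((T ^ m) x - P ((T ^ m) x)) - P (T ((T ^ m) x - P ((T ^ m) x)))‖ ^ r)
      + 2 * ‖(T ^ M) x - P ((T ^ M) x)‖ ^ r
      ≤ (2 * α) ^ r * ∑ m ∈ range M, ‖P ((T ^ m) x)‖ ^ r := by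
  have hr0 : r ≠ 0 := by linarith
  induction M with
  | zero => simp [hx, zero_rpow hr0]
  | succ M ih =>
    rw [sum_range_succ, sum_range_succ, mul_add]
    set y := (T ^ M) x with hy
    have hy1 : (T ^ (M + 1)) x = T y := by rw [pow_succ']; rfl
    rw [hy1]
    set a := P y with ha
    set b := y - a with hb
    have hPa : P a = a := hPP y
    have hPb : P b = 0 := by rw [hb, map_sub, hPa, ha, sub_self]
    have hP2a : P ((2 : ℂ) • a) = (2 : ℂ) • a := by rw [map_smul, hPa]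
    have h1 := H2 _ _ hP2a hPb
    have h2 := two_mul_norm_rpow_le (E := X) hr (T y - P (T y)) (T a - P (T a))
    have e1 : T y - P (T y) + (T a - P (T a)) =
        T ((2 : ℂ) • a + b) - P (T ((2 : ℂ) • a + b)) := by
      have : (2 : ℂ) • a + b = y + a := by rw [hb, two_smul]; abel
      rw [this, map_add, map_add]; abel
    have e2 : T y - P (T y) - (T a - P (T a)) = T b - P (T b) := by
      rw [hb, map_sub, map_sub]; abel
    rw [e1, e2] at h2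
    have e3 : α ^ r * ‖(2 : ℂ) • a‖ ^ r = (2 * α) ^ r * ‖a‖ ^ r := by
      rw [norm_smul, mul_rpow (by positivity) (norm_nonneg _), mul_rpow (by norm_num) hα]
      simp; ring
    rw [e3] at h1
    linarith

lemma gain {r : ℝ} (hr : 1 ≤ r) (S : X →L[ℂ] X) (hS : Stable S) {θ : ℝ} (hθ : 0 < θ) :
    ∃ κ > 0, ∀ (P T : X →L[ℂ] X) (α β : ℝ), (∀ v, P (P v) = P v) → 0 ≤ α → 0 ≤ β →
      α * β ≤ κ → (∀ a, P a = a → ‖P (T a) - S a‖ ≤ κ * ‖a‖) →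
      (∀ a b, P a = a → P b = 0 →
        ‖T (a + b) - P (T (a + b))‖ ^ r ≤ α ^ r * ‖a‖ ^ r + ‖b‖ ^ r) →
      (∀ b, P b = 0 → ‖P (T b)‖ ^ r ≤ β ^ r * (‖b‖ ^ r - ‖T b - P (T b)‖ ^ r)) →
      ∀ x, P x = x → ∀ M, ∑ m ∈ range M, ‖P ((T ^ m) x) - (S ^ m) x‖ ^ r ≤ θ * ‖x‖ ^ r := by
  obtain ⟨ν, σ, Λ, hσ0, hσ1, hΛ, hadd, hlow, hup, hcon⟩ := hS
  have hr0 : r ≠ 0 := by linarith
  have hr0' : 0 ≤ r := by linarith
  have h1σ : 0 < 1 - σ := by linarith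
  have hν0 : ∀ v, 0 ≤ ν v := fun v => (norm_nonneg v).trans (hlow v)
  set K1 : ℝ := (1 - σ)⁻¹ ^ r * Λ ^ r * 2 ^ r with hK1
  have hK1pos : 0 < K1 := by positivity
  set K2 : ℝ := 3 * K1 * 2 ^ r with hK2
  have hK2pos : 0 < K2 := by positivity
  set κ : ℝ := min (1 / 2) (min (1 / (2 * K2)) (θ * (1 - σ) / (2 * K2 * Λ ^ r))) with hκ
  have hκpos : 0 < κ := by positivity
  have hκ1 : κ ≤ 1 / 2 := min_le_left _ _
  have hκ2 : κ ≤ 1 / (2 * K2) := (min_le_right _ _).trans (min_le_left _ _)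
  have hκ3 : κ ≤ θ * (1 - σ) / (2 * K2 * Λ ^ r) := (min_le_right _ _).trans (min_le_right _ _)
  refine ⟨κ, hκpos, ?_⟩
  intro P T α β hPP hα hβ hαβ H1 H2 H3 x hx M
  -- notation
  set a : ℕ → X := fun m => P ((T ^ m) x) with ha
  set b : ℕ → X := fun m => (T ^ m) x - P ((T ^ m) x) with hb
  set d : ℕ → X := fun m => P ((T ^ m) x) - (S ^ m) x with hd
  set w : ℕ → X := fun m => (P (T (a m)) - S (a m)) + P (T (b m)) with hw
  set Δ : ℕ → ℝ := fun m => ‖b m‖ ^ r - ‖T (b m) - P (T (b m))‖ ^ r with hΔ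
  have hPa : ∀ m, P (a m) = a m := fun m => hPP _
  have hPb : ∀ m, P (b m) = 0 := fun m => by simp only [hb, map_sub, hPP, sub_self]
  have hΔ0 : ∀ m, 0 ≤ Δ m := fun m => by
    have := H2 0 (b m) (map_zero P) (hPb m)
    simp only [zero_add, norm_zero, zero_rpow hr0, mul_zero] at this
    simp only [hΔ]; linarith
  have hdrec : ∀ m, d (m + 1) = S (d m) + w m := fun m => by
    have e1 : (T ^ (m + 1)) x = T (a m) + T (b m) := by
      rw [pow_succ', ← map_add]; simp only [ha, hb, add_sub_cancel]; rfl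
    have e2 : (S ^ (m + 1)) x = S ((S ^ m) x) := by rw [pow_succ']; rfl
    simp only [hd, hw, e1, e2, map_add, map_sub, ha]; abel
  have C1 : ∀ M, ∑ m ∈ range M, Δ m ≤ (2 * α) ^ r * ∑ m ∈ range M, ‖a m‖ ^ r := fun M => by
    have := gain_defect hr P T α hα hPP H2 x hx M
    have h2 : 0 ≤ ‖(T ^ M) x - P ((T ^ M) x)‖ ^ r := by positivity
    simp only [hΔ, ha, hb]; linarith
  have C2 : ∀ m, ‖w m‖ ^ r ≤ 2 ^ r * (κ ^ r * ‖a m‖ ^ r + β ^ r * Δ m) := fun m => by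
    have h1 : ‖w m‖ ≤ κ * ‖a m‖ + ‖P (T (b m))‖ :=
      (norm_add_le _ _).trans (add_le_add (H1 _ (hPa m)) le_rfl)
    have h2 : ‖w m‖ ^ r ≤ (κ * ‖a m‖ + ‖P (T (b m))‖) ^ r := rpow_le_rpow (norm_nonneg _) h1 hr0'
    have h3 := add_rpow_le_two hr0' (x := κ * ‖a m‖) (y := ‖P (T (b m))‖) (by positivity)
      (norm_nonneg _)
    rw [mul_rpow hκpos.le (norm_nonneg _)] at h3
    have h4 := H3 _ (hPb m)
    have h5 : (0 : ℝ) ≤ 2 ^ r := by positivity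
    calc ‖w m‖ ^ r ≤ 2 ^ r * (κ ^ r * ‖a m‖ ^ r + ‖P (T (b m))‖ ^ r) := h2.trans h3
      _ ≤ _ := mul_le_mul_of_nonneg_left (add_le_add le_rfl h4) h5
  have C3 : ∀ M, (1 - σ) * ∑ m ∈ range M, ν (d m) ^ r + ν (d M) ^ r ≤
      (1 - σ) * ((1 - σ)⁻¹ ^ r * Λ ^ r * ∑ m ∈ range M, ‖w m‖ ^ r) := fun M => by
    induction M with
    | zero =>
      have h0 : d 0 = 0 := by simp [hd, hx]
      have h1 : ν 0 = 0 := le_antisymm (by simpa using hup 0) (hν0 0)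
      simp [h0, h1, zero_rpow hr0]
    | succ M ih =>
      rw [sum_range_succ, sum_range_succ]
      have h1 : ν (d (M + 1)) ≤ σ * ν (d M) + Λ * ‖w M‖ := by
        rw [hdrec]; exact (hadd _ _).trans (add_le_add (hcon _) (hup _))
      have h2 : ν (d (M + 1)) ^ r ≤ (σ * ν (d M) + Λ * ‖w M‖) ^ r := rpow_le_rpow (hν0 _) h1 hr0'
      have h3 := rpow_stable hr hσ0 hσ1 (hν0 (d M)) (y := Λ * ‖w M‖) (by positivity)
      rw [mul_rpow hΛ.le (norm_nonneg _)] at h3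
      nlinarith
  have C4 : ∀ M, (1 - σ) * ∑ m ∈ range M, ν ((S ^ m) x) ^ r + ν ((S ^ M) x) ^ r ≤ ν x ^ r :=
    fun M => by
    induction M with
    | zero => simp
    | succ M ih =>
      rw [sum_range_succ]
      have e2 : (S ^ (M + 1)) x = S ((S ^ M) x) := by rw [pow_succ']; rfl
      have h1 : ν ((S ^ (M + 1)) x) ^ r ≤ (σ * ν ((S ^ M) x)) ^ r := by
        rw [e2]; exact rpow_le_rpow (hν0 _) (hcon _) hr0'
      rw [mul_rpow hσ0 (hν0 _)] at h1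
      have h2 : σ ^ r ≤ σ := by
        rcases hσ0.eq_or_lt with h | h
        · rw [← h, zero_rpow hr0]
        · calc σ ^ r ≤ σ ^ (1 : ℝ) := rpow_le_rpow_of_exponent_ge h hσ1.le hr
            _ = σ := rpow_one σ
      have h3 : 0 ≤ ν ((S ^ M) x) ^ r := rpow_nonneg (hν0 _) r
      nlinarith
  set Sd := ∑ m ∈ range M, ‖d m‖ ^ r with hSd
  set Sa := ∑ m ∈ range M, ‖a m‖ ^ r with hSa
  set Sw := ∑ m ∈ range M, ‖w m‖ ^ r with hSw
  set S0 := ∑ m ∈ range M, ‖(S ^ m) x‖ ^ r with hS0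
  have hSd0 : 0 ≤ Sd := sum_nonneg fun _ _ => by positivity
  have hSa0 : 0 ≤ Sa := sum_nonneg fun _ _ => by positivity
  have hS00 : 0 ≤ S0 := sum_nonneg fun _ _ => by positivity
  have D1 : Sd ≤ (1 - σ)⁻¹ ^ r * Λ ^ r * Sw := by
    have h1 : Sd ≤ ∑ m ∈ range M, ν (d m) ^ r :=
      sum_le_sum fun m _ => rpow_le_rpow (norm_nonneg _) (hlow _) hr0'
    have h2 := C3 M
    have h3 : 0 ≤ ν (d M) ^ r := rpow_nonneg (hν0 _) r
    have h4 : (1 - σ) * ∑ m ∈ range M, ν (d m) ^ r ≤ (1 - σ) * ((1 - σ)⁻¹ ^ r * Λ ^ r * Sw) := by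
      linarith
    exact h1.trans (le_of_mul_le_mul_left h4 h1σ)
  have hpow1 : κ ^ r ≤ κ := by
    calc κ ^ r ≤ κ ^ (1 : ℝ) := rpow_le_rpow_of_exponent_ge hκpos (by linarith) hr
      _ = κ := rpow_one κ
  have hpow2 : β ^ r * (2 * α) ^ r ≤ 2 * κ := by
    rw [← mul_rpow hβ (by positivity)]
    calc (β * (2 * α)) ^ r ≤ (2 * κ) ^ r := rpow_le_rpow (by positivity) (by nlinarith) hr0'
      _ ≤ (2 * κ) ^ (1 : ℝ) := rpow_le_rpow_of_exponent_ge (by positivity) (by linarith) hr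
      _ = 2 * κ := rpow_one _
  have D2 : Sw ≤ 2 ^ r * (3 * κ * Sa) := by
    have h1 : Sw ≤ ∑ m ∈ range M, 2 ^ r * (κ ^ r * ‖a m‖ ^ r + β ^ r * Δ m) :=
      sum_le_sum fun m _ => C2 m
    rw [← mul_sum, sum_add_distrib, ← mul_sum, ← mul_sum] at h1
    have h2 : β ^ r * ∑ m ∈ range M, Δ m ≤ β ^ r * ((2 * α) ^ r * Sa) :=
      mul_le_mul_of_nonneg_left (C1 M) (by positivity)
    have h3 : β ^ r * ((2 * α) ^ r * Sa) ≤ 2 * κ * Sa := by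
      rw [← mul_assoc]; exact mul_le_mul_of_nonneg_right hpow2 hSa0
    have h4 : κ ^ r * Sa ≤ κ * Sa := mul_le_mul_of_nonneg_right hpow1 hSa0
    refine h1.trans (mul_le_mul_of_nonneg_left ?_ (by positivity))
    linarith
  have D3 : Sa ≤ 2 ^ r * (Sd + S0) := by
    rw [hSd, hS0, ← sum_add_distrib, mul_sum]
    refine sum_le_sum fun m _ => ?_
    have h1 : ‖a m‖ ≤ ‖d m‖ + ‖(S ^ m) x‖ := by
      have : a m = d m + (S ^ m) x := by simp [ha, hd]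
      rw [this]; exact norm_add_le _ _
    exact (rpow_le_rpow (norm_nonneg _) h1 hr0').trans
      (add_rpow_le_two hr0' (norm_nonneg _) (norm_nonneg _))
  have D4 : (1 - σ) * S0 ≤ Λ ^ r * ‖x‖ ^ r := by
    have h1 : S0 ≤ ∑ m ∈ range M, ν ((S ^ m) x) ^ r :=
      sum_le_sum fun m _ => rpow_le_rpow (norm_nonneg _) (hlow _) hr0'
    have h2 := C4 M
    have h3 : 0 ≤ ν ((S ^ M) x) ^ r := rpow_nonneg (hν0 _) r
    have h4 : ν x ^ r ≤ Λ ^ r * ‖x‖ ^ r := by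
      rw [← mul_rpow hΛ.le (norm_nonneg _)]; exact rpow_le_rpow (hν0 _) (hup x) hr0'
    have h5 := mul_le_mul_of_nonneg_left h1 h1σ.le
    linarith
  have D5 : Sd ≤ K2 * κ * (Sd + S0) := by
    calc Sd ≤ (1 - σ)⁻¹ ^ r * Λ ^ r * Sw := D1
      _ ≤ (1 - σ)⁻¹ ^ r * Λ ^ r * (2 ^ r * (3 * κ * Sa)) :=
        mul_le_mul_of_nonneg_left D2 (by positivity)
      _ = 3 * K1 * κ * Sa := by rw [hK1]; ring
      _ ≤ 3 * K1 * κ * (2 ^ r * (Sd + S0)) := mul_le_mul_of_nonneg_left D3 (by positivity)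
      _ = K2 * κ * (Sd + S0) := by rw [hK2]; ring
  have E1 : K2 * κ ≤ 1 / 2 := by
    rw [le_div_iff₀ (by positivity)] at hκ2; linarith
  have E2 : 2 * (K2 * κ) * Λ ^ r ≤ θ * (1 - σ) := by
    rw [le_div_iff₀ (by positivity)] at hκ3; linarith
  have D6 : Sd ≤ 2 * (K2 * κ) * S0 := by nlinarith
  have D7 : (1 - σ) * Sd ≤ (1 - σ) * (θ * ‖x‖ ^ r) := by
    have hx0 : 0 ≤ ‖x‖ ^ r := by positivity
    calc (1 - σ) * Sd ≤ (1 - σ) * (2 * (K2 * κ) * S0) := mul_le_mul_of_nonneg_left D6 h1σ.le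
      _ = 2 * (K2 * κ) * ((1 - σ) * S0) := by ring
      _ ≤ 2 * (K2 * κ) * (Λ ^ r * ‖x‖ ^ r) := mul_le_mul_of_nonneg_left D4 (by positivity)
      _ = (2 * (K2 * κ) * Λ ^ r) * ‖x‖ ^ r := by ring
      _ ≤ (θ * (1 - σ)) * ‖x‖ ^ r := mul_le_mul_of_nonneg_right E2 hx0
      _ = _ := by ring
  exact le_of_mul_le_mul_left D7 h1σ

end Pool.Agent.P.MP_f981b0_an
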