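import Mathlib
import Pool.Agent.P.MP_f981b0_an.Basic
import Pool.Agent.P.MP_f981b0_an.Gain

set_option autoImplicit false

noncomputable section

namespace Pool.Agent.P.MP_f981b0_an

open Real Finset Filter Topology
open scoped ENNReal

variable {p : ℝ≥0∞} [Fact (1 ≤ p)]

lemma contr_rpow (hp : p ≠ ⊤) {T : X p →L[ℂ] X p} (hT : ‖T‖ ≤ 1) (v : X p) :
    ‖T v‖ ^ p.toReal ≤ ‖v‖ ^ p.toReal := by
  refine rpow_le_rpow (norm_nonneg _) ?_ (r_pos hp).le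
  calc ‖T v‖ ≤ ‖T‖ * ‖v‖ := T.le_opNorm v
    _ ≤ 1 * ‖v‖ := mul_le_mul_of_nonneg_right hT (norm_nonneg _)
    _ = ‖v‖ := one_mul _

lemma contr_split (hp : p ≠ ⊤) {T : X p →L[ℂ] X p} (hT : ‖T‖ ≤ 1) (n : ℕ) (v : X p) :
    ‖P p n (T v)‖ ^ p.toReal + ‖T v - P p n (T v)‖ ^ p.toReal ≤ ‖v‖ ^ p.toReal := by
  rw [norm_P_rpow hp]; exact contr_rpow hp hT v

lemma norm_P_self_rpow (hp : p ≠ ⊤) {n : ℕ} {c : X p} (hc : P p n c = c) :
    ‖c‖ ^ p.toReal = ∑ i ∈ range n, ‖c i‖ ^ p.toReal := by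
  conv_lhs => rw [← hc, P_eq_sum]
  exact norm_sum_e_rpow hp _ _

lemma norm_real_smul_rpow {t : ℝ} (ht : 0 ≤ t) (v : X p) (r : ℝ) :
    ‖(t : ℂ) • v‖ ^ r = t ^ r * ‖v‖ ^ r := by
  rw [norm_smul, Complex.norm_real, Real.norm_of_nonneg ht, mul_rpow ht (norm_nonneg _)]

/-- Splitting of a symmetric pair of vectors under a contraction. -/
lemma pair_split (hp : p ≠ ⊤) {T : X p →L[ℂ] X p} (hT : ‖T‖ ≤ 1) (n : ℕ) (u c : X p) :
    ‖P p n (T u) + P p n (T c)‖ ^ p.toReal + ‖P p n (T u) - P p n (T c)‖ ^ p.toReal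
      + 2 * ‖T c - P p n (T c)‖ ^ p.toReal ≤ ‖u + c‖ ^ p.toReal + ‖u - c‖ ^ p.toReal := by
  have h1 := contr_split hp hT n (u + c)
  have h2 := contr_split hp hT n (u - c)
  have h3 := two_mul_norm_rpow_le (E := X p) (one_le_r hp) (T c - P p n (T c)) (T u - P p n (T u))
  have e1 : T c - P p n (T c) + (T u - P p n (T u)) = T (u + c) - P p n (T (u + c)) := by
    simp only [map_add]; abel
  have e2 : T c - P p n (T c) - (T u - P p n (T u)) = -(T (u - c) - P p n (T (u - c))) := by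
    simp only [map_sub]; abel
  rw [e1, e2, norm_neg] at h3
  rw [map_add, map_add] at h1
  rw [map_sub, map_sub] at h2
  rw [map_add, map_add, map_sub, map_sub] at h3
  linarith

lemma row_est (hp : p ≠ ⊤) (hr : 2 < p.toReal) (n : ℕ) {μ β : ℝ} (hμ : 0 < μ) (hβ : 0 < β) :
    ∃ ζ > 0, ∀ T : X p →L[ℂ] X p, ‖T‖ ≤ 1 → ∀ z, P p n z = z → (∀ i < n, μ ≤ ‖(T z) i‖) →
      ‖z‖ ^ p.toReal - ‖P p n (T z)‖ ^ p.toReal ≤ ζ → ∀ b, P p n b = 0 →
      ‖P p n (T b)‖ ^ p.toReal ≤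
        β ^ p.toReal * (‖b‖ ^ p.toReal - ‖T b - P p n (T b)‖ ^ p.toReal) := by
  set r := p.toReal with hrdef
  have hr0 : 0 < r := by linarith
  set β' : ℝ := β / (n + 1) with hβ'
  have hβ'0 : 0 < β' := by positivity
  set A : ℝ := r * μ ^ (r - 2) with hA
  have hA0 : 0 < A := by positivity
  set W : ℝ := 4 / (A * β' ^ 2) with hW
  have hW0 : 0 < W := by positivity
  set L : ℝ := W ^ (r - 2)⁻¹ with hL
  have hL0 : 0 < L := by positivity
  have hLW : L ^ (r - 2) = W := rpow_inv_rpow hW0.le (by linarith)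
  refine ⟨A * β' ^ 2 / (4 * L ^ 2), by positivity, ?_⟩
  intro T hT z hz hzμ hζ b hb
  set Δ : ℝ := ‖b‖ ^ r - ‖T b - P p n (T b)‖ ^ r with hΔ
  have hcΔ : ‖P p n (T b)‖ ^ r ≤ Δ := by
    have := contr_split hp hT n b
    rw [hΔ]; linarith
  have hΔ0 : 0 ≤ Δ := le_trans (by positivity) hcΔ
  rcases hΔ0.eq_or_lt with h0 | hΔpos
  · rw [← h0] at hcΔ ⊢; simpa using hcΔ
  set D : ℝ := Δ ^ r⁻¹ with hD
  have hD0 : 0 < D := by positivity
  have hDr : D ^ r = Δ := rpow_inv_rpow hΔ0 hr0.ne'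
  set G : ℝ := D ^ (r - 2) with hG
  have hG0 : 0 < G := by positivity
  have hGD : G * D ^ 2 = Δ := by rw [hG, rpow_sub_two_mul hD0, hDr]
  set t : ℝ := L * D with ht
  have ht0 : 0 < t := by positivity
  have ht2 : t ^ (r - 2) = W * G := by rw [ht, mul_rpow hL0.le hD0.le, hLW]
  have htr : t ^ r = W * L ^ 2 * Δ := by
    rw [ht, mul_rpow hL0.le hD0.le, hDr, ← rpow_sub_two_mul hL0 r, hLW]
  have key : ∀ i < n, ‖(P p n (T b)) i‖ ^ r ≤ β' ^ r * Δ := by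
    intro i hi
    set c := P p n (T b) with hc
    have h1 := pair_split hp hT n ((t : ℂ) • z) b
    have hz' : P p n ((t : ℂ) • z) = (t : ℂ) • z := by rw [map_smul, hz]
    rw [norm_add_rpow_P hp hz' hb, sub_eq_add_neg ((t : ℂ) • z) b,
      norm_add_rpow_P hp hz' (by rw [map_neg, hb, neg_zero]), norm_neg,
      norm_real_smul_rpow ht0.le, map_smul, map_smul] at h1
    have h2 := pair_lower hp ((t : ℂ) • P p n (T z)) c i
    have hui : ((t : ℂ) • P p n (T z)) i = (t : ℂ) * (T z) i := by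
      rw [smul_coord, P_coord, if_pos hi]
    have hTzi := hzμ i hi
    have hne : (t : ℂ) * (T z) i ≠ 0 := by
      refine mul_ne_zero (by exact_mod_cast ht0.ne') ?_
      intro h; rw [h, norm_zero] at hTzi; linarith
    have h3 := complex_lower hr.le hne (c i)
    rw [hui, norm_real_smul_rpow ht0.le] at h2
    have h4 : t ^ (r - 2) * μ ^ (r - 2) ≤ ‖(t : ℂ) * (T z) i‖ ^ (r - 2) := by
      rw [← mul_rpow ht0.le hμ.le]
      refine rpow_le_rpow (by positivity) ?_ (by linarith)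
      rw [norm_mul, Complex.norm_real, Real.norm_of_nonneg ht0.le]
      exact mul_le_mul_of_nonneg_left hTzi ht0.le
    have h5 : r * (t ^ (r - 2) * μ ^ (r - 2)) * ‖c i‖ ^ 2 ≤
        r * ‖(t : ℂ) * (T z) i‖ ^ (r - 2) * ‖c i‖ ^ 2 :=
      mul_le_mul_of_nonneg_right (mul_le_mul_of_nonneg_left h4 hr0.le) (by positivity)
    have h6 : t ^ r * (‖z‖ ^ r - ‖P p n (T z)‖ ^ r) ≤ t ^ r * (A * β' ^ 2 / (4 * L ^ 2)) :=
      mul_le_mul_of_nonneg_left hζ (by positivity)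
    have h7 : t ^ r * (A * β' ^ 2 / (4 * L ^ 2)) = Δ := by
      rw [htr, hW]; field_simp
    have h8 : r * (t ^ (r - 2) * μ ^ (r - 2)) * ‖c i‖ ^ 2 = 4 * G * ‖c i‖ ^ 2 / β' ^ 2 := by
      have : r * (t ^ (r - 2) * μ ^ (r - 2)) = A * W * G := by rw [ht2, hA]; ring
      rw [this, hW]; field_simp
    have h9 : 4 * G * ‖c i‖ ^ 2 / β' ^ 2 ≤ 4 * Δ := by
      rw [← h8]; rw [← hrdef] at h1 h2; linarith
    have h10 : ‖c i‖ ^ 2 ≤ (β' * D) ^ 2 := by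
      rw [div_le_iff₀ (by positivity), ← hGD] at h9
      have : G * ‖c i‖ ^ 2 ≤ G * (β' * D) ^ 2 := by nlinarith
      exact le_of_mul_le_mul_left this hG0
    have h11 : ‖c i‖ ≤ β' * D := by
      exact (pow_le_pow_iff_left₀ (norm_nonneg _) (by positivity) two_ne_zero).1 h10
    calc ‖c i‖ ^ r ≤ (β' * D) ^ r := rpow_le_rpow (norm_nonneg _) h11 hr0.le
      _ = β' ^ r * Δ := by rw [mul_rpow hβ'0.le hD0.le, hDr]
  rw [norm_P_self_rpow hp (P_P n (T b))]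
  calc ∑ i ∈ range n, ‖(P p n (T b)) i‖ ^ r ≤ ∑ _i ∈ range n, β' ^ r * Δ :=
        sum_le_sum fun i hi => key i (mem_range.1 hi)
    _ = (n * β' ^ r) * Δ := by simp; ring
    _ ≤ β ^ r * Δ := by
      refine mul_le_mul_of_nonneg_right ?_ hΔ0
      have h1 : β = (n + 1) * β' := by rw [hβ']; field_simp
      have h2 : ((n : ℝ) + 1) ≤ ((n : ℝ) + 1) ^ r := by
        calc ((n : ℝ) + 1) = ((n : ℝ) + 1) ^ (1 : ℝ) := (rpow_one _).symm
          _ ≤ _ := rpow_le_rpow_of_exponent_le (by linarith [Nat.cast_nonneg (α := ℝ) n])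
            (by linarith)
      conv_rhs => rw [h1, mul_rpow (by positivity) hβ'0.le]
      exact mul_le_mul_of_nonneg_right (by linarith) (by positivity)

lemma col_est (hp : p ≠ ⊤) (hr : p.toReal < 2) (n : ℕ) {μ α : ℝ} (hμ : 0 < μ) (hα : 0 < α) :
    ∃ ζ > 0, ∀ T : X p →L[ℂ] X p, ‖T‖ ≤ 1 → ∀ z, P p n z = z → (∀ i < n, μ ≤ ‖z i‖) →
      ‖z‖ ^ p.toReal - ‖P p n (T z)‖ ^ p.toReal ≤ ζ → ∀ a b, P p n a = a → P p n b = 0 →
      ‖T (a + b) - P p n (T (a + b))‖ ^ p.toReal ≤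
        α ^ p.toReal * ‖a‖ ^ p.toReal + ‖b‖ ^ p.toReal := by
  set r := p.toReal with hrdef
  have hr0 : 0 < r := r_pos hp
  set W : ℝ := α ^ r / ((n + 1) * r * μ ^ (r - 2)) with hW
  have hW0 : 0 < W := by positivity
  set L : ℝ := W ^ (r - 2)⁻¹ with hL
  have hL0 : 0 < L := by positivity
  have hLW : L ^ (r - 2) = W := rpow_inv_rpow hW0.le (by linarith)
  refine ⟨α ^ r / (2 * L ^ r), by positivity, ?_⟩
  intro T hT z hz hzμ hζ a b ha hb
  rcases eq_or_ne a 0 with rfl | ha0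
  · have := contr_split hp hT n b
    have h2 : 0 ≤ ‖P p n (T b)‖ ^ p.toReal := by positivity
    simp only [zero_add, norm_zero, zero_rpow hr0.ne', mul_zero]
    linarith
  have ha1 : 0 < ‖a‖ := norm_pos_iff.2 ha0
  set t : ℝ := L * ‖a‖ with ht
  have ht0 : 0 < t := by positivity
  have h1 := pair_split hp hT n ((t : ℂ) • z) (a + b)
  have hz' : P p n ((t : ℂ) • z) = (t : ℂ) • z := by rw [map_smul, hz]
  have e1 : ‖(t : ℂ) • z + (a + b)‖ ^ r = ‖(t : ℂ) • z + a‖ ^ r + ‖b‖ ^ r := by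
    rw [← add_assoc]; exact norm_add_rpow_P hp (by rw [map_add, hz', ha]) hb
  have e2 : ‖(t : ℂ) • z - (a + b)‖ ^ r = ‖(t : ℂ) • z - a‖ ^ r + ‖b‖ ^ r := by
    rw [← sub_sub, sub_eq_add_neg _ b,
      norm_add_rpow_P hp (by rw [map_sub, hz', ha]) (by rw [map_neg, hb, neg_zero]), norm_neg]
  have h2 := two_mul_norm_rpow_le (E := X p) (one_le_r hp) (P p n (T ((t : ℂ) • z)))
    (P p n (T (a + b)))
  have e3 : ‖P p n (T ((t : ℂ) • z))‖ ^ r = t ^ r * ‖P p n (T z)‖ ^ r := by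
    rw [map_smul, map_smul, norm_real_smul_rpow ht0.le]
  have h3 := pair_eq hp ((t : ℂ) • z) ha
  rw [norm_real_smul_rpow ht0.le] at h3
  have h4 : ∑ i ∈ range n, (‖((t : ℂ) • z) i + a i‖ ^ r + ‖((t : ℂ) • z) i - a i‖ ^ r
      - 2 * ‖((t : ℂ) • z) i‖ ^ r) ≤ ∑ _i ∈ range n, r * (W * μ ^ (r - 2) * ‖a‖ ^ r) := by
    refine sum_le_sum fun i hi => ?_
    have hzi := hzμ i (mem_range.1 hi)
    have hn : ‖((t : ℂ) • z) i‖ = t * ‖z i‖ := by
      rw [smul_coord, norm_mul, Complex.norm_real, Real.norm_of_nonneg ht0.le]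
    have hne : ((t : ℂ) • z) i ≠ 0 := by
      rw [← norm_pos_iff, hn]; exact mul_pos ht0 (by linarith)
    have h5 := complex_upper hr0.le hr.le hne (a i)
    have h6 : ‖((t : ℂ) • z) i‖ ^ (r - 2) ≤ (t * μ) ^ (r - 2) := by
      rw [hn]
      exact rpow_le_rpow_of_nonpos (by positivity) (mul_le_mul_of_nonneg_left hzi ht0.le)
        (by linarith)
    have h7 : ‖a i‖ ^ 2 ≤ ‖a‖ ^ 2 := pow_le_pow_left₀ (norm_nonneg _) (norm_apply_le a i) 2
    have h8 : (t * μ) ^ (r - 2) * ‖a‖ ^ 2 = W * μ ^ (r - 2) * ‖a‖ ^ r := by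
      rw [mul_rpow ht0.le hμ.le, ht, mul_rpow hL0.le ha1.le, hLW, ← rpow_sub_two_mul ha1 r]; ring
    have h9 : ‖((t : ℂ) • z) i‖ ^ (r - 2) * ‖a i‖ ^ 2 ≤ (t * μ) ^ (r - 2) * ‖a‖ ^ 2 :=
      mul_le_mul h6 h7 (by positivity) (by positivity)
    have h10 := mul_le_mul_of_nonneg_left (h9.trans h8.le) hr0.le
    linarith
  have h5 : ∑ _i ∈ range n, r * (W * μ ^ (r - 2) * ‖a‖ ^ r) ≤ α ^ r * ‖a‖ ^ r := by
    rw [sum_const, card_range, nsmul_eq_mul]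
    have : α ^ r = (n + 1) * r * μ ^ (r - 2) * W := by rw [hW]; field_simp
    rw [this]
    have h6 : 0 ≤ r * (W * μ ^ (r - 2) * ‖a‖ ^ r) := by positivity
    nlinarith
  have h6 : t ^ r * (‖z‖ ^ r - ‖P p n (T z)‖ ^ r) ≤ t ^ r * (α ^ r / (2 * L ^ r)) :=
    mul_le_mul_of_nonneg_left hζ (by positivity)
  have h7 : t ^ r * (α ^ r / (2 * L ^ r)) = α ^ r * ‖a‖ ^ r / 2 := by
    rw [ht, mul_rpow hL0.le ha1.le]; field_simp
  rw [← hrdef] at h1 h2 h3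
  rw [e1, e2] at h1
  rw [e3] at h2
  linarith

/-- Finite matrices that cannot be closed into a feedback loop. -/
def Rigid (S : X p →L[ℂ] X p) (n : ℕ) : Prop :=
  Stable S ∧ ∃ z, P p n z = z ∧ P p n (S z) = S z ∧ ‖S z‖ = ‖z‖ ∧
    ((2 < p.toReal ∧ ∀ i < n, (S z) i ≠ 0) ∨ (p.toReal < 2 ∧ ∀ i < n, z i ≠ 0))

lemma exists_lower (v : ℕ → ℂ) (n : ℕ) (h : ∀ i < n, v i ≠ 0) :
    ∃ μ > 0, ∀ i < n, μ ≤ ‖v i‖ := by
  induction n with
  | zero => exact ⟨1, one_pos, fun i hi => absurd hi (Nat.not_lt_zero i)⟩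
  | succ n ih =>
    obtain ⟨μ, hμ, h1⟩ := ih fun i hi => h i (by omega)
    refine ⟨min μ ‖v n‖, lt_min hμ (norm_pos_iff.2 (h n (by omega))), fun i hi => ?_⟩
    rcases Nat.lt_succ_iff_lt_or_eq.1 hi with h2 | rfl
    · exact (min_le_left _ _).trans (h1 i h2)
    · exact min_le_right _ _

lemma robust (hp : p ≠ ⊤) {S : X p →L[ℂ] X p} {n : ℕ} (hS : Rigid S n) {θ : ℝ} (hθ : 0 < θ) :
    ∃ ε > 0, ∀ T : X p →L[ℂ] X p, ‖T‖ ≤ 1 →
      (∀ a, P p n a = a → ‖P p n (T a) - S a‖ ≤ ε * ‖a‖) →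
      ∀ x, P p n x = x → ∀ M,
        ∑ m ∈ range M, ‖P p n ((T ^ m) x) - (S ^ m) x‖ ^ p.toReal ≤ θ * ‖x‖ ^ p.toReal := by
  obtain ⟨hst, z, hz, hSz, hnorm, hcase⟩ := hS
  obtain ⟨κ, hκ, hgain⟩ := gain (one_le_r hp) S hst hθ
  have hr0 := r_pos hp
  have hcont : ∀ ζ > 0, ∃ δ > 0, ∀ y : X p, ‖y - S z‖ ≤ δ →
      ‖z‖ ^ p.toReal - ‖y‖ ^ p.toReal ≤ ζ := by
    intro ζ hζ
    have hc : Continuous fun y : X p => ‖y‖ ^ p.toReal :=
      continuous_norm.rpow_const fun _ => Or.inr hr0.le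
    obtain ⟨δ, hδ, h⟩ := Metric.continuousAt_iff.1 (hc.continuousAt (x := S z)) ζ hζ
    refine ⟨δ / 2, by positivity, fun y hy => ?_⟩
    have h1 := h (x := y) (by rw [dist_eq_norm]; linarith)
    rw [Real.dist_eq, hnorm, abs_lt] at h1
    linarith [h1.1]
  have hz1 : 0 < ‖z‖ + 1 := by positivity
  have hsmall : ∀ {ε δ : ℝ}, 0 < δ → ε ≤ δ / (‖z‖ + 1) → ε * ‖z‖ ≤ δ := by
    intro ε δ hδ h
    calc ε * ‖z‖ ≤ δ / (‖z‖ + 1) * ‖z‖ := mul_le_mul_of_nonneg_right h (norm_nonneg _)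
      _ ≤ δ / (‖z‖ + 1) * (‖z‖ + 1) := mul_le_mul_of_nonneg_left (by linarith) (by positivity)
      _ = δ := by field_simp
  rcases hcase with ⟨hr, hfull⟩ | ⟨hr, hfull⟩
  · obtain ⟨μ, hμ, hμ'⟩ := exists_lower (S z) n hfull
    obtain ⟨ζ, hζ, hrow⟩ := row_est hp hr n (μ := μ / 2) (by positivity) hκ
    obtain ⟨δ, hδ, hδ'⟩ := hcont ζ hζ
    refine ⟨min κ (min (μ / 2 / (‖z‖ + 1)) (δ / (‖z‖ + 1))), by positivity, fun T hT hTS => ?_⟩
    have hTz := hTS z hz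
    refine hgain (P p n) T 1 κ (P_P n) zero_le_one hκ.le (by rw [one_mul]) (fun a ha => ?_)
      (fun a b ha hb => ?_) (hrow T hT z hz (fun i hi => ?_) (hδ' _ ?_))
    · exact (hTS a ha).trans (mul_le_mul_of_nonneg_right (min_le_left _ _) (norm_nonneg _))
    · have h1 := contr_split hp hT n (a + b)
      rw [norm_add_rpow_P hp ha hb] at h1
      have h2 : 0 ≤ ‖P p n (T (a + b))‖ ^ p.toReal := by positivity
      rw [one_rpow, one_mul]; linarith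
    · have h1 : ‖P p n (T z) - S z‖ ≤ μ / 2 :=
        hTz.trans (hsmall (by positivity) ((min_le_right _ _).trans (min_le_left _ _)))
      have h2 := (norm_apply_le (P p n (T z) - S z) i).trans h1
      rw [sub_coord, P_coord, if_pos hi] at h2
      have h3 := hμ' i hi
      have h4 : ‖(S z) i‖ ≤ ‖(T z) i‖ + ‖(T z) i - (S z) i‖ := by
        calc ‖(S z) i‖ = ‖(T z) i - ((T z) i - (S z) i)‖ := by congr 1; ring
          _ ≤ _ := norm_sub_le _ _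
      linarith
    · exact hTz.trans (hsmall hδ ((min_le_right _ _).trans (min_le_right _ _)))
  · obtain ⟨μ, hμ, hμ'⟩ := exists_lower z n hfull
    obtain ⟨ζ, hζ, hcol⟩ := col_est hp hr n hμ hκ
    obtain ⟨δ, hδ, hδ'⟩ := hcont ζ hζ
    refine ⟨min κ (δ / (‖z‖ + 1)), by positivity, fun T hT hTS => ?_⟩
    have hTz := hTS z hz
    refine hgain (P p n) T κ 1 (P_P n) hκ.le zero_le_one (by rw [mul_one]) (fun a ha => ?_)
      (hcol T hT z hz hμ' (hδ' _ ?_)) (fun b _ => ?_)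
    · exact (hTS a ha).trans (mul_le_mul_of_nonneg_right (min_le_left _ _) (norm_nonneg _))
    · exact hTz.trans (hsmall hδ (min_le_right _ _))
    · have h1 := contr_split hp hT n b
      rw [one_rpow, one_mul]; linarith

end Pool.Agent.P.MP_f981b0_an
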