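import Mathlib
import Pool.Agent.P.MP_f981b0_an.Rigid

set_option autoImplicit false

noncomputable section

namespace Pool.Agent.P.MP_f981b0_an

open Real Finset Filter Topology
open scoped ENNReal ComplexOrder

variable {p : ℝ≥0∞} [Fact (1 ≤ p)]

/-- The operator is given by an `N × N` matrix. -/
def Supp (N : ℕ) (A : X p →L[ℂ] X p) : Prop :=
  ∀ v, P p N (A v) = A v ∧ A (P p N v) = A v

/-- All matrix entries are nonnegative. -/
def IsPos (A : X p →L[ℂ] X p) : Prop := ∀ i j, 0 ≤ (A (e p j)) i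

lemma isCompact_ball (N : ℕ) (R : ℝ) : IsCompact {a : X p | P p N a = a ∧ ‖a‖ ≤ R} := by
  have hc : Continuous fun c : Fin N → ℂ => ∑ i : Fin N, c i • e p i := by fun_prop
  refine ((isCompact_closedBall (0 : Fin N → ℂ) (max R 0)).image hc).of_isClosed_subset ?_ ?_
  · exact (isClosed_eq (P p N).continuous continuous_id).inter
      (isClosed_le continuous_norm continuous_const)
  · rintro a ⟨ha, haR⟩
    refine ⟨fun i => a i, ?_, ?_⟩
    · rw [mem_closedBall_zero_iff, pi_norm_le_iff_of_nonneg (le_max_right _ _)]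
      exact fun i => (norm_apply_le a i).trans (haR.trans (le_max_left _ _))
    · conv_rhs => rw [← ha, P_eq_sum]
      exact Fin.sum_univ_eq_sum_range (fun i => a i • e p i) N

/-- A torus of finitely supported vectors. -/
def Tor (p : ℝ≥0∞) [Fact (1 ≤ p)] (N : ℕ) (c : ℝ) : Set (X p) :=
  {w | P p N w = w ∧ ∀ i < N, ‖w i‖ = c}

lemma norm_le_of_Tor {N : ℕ} {c : ℝ} {w : X p} (hw : w ∈ Tor p N c) : ‖w‖ ≤ N * c := by
  rw [← hw.1, P_eq_sum]
  refine (norm_sum_le _ _).trans (le_of_eq ?_)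
  rw [sum_congr rfl (g := fun _ => c) fun i hi => by
    rw [norm_smul, norm_e, mul_one, hw.2 i (mem_range.1 hi)]]
  simp

lemma isCompact_Tor (N : ℕ) (c : ℝ) : IsCompact (Tor p N c) := by
  refine (isCompact_ball N (N * c)).of_isClosed_subset ?_ fun w hw => ⟨hw.1, norm_le_of_Tor hw⟩
  refine (isClosed_eq (P p N).continuous continuous_id).inter ?_
  have : {w : X p | ∀ i < N, ‖w i‖ = c} = ⋂ i, ⋂ (_ : i < N), {w : X p | ‖ev p i w‖ = c} := by
    ext w; simp
  change IsClosed {w : X p | ∀ i < N, ‖w i‖ = c}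
  rw [this]
  exact isClosed_iInter fun i => isClosed_iInter fun _ =>
    isClosed_eq (ev p i).continuous.norm continuous_const

/-- The constant vector of length `N`. -/
def flat (p : ℝ≥0∞) (N : ℕ) (c : ℝ) : X p := ∑ i ∈ range N, (c : ℂ) • e p i

lemma flat_coord (N : ℕ) (c : ℝ) (i : ℕ) : flat p N c i = if i < N then (c : ℂ) else 0 := by
  rw [flat, sum_e_coord (c := fun _ => (c : ℂ))]; simp

lemma flat_mem {N : ℕ} {c : ℝ} (hc : 0 ≤ c) : flat p N c ∈ Tor p N c :=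
  ⟨P_eq_self_iff.2 fun i hi => by rw [flat_coord, if_neg (by omega)],
    fun i hi => by rw [flat_coord, if_pos hi, Complex.norm_of_nonneg hc]⟩

lemma flat_nonneg {N : ℕ} {c : ℝ} (hc : 0 ≤ c) (i : ℕ) : 0 ≤ flat p N c i := by
  rw [flat_coord]; split_ifs
  · exact Complex.zero_le_real.2 hc
  · exact le_rfl

lemma flip_mem {N : ℕ} {c : ℝ} {w : X p} (hw : w ∈ Tor p N c) {i : ℕ} (hi : i < N) :
    w + (-2 * w i) • e p i ∈ Tor p N c := by
  refine ⟨by rw [map_add, map_smul, hw.1, P_e hi], fun j hj => ?_⟩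
  rw [add_coord, smul_coord, e_apply]
  split_ifs with h
  · subst h
    rw [show w j + -2 * w j * 1 = -w j by ring, norm_neg, hw.2 j hj]
  · rw [mul_zero, add_zero, hw.2 j hj]

/-- Coordinatewise modulus of a finitely supported vector. -/
def absv (N : ℕ) (a : X p) : X p := ∑ i ∈ range N, ((‖a i‖ : ℝ) : ℂ) • e p i

lemma absv_coord {N : ℕ} {a : X p} (ha : P p N a = a) (i : ℕ) : absv N a i = (‖a i‖ : ℝ) := by
  rw [absv, sum_e_coord (c := fun i => ((‖a i‖ : ℝ) : ℂ))]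
  split_ifs with h
  · rfl
  · rw [P_eq_self_iff.1 ha i (by simpa using h)]; simp

lemma P_absv {N : ℕ} {a : X p} (ha : P p N a = a) : P p N (absv N a) = absv N a :=
  P_eq_self_iff.2 fun i hi => by rw [absv_coord ha, P_eq_self_iff.1 ha i hi]; simp

lemma norm_absv {N : ℕ} {a : X p} (ha : P p N a = a) : ‖absv N a‖ = ‖a‖ :=
  le_antisymm (lp.norm_mono p_pos.ne' fun i => by rw [absv_coord ha]; simp)
    (lp.norm_mono p_pos.ne' fun i => by rw [absv_coord ha]; simp)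

lemma apply_coord {N : ℕ} (A : X p →L[ℂ] X p) {a : X p} (ha : P p N a = a) (k : ℕ) :
    (A a) k = ∑ j ∈ range N, a j * (A (e p j)) k := by
  conv_lhs => rw [← ha, P_eq_sum, map_sum, sum_coord]
  simp

lemma pos_apply {N : ℕ} {A : X p →L[ℂ] X p} (hA : IsPos A) {b : X p} (hb : P p N b = b)
    (hb0 : ∀ i, 0 ≤ b i) (k : ℕ) : 0 ≤ (A b) k := by
  rw [apply_coord A hb]
  exact sum_nonneg fun j _ => mul_nonneg (hb0 j) (hA k j)

lemma norm_add_of_nonneg {x y : ℂ} (hx : 0 ≤ x) (hy : 0 ≤ y) : ‖x + y‖ = ‖x‖ + ‖y‖ := by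
  rw [Complex.eq_coe_norm_of_nonneg hx, Complex.eq_coe_norm_of_nonneg hy, ← Complex.ofReal_add,
    Complex.norm_of_nonneg (by positivity)]
  simp

lemma pos_mono {N : ℕ} {A : X p →L[ℂ] X p} (hA : IsPos A) {a b : X p} (ha : P p N a = a)
    (hb : P p N b = b) (hb0 : ∀ i, 0 ≤ b i) (hab : ∀ i, ‖a i‖ ≤ ‖b i‖) (k : ℕ) :
    ‖(A a) k‖ ≤ ‖(A b) k‖ := by
  rw [apply_coord A ha, apply_coord A hb]
  have h : ∑ j ∈ range N, b j * (A (e p j)) k =
      ((∑ j ∈ range N, ‖b j‖ * ‖(A (e p j)) k‖ : ℝ) : ℂ) := by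
    push_cast
    refine sum_congr rfl fun j _ => ?_
    rw [← Complex.eq_coe_norm_of_nonneg (hb0 j), ← Complex.eq_coe_norm_of_nonneg (hA k j)]
  rw [h, Complex.norm_of_nonneg (sum_nonneg fun j _ => by positivity)]
  refine (norm_sum_le _ _).trans (sum_le_sum fun j _ => ?_)
  rw [norm_mul]
  exact mul_le_mul_of_nonneg_right (hab j) (norm_nonneg _)

lemma max_upper (hp : p ≠ ⊤) {N : ℕ} {A : X p →L[ℂ] X p} (hA1 : ‖A‖ < 1) {ρ : ℝ}
    {W : Set (X p)} (hW : IsCompact W) (hWne : W.Nonempty) (hWρ : ∀ w ∈ W, ‖w‖ ≤ ρ) :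
    ∃ w0 ∈ W, ∃ a0, P p N a0 = a0 ∧ ‖a0‖ ≤ ρ / (1 - ‖A‖) ∧ ∀ w ∈ W, ∀ a, P p N a = a →
      ‖A a + w‖ ^ p.toReal - ‖a‖ ^ p.toReal ≤ ‖A a0 + w0‖ ^ p.toReal - ‖a0‖ ^ p.toReal := by
  have hr := r_pos hp
  have h1 : 0 < 1 - ‖A‖ := by linarith
  obtain ⟨w1, hw1⟩ := hWne
  have hρ : 0 ≤ ρ := (norm_nonneg _).trans (hWρ w1 hw1)
  have hK := hW.prod (isCompact_ball (p := p) N (ρ / (1 - ‖A‖)))
  have h0 : ∀ w ∈ W, (w, (0 : X p)) ∈ W ×ˢ {a : X p | P p N a = a ∧ ‖a‖ ≤ ρ / (1 - ‖A‖)} :=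
    fun w hw => ⟨hw, map_zero _, by rw [norm_zero]; positivity⟩
  have hc : Continuous fun q : X p × X p => ‖A q.2 + q.1‖ ^ p.toReal - ‖q.2‖ ^ p.toReal := by
    refine Continuous.sub (Continuous.rpow_const (by fun_prop) fun _ => Or.inr hr.le)
      (Continuous.rpow_const (by fun_prop) fun _ => Or.inr hr.le)
  obtain ⟨⟨w0, a0⟩, ⟨hw0, ha0, ha0'⟩, hmax⟩ := hK.exists_isMaxOn ⟨_, h0 w1 hw1⟩ hc.continuousOn
  refine ⟨w0, hw0, a0, ha0, ha0', fun w hw a ha => ?_⟩
  rw [isMaxOn_iff] at hmax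
  rcases le_or_gt ‖a‖ (ρ / (1 - ‖A‖)) with h | h
  · have h2 := hmax (w, a) ⟨hw, ha, h⟩
    dsimp only at h2
    exact h2
  · have h2 := hmax _ (h0 w hw)
    simp only [map_zero, zero_add, norm_zero, zero_rpow hr.ne', sub_zero] at h2
    have h3 : ‖A a + w‖ ≤ ‖a‖ := by
      rw [div_lt_iff₀ h1] at h
      have := A.le_opNorm a
      have h4 := hWρ w hw
      have h5 := norm_add_le (A a) w
      nlinarith
    have h4 := rpow_le_rpow (norm_nonneg _) h3 hr.le
    have h5 : 0 ≤ ‖w‖ ^ p.toReal := by positivity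
    linarith

lemma core_upper (hp : p ≠ ⊤) {N : ℕ} (hN : 0 < N) {A : X p →L[ℂ] X p}
    (hA1 : ‖A‖ < 1) {ρ : ℝ} (hρ : 0 < ρ) :
    ∃ w0 a0 : X p, P p N w0 = w0 ∧ ‖w0‖ ≤ ρ ∧ w0 ≠ 0 ∧ P p N a0 = a0 ∧ ‖a0‖ ≤ ρ / (1 - ‖A‖) ∧
      (∀ a, P p N a = a →
        ‖A a + w0‖ ^ p.toReal - ‖a‖ ^ p.toReal ≤ ‖A a0 + w0‖ ^ p.toReal - ‖a0‖ ^ p.toReal) ∧
      (∀ i < N, (A a0 + w0) i ≠ 0) ∧ (IsPos A → ∀ i, 0 ≤ w0 i) := by
  have hr := r_pos hp
  have hN' : (0 : ℝ) < N := by exact_mod_cast hN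
  have hc : 0 < ρ / N := by positivity
  have hT : ∀ w ∈ Tor p N (ρ / N), ‖w‖ ≤ ρ := fun w hw =>
    (norm_le_of_Tor hw).trans (le_of_eq (by field_simp))
  have hne : ∀ w ∈ Tor p N (ρ / N), w ≠ 0 := fun w hw h => by
    have := hw.2 0 hN
    rw [h] at this
    simp only [zero_coord, norm_zero] at this
    linarith
  by_cases hpos : IsPos A
  · obtain ⟨w0, hw0, a0, ha0, ha0', hmax⟩ := max_upper hp (N := N) hA1 (ρ := ρ)
      (W := {flat p N (ρ / N)}) isCompact_singleton (Set.singleton_nonempty _)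
      fun w hw => by rw [hw]; exact hT _ (flat_mem hc.le)
    rw [Set.mem_singleton_iff] at hw0
    subst hw0
    set w0 := flat p N (ρ / N) with hw0
    have hw0T : w0 ∈ Tor p N (ρ / N) := flat_mem hc.le
    have hnn : ∀ i, 0 ≤ absv N a0 i := fun i => by
      rw [absv_coord ha0]; exact Complex.zero_le_real.2 (norm_nonneg _)
    have hAnn := pos_apply hpos (P_absv ha0) hnn
    have hcoord : ∀ i, ‖(A (absv N a0) + w0) i‖ = ‖(A (absv N a0)) i‖ + ‖w0 i‖ := fun i =>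
      norm_add_of_nonneg (hAnn i) (flat_nonneg hc.le i)
    have hle : ‖A a0 + w0‖ ≤ ‖A (absv N a0) + w0‖ := lp.norm_mono p_pos.ne' fun i => by
      rw [hcoord]
      refine (norm_add_le _ _).trans (add_le_add ?_ le_rfl)
      exact pos_mono hpos ha0 (P_absv ha0) hnn (fun j => by rw [absv_coord ha0]; simp) i
    refine ⟨w0, absv N a0, hw0T.1, hT _ hw0T, hne _ hw0T, P_absv ha0, by rwa [norm_absv ha0],
      fun a ha => ?_, fun i hi h => ?_, fun _ => flat_nonneg hc.le⟩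
    · have h1 := hmax w0 rfl a ha
      have h2 := rpow_le_rpow (norm_nonneg _) hle hr.le
      rw [norm_absv ha0]; linarith
    · have h1 := hcoord i
      rw [h, norm_zero, hw0T.2 i hi] at h1
      have := norm_nonneg ((A (absv N a0)) i)
      linarith
  · obtain ⟨w0, hw0, a0, ha0, ha0', hmax⟩ := max_upper hp (N := N) hA1 (ρ := ρ)
      (isCompact_Tor N (ρ / N)) ⟨_, flat_mem hc.le⟩ hT
    refine ⟨w0, a0, hw0.1, hT _ hw0, hne _ hw0, ha0, ha0', hmax w0 hw0, fun i hi h => ?_,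
      fun h => absurd h hpos⟩
    have h1 := hmax _ (flip_mem hw0 hi) a0 ha0
    rw [← add_assoc, norm_add_rpow hp (u := A a0 + w0)] at h1
    · have h2 : 0 < ‖(-2 * w0 i) • e p i‖ := by
        rw [norm_smul, norm_e, norm_mul, hw0.2 i hi]; simp; positivity
      have h3 := rpow_pos_of_pos h2 p.toReal
      linarith
    · intro j
      rw [smul_coord, e_apply]
      split_ifs with hj
      · left; rw [hj]; exact h
      · right; simp

/-- The functional with finitely many coefficients. -/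
def fu (N : ℕ) (u : X p) : X p →L[ℂ] ℂ := ∑ i ∈ range N, u i • ev p i

lemma fu_apply (N : ℕ) (u a : X p) : fu N u a = ∑ i ∈ range N, u i * a i := by
  simp [fu]

lemma fu_e {N : ℕ} (u : X p) (j : ℕ) : fu N u (e p j) = if j < N then u j else 0 := by
  rw [fu_apply]
  simp only [e_apply, mul_ite, mul_one, mul_zero]
  rw [Finset.sum_ite_eq']; simp

lemma fu_P (N : ℕ) (u a : X p) : fu N u (P p N a) = fu N u a := by
  rw [fu_apply, fu_apply]
  exact sum_congr rfl fun i hi => by rw [P_coord, if_pos (mem_range.1 hi)]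

lemma max_lower (hp : p ≠ ⊤) {N : ℕ} (hN : 0 < N) {A : X p →L[ℂ] X p} (hA1 : ‖A‖ < 1)
    {W : Set (X p)} (hW : IsCompact W) (hWne : W.Nonempty) (hWT : W ⊆ Tor p N 1) :
    ∃ u0 ∈ W, ∃ a0, P p N a0 = a0 ∧ 1 ≤ ‖fu N u0 a0‖ ∧
      ‖a0‖ ^ p.toReal - ‖A a0‖ ^ p.toReal ≤ 1 ∧ ∀ u ∈ W, ∀ a, P p N a = a →
      ‖fu N u a‖ ^ p.toReal ≤
        ‖fu N u0 a0‖ ^ p.toReal * (‖a‖ ^ p.toReal - ‖A a‖ ^ p.toReal) := by
  have hr := r_pos hp
  have hγ : ‖A‖ ^ p.toReal < 1 := rpow_lt_one (norm_nonneg _) hA1 hr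
  have hD : ∀ a : X p, (1 - ‖A‖ ^ p.toReal) * ‖a‖ ^ p.toReal ≤
      ‖a‖ ^ p.toReal - ‖A a‖ ^ p.toReal := fun a => by
    have := rpow_le_rpow (norm_nonneg _) (A.le_opNorm a) hr.le
    rw [mul_rpow (norm_nonneg _) (norm_nonneg _)] at this
    linarith
  have hDc : Continuous fun a : X p => ‖a‖ ^ p.toReal - ‖A a‖ ^ p.toReal :=
    Continuous.sub (Continuous.rpow_const (by fun_prop) fun _ => Or.inr hr.le)
      (Continuous.rpow_const (by fun_prop) fun _ => Or.inr hr.le)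
  have hB : IsCompact {a : X p | P p N a = a ∧ ‖a‖ ^ p.toReal - ‖A a‖ ^ p.toReal ≤ 1} := by
    refine (isCompact_ball N (((1 - ‖A‖ ^ p.toReal)⁻¹) ^ p.toReal⁻¹)).of_isClosed_subset
      ((isClosed_eq (P p N).continuous continuous_id).inter (isClosed_le hDc continuous_const))
      fun a ha => ⟨ha.1, ?_⟩
    have h1 : 0 < 1 - ‖A‖ ^ p.toReal := by linarith
    refine le_of_rpow_le hp (norm_nonneg _) (by positivity) ?_
    rw [rpow_inv_rpow (by positivity) hr.ne', inv_eq_one_div, le_div_iff₀ h1, mul_comm]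
    exact (hD a).trans ha.2
  obtain ⟨u1, hu1⟩ := hWne
  have he0 : ∀ u ∈ W, (u, e p 0) ∈
      W ×ˢ {a : X p | P p N a = a ∧ ‖a‖ ^ p.toReal - ‖A a‖ ^ p.toReal ≤ 1} := fun u hu =>
    ⟨hu, P_e hN, by
      have : 0 ≤ ‖A (e p 0)‖ ^ p.toReal := by positivity
      simp only [norm_e, one_rpow]; linarith⟩
  have hc : Continuous fun q : X p × X p => ‖fu N q.1 q.2‖ := by
    simp only [fu_apply, ← ev_apply]
    fun_prop
  obtain ⟨⟨u0, a0⟩, ⟨hu0, ha0, ha0'⟩, hmax⟩ :=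
    (hW.prod hB).exists_isMaxOn ⟨_, he0 u1 hu1⟩ hc.continuousOn
  rw [isMaxOn_iff] at hmax
  refine ⟨u0, hu0, a0, ha0, ?_, ha0', fun u hu a ha => ?_⟩
  · have := hmax _ (he0 u1 hu1)
    simp only [fu_e, if_pos hN, (hWT hu1).2 0 hN] at this
    exact this
  · rcases eq_or_ne a 0 with rfl | ha1
    · simp [zero_rpow hr.ne']
    have hDpos : 0 < ‖a‖ ^ p.toReal - ‖A a‖ ^ p.toReal :=
      lt_of_lt_of_le (mul_pos (by linarith) (rpow_pos_of_pos (norm_pos_iff.2 ha1) _)) (hD a)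
    set D := ‖a‖ ^ p.toReal - ‖A a‖ ^ p.toReal with hDdef
    set t : ℝ := D⁻¹ ^ p.toReal⁻¹ with ht
    have ht0 : 0 < t := by positivity
    have htr : t ^ p.toReal = D⁻¹ := rpow_inv_rpow (by positivity) hr.ne'
    have h0 : ‖(t : ℂ) • a‖ ^ p.toReal - ‖A ((t : ℂ) • a)‖ ^ p.toReal ≤ 1 := by
      rw [map_smul, norm_real_smul_rpow ht0.le, norm_real_smul_rpow ht0.le, ← mul_sub, htr,
        ← hDdef, inv_mul_cancel₀ hDpos.ne']
    have h0' : P p N ((t : ℂ) • a) = (t : ℂ) • a := by rw [map_smul, ha]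
    have h1 := hmax (u, (t : ℂ) • a) ⟨hu, h0', h0⟩
    simp only [map_smul, smul_eq_mul, norm_mul, Complex.norm_real,
      Real.norm_of_nonneg ht0.le] at h1
    have h2 := rpow_le_rpow (by positivity) h1 hr.le
    rw [mul_rpow ht0.le (norm_nonneg _), htr, inv_mul_le_iff₀ hDpos] at h2
    linarith

lemma bump_false {r M : ℝ} (hr : 1 < r) (hM : 0 < M)
    (h : ∀ τ > 0, (1 + τ) ^ r ≤ 1 + τ ^ r * M ^ r) : False := by
  have hMr : 0 < M ^ r := by positivity
  set τ : ℝ := (1 / (2 * M ^ r)) ^ (r - 1)⁻¹ with hτ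
  have hτ0 : 0 < τ := by positivity
  have h1 : τ ^ (r - 1) = 1 / (2 * M ^ r) := rpow_inv_rpow (by positivity) (by linarith)
  have h2 : τ ^ r * M ^ r = τ / 2 := by
    have : τ ^ r = τ * τ ^ (r - 1) := by rw [rpow_sub_one hτ0.ne']; field_simp
    rw [this, h1]; field_simp
  have h3 := one_add_mul_self_le_rpow_one_add (s := τ) (by linarith) hr.le
  have h4 := h τ hτ0
  nlinarith

lemma core_lower (hp : p ≠ ⊤) (hr1 : 1 < p.toReal) {N : ℕ} (hN : 0 < N) {A : X p →L[ℂ] X p}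
    (hA1 : ‖A‖ < 1) :
    ∃ u0 a0 : X p, u0 ∈ Tor p N 1 ∧ P p N a0 = a0 ∧ 1 ≤ ‖fu N u0 a0‖ ∧
      ‖a0‖ ^ p.toReal - ‖A a0‖ ^ p.toReal = 1 ∧ (∀ a, P p N a = a →
      ‖fu N u0 a‖ ^ p.toReal ≤
        ‖fu N u0 a0‖ ^ p.toReal * (‖a‖ ^ p.toReal - ‖A a‖ ^ p.toReal)) ∧
      (∀ i < N, a0 i ≠ 0) ∧ (IsPos A → ∀ i, 0 ≤ u0 i) := by
  have hr := r_pos hp
  have hdisj : ∀ (a : X p) (i : ℕ) (t : ℂ), a i = 0 →
      ‖a + t • e p i‖ ^ p.toReal = ‖a‖ ^ p.toReal + ‖t‖ ^ p.toReal := fun a i t h => by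
    rw [norm_add_rpow hp, norm_smul, norm_e, mul_one]
    intro j
    rw [smul_coord, e_apply]
    split_ifs with hj
    · left; rw [hj]; exact h
    · right; simp
  have hone : ∀ {M D : ℝ}, 1 ≤ M → D ≤ 1 → M ^ p.toReal ≤ M ^ p.toReal * D → D = 1 := by
    intro M D hM hD h
    have : 0 < M ^ p.toReal := by positivity
    nlinarith
  by_cases hpos : IsPos A
  · obtain ⟨u0, hu0, a0, ha0, hM, hD, hmax⟩ := max_lower hp hN hA1 (W := {flat p N 1})
      isCompact_singleton (Set.singleton_nonempty _)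
      (by rintro w rfl; exact flat_mem zero_le_one)
    rw [Set.mem_singleton_iff] at hu0
    subst hu0
    set u0 := flat p N 1 with hu0
    set a1 := absv N a0 with ha1
    have hPa1 : P p N a1 = a1 := P_absv ha0
    have hnn : ∀ i, 0 ≤ a1 i := fun i => by
      rw [absv_coord ha0]; exact Complex.zero_le_real.2 (norm_nonneg _)
    have hfu : ∀ a : X p, fu N u0 a = ∑ i ∈ range N, a i := fun a => by
      rw [fu_apply]
      exact sum_congr rfl fun i hi => by rw [flat_coord, if_pos (mem_range.1 hi)]; simp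
    have hc : fu N u0 a1 = ((∑ i ∈ range N, ‖a0 i‖ : ℝ) : ℂ) := by
      rw [hfu]; push_cast
      exact sum_congr rfl fun i _ => absv_coord ha0 i
    have hc0 : 0 ≤ ∑ i ∈ range N, ‖a0 i‖ := sum_nonneg fun _ _ => norm_nonneg _
    have hge : ‖fu N u0 a0‖ ≤ ‖fu N u0 a1‖ := by
      rw [hc, Complex.norm_of_nonneg hc0, hfu]; exact norm_sum_le _ _
    have hA01 : ‖A a0‖ ≤ ‖A a1‖ := lp.norm_mono p_pos.ne' fun k =>
      pos_mono hpos ha0 hPa1 hnn (fun j => by rw [absv_coord ha0]; simp) k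
    have hD1 : ‖a1‖ ^ p.toReal - ‖A a1‖ ^ p.toReal ≤ 1 := by
      have := rpow_le_rpow (norm_nonneg _) hA01 hr.le
      rw [norm_absv ha0]; linarith
    have hle : ‖fu N u0 a1‖ ≤ ‖fu N u0 a0‖ := by
      refine le_of_rpow_le hp (norm_nonneg _) (norm_nonneg _) ((hmax u0 rfl a1 hPa1).trans ?_)
      exact mul_le_of_le_one_right (by positivity) hD1
    have heq : ‖fu N u0 a1‖ = ‖fu N u0 a0‖ := le_antisymm hle hge
    have hD2 : ‖a1‖ ^ p.toReal - ‖A a1‖ ^ p.toReal = 1 :=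
      hone hM hD1 (by have := hmax u0 rfl a1 hPa1; rwa [heq] at this)
    refine ⟨u0, a1, flat_mem zero_le_one, hPa1, by rwa [heq], hD2,
      by rw [heq]; exact hmax u0 rfl, fun i hi h => ?_, fun _ => flat_nonneg zero_le_one⟩
    set M := ‖fu N u0 a0‖ with hMdef
    have hM0 : 0 < M := by linarith
    refine bump_false hr1 hM0 fun τ hτ => ?_
    have hMc : ∑ i ∈ range N, ‖a0 i‖ = M := by rw [← heq, hc, Complex.norm_of_nonneg hc0]
    have hPa : P p N (a1 + ((τ * M : ℝ) : ℂ) • e p i) = a1 + ((τ * M : ℝ) : ℂ) • e p i := by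
      rw [map_add, map_smul, hPa1, P_e hi]
    have h1 := hmax u0 rfl _ hPa
    have h2 : fu N u0 (a1 + ((τ * M : ℝ) : ℂ) • e p i) = (((1 + τ) * M : ℝ) : ℂ) := by
      rw [map_add, map_smul, hc, fu_e, if_pos hi, flat_coord, if_pos hi, hMc]
      push_cast; simp; ring
    have h3 : ‖A a1‖ ≤ ‖A (a1 + ((τ * M : ℝ) : ℂ) • e p i)‖ := by
      have hb0 : ∀ j, 0 ≤ (((τ * M : ℝ) : ℂ) • e p i) j := fun j => by
        rw [smul_coord, e_apply]
        split_ifs
        · rw [mul_one]; exact Complex.zero_le_real.2 (by positivity)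
        · simp
      refine lp.norm_mono p_pos.ne' fun k => pos_mono hpos hPa1 hPa
        (fun j => add_nonneg (hnn j) (hb0 j)) (fun j => ?_) k
      rw [add_coord, norm_add_of_nonneg (hnn j) (hb0 j)]
      exact le_add_of_nonneg_right (norm_nonneg _)
    have h4 := rpow_le_rpow (norm_nonneg _) h3 hr.le
    rw [h2, hdisj a1 i _ h, Complex.norm_of_nonneg (by positivity),
      Complex.norm_of_nonneg (by positivity), mul_rpow (by positivity) hM0.le,
      mul_rpow hτ.le hM0.le] at h1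
    have hMr : 0 < M ^ p.toReal := by positivity
    have h5 : M ^ p.toReal * (1 + τ) ^ p.toReal ≤
        M ^ p.toReal * (1 + τ ^ p.toReal * M ^ p.toReal) := by
      refine le_trans (le_of_eq (mul_comm _ _)) (h1.trans ?_)
      exact mul_le_mul_of_nonneg_left (by linarith) hMr.le
    exact le_of_mul_le_mul_left h5 hMr
  · obtain ⟨u0, hu0, a0, ha0, hM, hD, hmax⟩ := max_lower hp hN hA1 (isCompact_Tor N 1)
      ⟨_, flat_mem zero_le_one⟩ subset_rfl
    have hD2 := hone hM hD (hmax u0 hu0 a0 ha0)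
    refine ⟨u0, a0, hu0, ha0, hM, hD2, hmax u0 hu0, fun i hi h => ?_, fun h => absurd h hpos⟩
    set c := fu N u0 a0 with hc
    set M := ‖c‖ with hMdef
    have hM0 : 0 < M := by linarith
    refine bump_false hr1 hM0 fun τ hτ => ?_
    have hui : ‖u0 i‖ = 1 := hu0.2 i hi
    have hui0 : u0 i ≠ 0 := by intro h0; rw [h0, norm_zero] at hui; exact zero_ne_one hui
    set t : ℂ := (τ : ℂ) * c / u0 i with ht
    have htn : ‖t‖ = τ * M := by
      rw [ht, norm_div, hui, div_one, norm_mul, Complex.norm_of_nonneg hτ.le]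
    have h1 := hmax u0 hu0 (a0 + t • e p i) (by rw [map_add, map_smul, ha0, P_e hi])
    have h2 := hmax _ (flip_mem hu0 hi) (a0 + (-t) • e p i) (by rw [map_add, map_smul, ha0, P_e hi])
    have e1 : fu N u0 (a0 + t • e p i) = ((1 + τ : ℝ) : ℂ) * c := by
      rw [map_add, map_smul, fu_e, if_pos hi, ← hc, ht]; push_cast; simp only [smul_eq_mul]
      field_simp
    have e2 : fu N (u0 + (-2 * u0 i) • e p i) (a0 + (-t) • e p i) = ((1 + τ : ℝ) : ℂ) * c := by
      have e3 : fu N (u0 + (-2 * u0 i) • e p i) a0 = c := by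
        rw [hc, fu_apply, fu_apply]
        refine sum_congr rfl fun j _ => ?_
        rw [add_coord, smul_coord, e_apply]
        split_ifs with hj
        · rw [hj, h]; simp
        · simp
      rw [map_add, map_smul, e3, fu_e, if_pos hi, add_coord, smul_coord, e_apply, if_pos rfl, ht]
      push_cast; simp only [smul_eq_mul]
      field_simp; ring
    have h3 := two_mul_norm_rpow_le (E := X p) hr1.le (A a0) (t • A (e p i))
    rw [e1, hdisj a0 i _ h, map_add, map_smul] at h1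
    rw [e2, hdisj a0 i _ h, map_add, map_smul, neg_smul, ← sub_eq_add_neg, norm_neg] at h2
    rw [norm_mul, Complex.norm_of_nonneg (by positivity), mul_rpow (by positivity) hM0.le, htn,
      mul_rpow hτ.le hM0.le] at h1 h2
    have hMr : 0 < M ^ p.toReal := by positivity
    have h5 : M ^ p.toReal * (2 * (1 + τ) ^ p.toReal) ≤
        M ^ p.toReal * (2 * (1 + τ ^ p.toReal * M ^ p.toReal)) := by
      have h6 := add_le_add h1 h2
      refine le_trans (le_of_eq (by ring)) (h6.trans ?_)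
      rw [← mul_add]
      exact mul_le_mul_of_nonneg_left (by linarith) hMr.le
    have := le_of_mul_le_mul_left h5 hMr
    linarith

end Pool.Agent.P.MP_f981b0_an
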