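import Mathlib
import Pool.Agent.P.MP_f981b0_an.Cores

set_option autoImplicit false

noncomputable section

namespace Pool.Agent.P.MP_f981b0_an

open Real Finset Filter Topology
open scoped ENNReal ComplexOrder

variable {p : ℝ≥0∞} [Fact (1 ≤ p)]

lemma Supp.coord {N : ℕ} {A : X p →L[ℂ] X p} (hA : Supp N A) (v : X p) {i : ℕ} (hi : N ≤ i) :
    (A v) i = 0 := P_eq_self_iff.1 (hA v).1 i hi

lemma Supp.e_zero {N : ℕ} {A : X p →L[ℂ] X p} (hA : Supp N A) {i : ℕ} (hi : N ≤ i) :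
    A (e p i) = 0 := by rw [← (hA _).2, P_e_zero hi, map_zero]

lemma Supp.mono {N M : ℕ} {A : X p →L[ℂ] X p} (hA : Supp N A) (h : N ≤ M) : Supp M A :=
  fun v => ⟨P_mono (hA v).1 h, by rw [← (hA _).2, P_P_of_le h, (hA v).2]⟩

lemma Supp.norm_le {N : ℕ} {A : X p →L[ℂ] X p} (hA : Supp N A) (v : X p) :
    ‖A v‖ ≤ ‖A‖ * ‖P p N v‖ := by
  rw [← (hA v).2]; exact A.le_opNorm _

lemma P_add_coord_le (hp : p ≠ ⊤) (N : ℕ) (v : X p) :
    ‖P p N v‖ ^ p.toReal + ‖v N‖ ^ p.toReal ≤ ‖v‖ ^ p.toReal := by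
  rw [← norm_P_rpow hp N v]
  refine add_le_add le_rfl (rpow_le_rpow (norm_nonneg _) ?_ (r_pos hp).le)
  have := norm_apply_le (v - P p N v) N
  rwa [sub_coord, P_coord, if_neg (lt_irrefl N), sub_zero] at this

lemma contr_of_rpow (hp : p ≠ ⊤) {S : X p →L[ℂ] X p}
    (h : ∀ v, ‖S v‖ ^ p.toReal ≤ ‖v‖ ^ p.toReal) : ‖S‖ ≤ 1 :=
  ContinuousLinearMap.opNorm_le_bound _ zero_le_one fun v => by
    rw [one_mul]; exact le_of_rpow_le hp (norm_nonneg _) (norm_nonneg _) (h v)

lemma eq_of_rpow_eq (hp : p ≠ ⊤) {x y : ℝ} (hx : 0 ≤ x) (hy : 0 ≤ y)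
    (h : x ^ p.toReal = y ^ p.toReal) : x = y :=
  le_antisymm (le_of_rpow_le hp hx hy h.le) (le_of_rpow_le hp hy hx h.ge)

/-- What the one point extension provides. -/
def Ext (A S : X p →L[ℂ] X p) (N : ℕ) (ρ : ℝ) : Prop :=
  ‖S‖ ≤ 1 ∧ Rigid S (N + 1) ∧ Supp (N + 1) S ∧ (∀ v, ‖S (P p N v) - A v‖ ≤ ρ * ‖v‖) ∧
    (∀ v, ‖P p N (S v) - A v‖ ≤ ρ * ‖v‖) ∧
    (∀ x, P p N x = x → ∀ k, P p N ((S ^ k) x) = (A ^ k) x) ∧ (IsPos A → IsPos S)

lemma gadget_upper (hp : p ≠ ⊤) (hr2 : 2 < p.toReal) {N : ℕ} (hN : 0 < N) {A : X p →L[ℂ] X p}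
    (hA : Supp N A) (hA1 : ‖A‖ < 1) {ρ : ℝ} (hρ : 0 < ρ) : ∃ S, Ext A S N ρ := by
  have hr := r_pos hp
  have h1γ : 0 < 1 - ‖A‖ := by linarith
  set ρ' : ℝ := min ρ ((1 - ‖A‖) / 2) with hρ'
  have hρ'0 : 0 < ρ' := by positivity
  obtain ⟨w, a0, hw, hwρ, hw0, ha0, ha0R, hmax, hfull, hpos⟩ := core_upper hp hN hA1 hρ'0
  set m0 : ℝ := ‖A a0 + w‖ ^ p.toReal - ‖a0‖ ^ p.toReal with hm0
  have hm0pos : 0 < m0 := by
    have := hmax 0 (map_zero _)
    simp only [map_zero, zero_add, norm_zero, zero_rpow hr.ne', sub_zero] at this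
    exact lt_of_lt_of_le (rpow_pos_of_pos (norm_pos_iff.2 hw0) _) this
  have hm0lt : m0 < 1 := by
    have h1 : ρ' / (1 - ‖A‖) ≤ 1 / 2 := by
      rw [div_le_iff₀ h1γ]; have := min_le_right ρ ((1 - ‖A‖) / 2); linarith
    have h2 : ‖A a0 + w‖ < 1 := by
      have h3 := norm_add_le (A a0) w
      have h4 := A.le_opNorm a0
      have h5 : ‖A‖ * ‖a0‖ ≤ ‖A‖ * (1 / 2) :=
        mul_le_mul_of_nonneg_left (ha0R.trans h1) (norm_nonneg _)
      have h6 : ρ' ≤ (1 - ‖A‖) / 2 := min_le_right _ _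
      linarith
    have h3 := rpow_lt_one (norm_nonneg _) h2 hr
    have h4 : 0 ≤ ‖a0‖ ^ p.toReal := by positivity
    linarith
  set s : ℝ := (1 - m0) ^ p.toReal⁻¹ with hs
  have hs0 : 0 < s := rpow_pos_of_pos (by linarith) _
  have hsr : s ^ p.toReal = 1 - m0 := rpow_inv_rpow (by linarith) hr.ne'
  have hs1 : s < 1 := rpow_lt_one (by linarith) (by linarith) (by positivity)
  set S : X p →L[ℂ] X p := A + (ev p N).smulRight (w + (s : ℂ) • e p N) with hS
  have hSv : ∀ v, S v = (A v + v N • w) + (v N * s) • e p N := fun v => by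
    simp only [hS, _root_.add_apply, ContinuousLinearMap.smulRight_apply, ev_apply,
      smul_add, smul_smul, add_assoc]
  have hP1 : ∀ v, P p N (A v + v N • w) = A v + v N • w := fun v => by
    rw [map_add, map_smul, (hA v).1, hw]
  have hP2 : ∀ c : ℂ, P p N (c • e p N) = 0 := fun c => by rw [map_smul, P_e_zero le_rfl, smul_zero]
  have hnorm : ∀ v, ‖S v‖ ^ p.toReal =
      ‖A v + v N • w‖ ^ p.toReal + ‖v N‖ ^ p.toReal * (1 - m0) := fun v => by
    rw [hSv, norm_add_rpow_P hp (hP1 v) (hP2 _), norm_smul, norm_e, mul_one, norm_mul,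
      Complex.norm_of_nonneg hs0.le, mul_rpow (norm_nonneg _) hs0.le, hsr]
  have hSN : ∀ v, (S v) N = v N * s := fun v => by
    rw [hSv, add_coord, P_eq_self_iff.1 (hP1 v) N le_rfl, smul_coord, e_apply]; simp
  have hPS : ∀ v, P p N (S v) = A v + v N • w := fun v => by
    rw [hSv, map_add, hP1, hP2, add_zero]
  have hSE : ∀ x, P p N x = x → S x = A x := fun x hx => by
    rw [hSv, P_eq_self_iff.1 hx N le_rfl]; simp
  have hSupp : Supp (N + 1) S := fun v => by
    constructor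
    · rw [hSv, map_add, P_mono (hP1 v) (Nat.le_succ N), map_smul, P_e (Nat.lt_succ_self N)]
    · rw [hSv, hSv, P_coord, if_pos (Nat.lt_succ_self N), (hA.mono (Nat.le_succ N) v).2]
  refine ⟨S, ?_, ⟨?_, a0 + e p N, ?_, (hSupp _).1, ?_, Or.inl ⟨hr2, ?_⟩⟩, hSupp, ?_, ?_, ?_, ?_⟩
  · refine contr_of_rpow hp fun v => ?_
    have h1 := P_add_coord_le hp N v
    have h2 : ‖A v + v N • w‖ ^ p.toReal ≤ ‖P p N v‖ ^ p.toReal + ‖v N‖ ^ p.toReal * m0 := by
      rcases eq_or_ne (v N) 0 with h | h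
      · rw [h, zero_smul, add_zero, norm_zero, zero_rpow hr.ne', zero_mul, add_zero, ← (hA v).2]
        exact contr_rpow hp hA1.le _
      · have h3 := hmax ((v N)⁻¹ • P p N v) (by rw [map_smul, P_P])
        have e1 : A v + v N • w = v N • (A ((v N)⁻¹ • P p N v) + w) := by
          rw [map_smul, smul_add, smul_smul, mul_inv_cancel₀ h, one_smul, (hA v).2]
        have e2 : P p N v = v N • ((v N)⁻¹ • P p N v) := by
          rw [smul_smul, mul_inv_cancel₀ h, one_smul]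
        rw [e1, norm_smul, mul_rpow (norm_nonneg _) (norm_nonneg _)]
        conv_rhs => rw [e2, norm_smul, mul_rpow (norm_nonneg _) (norm_nonneg _), ← mul_add]
        exact mul_le_mul_of_nonneg_left (by linarith) (by positivity)
    rw [hnorm]; linarith
  · set σ : ℝ := (max ‖A‖ s + 1) / 2 with hσ
    have hmx : max ‖A‖ s < 1 := max_lt hA1 hs1
    have hσA : ‖A‖ ≤ σ := by have := le_max_left ‖A‖ s; linarith
    have hσs : 0 < σ - s := by have := le_max_right ‖A‖ s; linarith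
    set l : ℝ := (‖w‖ + s) / (σ - s) with hl
    have hl0 : 0 ≤ l := by positivity
    refine ⟨fun v => ‖v‖ + l * ‖v N‖, σ, 1 + l, (norm_nonneg _).trans hσA, by linarith,
      by positivity, fun u v => ?_, fun v => ?_, fun v => ?_, fun v => ?_⟩
    · have h1 := norm_add_le u v
      have h2 := mul_le_mul_of_nonneg_left (norm_add_le (u N) (v N)) hl0
      simp only [add_coord]; linarith
    · exact le_add_of_nonneg_right (by positivity)
    · have := mul_le_mul_of_nonneg_left (norm_apply_le v N) hl0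
      simp only; linarith
    · have h1 : ‖S v‖ ≤ σ * ‖v‖ + ‖v N‖ * (‖w‖ + s) := by
        rw [hSv]
        refine (norm_add_le _ _).trans ?_
        have h2 := norm_add_le (A v) (v N • w)
        have h3 := (A.le_opNorm v).trans (mul_le_mul_of_nonneg_right hσA (norm_nonneg _))
        rw [norm_smul] at h2
        rw [norm_smul, norm_e, norm_mul, Complex.norm_of_nonneg hs0.le]
        linarith
      have h2 : ‖w‖ + s = l * (σ - s) := by rw [hl]; field_simp
      simp only [hSN, norm_mul, Complex.norm_of_nonneg hs0.le]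
      rw [h2] at h1
      linarith
  · rw [map_add, P_mono ha0 (Nat.le_succ N), P_e (Nat.lt_succ_self N)]
  · refine eq_of_rpow_eq hp (norm_nonneg _) (norm_nonneg _) ?_
    have h1 : (a0 + e p N) N = 1 := by
      rw [add_coord, P_eq_self_iff.1 ha0 N le_rfl, e_apply]; simp
    rw [hnorm, h1, map_add, hA.e_zero le_rfl, norm_add_rpow_P hp ha0 (P_e_zero le_rfl)]
    simp only [add_zero, one_smul, norm_one, one_rpow, norm_e]
    linarith
  · intro i hi
    have h1 : (a0 + e p N) N = 1 := by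
      rw [add_coord, P_eq_self_iff.1 ha0 N le_rfl, e_apply]; simp
    rcases Nat.lt_succ_iff_lt_or_eq.1 hi with h | rfl
    · rw [hSv, h1, map_add, hA.e_zero le_rfl, add_zero, one_smul, add_coord, smul_coord, e_apply,
        if_neg h.ne, mul_zero, add_zero]
      exact hfull i h
    · rw [hSN, h1, one_mul]; exact Complex.ofReal_ne_zero.2 hs0.ne'
  · intro v
    rw [hSE _ (P_P N v), (hA v).2, sub_self, norm_zero]; positivity
  · intro v
    rw [hPS, add_sub_cancel_left, norm_smul, mul_comm]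
    exact mul_le_mul (hwρ.trans (min_le_left _ _)) (norm_apply_le v N) (norm_nonneg _) hρ.le
  · intro x hx k
    have : (S ^ k) x = (A ^ k) x ∧ P p N ((A ^ k) x) = (A ^ k) x := by
      induction k with
      | zero => simpa using hx
      | succ k ih =>
        rw [pow_succ', pow_succ', mul_apply_eq_comp, mul_apply_eq_comp,
          ih.1]
        exact ⟨hSE _ ih.2, (hA _).1⟩
    rw [this.1, this.2]
  · intro h i j
    rw [hSv, add_coord, add_coord, smul_coord, smul_coord]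
    have he : ∀ a b : ℕ, (0 : ℂ) ≤ (e p a) b := fun a b => by
      rw [e_apply]; split_ifs; exacts [zero_le_one, le_rfl]
    exact add_nonneg (add_nonneg (h i j) (mul_nonneg (he _ _) (hpos h i)))
      (mul_nonneg (mul_nonneg (he _ _) (Complex.zero_le_real.2 hs0.le)) (he _ _))

lemma norm_fu_le {N : ℕ} {u : X p} (hu : u ∈ Tor p N 1) (v : X p) : ‖fu N u v‖ ≤ N * ‖v‖ := by
  rw [fu_apply]
  refine (norm_sum_le _ _).trans ?_
  calc ∑ i ∈ range N, ‖u i * v i‖ ≤ ∑ _i ∈ range N, ‖v‖ := sum_le_sum fun i hi => by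
        rw [norm_mul, hu.2 i (mem_range.1 hi), one_mul]; exact norm_apply_le v i
    _ = N * ‖v‖ := by simp

lemma gadget_lower (hp : p ≠ ⊤) (hr1 : 1 < p.toReal) (hr2 : p.toReal < 2) {N : ℕ} (hN : 0 < N)
    {A : X p →L[ℂ] X p} (hA : Supp N A) (hA1 : ‖A‖ < 1) {ρ : ℝ} (hρ : 0 < ρ) :
    ∃ S, Ext A S N ρ := by
  have hr := r_pos hp
  have hN' : (0 : ℝ) < N := by exact_mod_cast hN
  obtain ⟨u, a0, hu, ha0, hM, hD, hmax, hfull, hpos⟩ := core_lower hp hr1 hN hA1
  set M : ℝ := ‖fu N u a0‖ with hMdef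
  have hM0 : 0 < M := by linarith
  have hq : 0 < 1 - p.toReal⁻¹ := by
    have := inv_lt_one_of_one_lt₀ hr1; linarith
  set θ : ℝ := min (1 / 2) ((ρ / N) ^ (1 - p.toReal⁻¹)⁻¹) with hθ
  have hθ0 : 0 < θ := by positivity
  have hθ1 : 0 < 1 - θ := by have := min_le_left (1 / 2) ((ρ / N) ^ (1 - p.toReal⁻¹)⁻¹); linarith
  set k1 : ℝ := θ ^ (-p.toReal⁻¹) with hk1
  set k2 : ℝ := (1 - θ) ^ (-p.toReal⁻¹) with hk2
  have hk10 : 0 < k1 := by positivity
  have hk20 : 0 < k2 := by positivity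
  have hk1r : k1 ^ p.toReal = θ⁻¹ := by
    rw [hk1, ← rpow_mul hθ0.le, neg_mul, inv_mul_cancel₀ hr.ne', rpow_neg_one]
  have hk2r : k2 ^ p.toReal = (1 - θ)⁻¹ := by
    rw [hk2, ← rpow_mul hθ1.le, neg_mul, inv_mul_cancel₀ hr.ne', rpow_neg_one]
  have hρθ : θ * k1 ≤ ρ / N := by
    have h1 : θ * k1 = θ ^ (1 - p.toReal⁻¹) := by
      rw [sub_eq_add_neg, rpow_add hθ0, rpow_one]
    rw [h1]
    calc θ ^ (1 - p.toReal⁻¹) ≤ ((ρ / N) ^ (1 - p.toReal⁻¹)⁻¹) ^ (1 - p.toReal⁻¹) :=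
          rpow_le_rpow hθ0.le (min_le_right _ _) hq.le
      _ = ρ / N := rpow_inv_rpow (by positivity) hq.ne'
  set s : ℝ := (1 - θ) * k2 with hs
  have hs0 : 0 < s := by positivity
  have hs1 : s < 1 := by
    have h1 : s = (1 - θ) ^ (1 - p.toReal⁻¹) := by
      rw [sub_eq_add_neg 1 p.toReal⁻¹, rpow_add hθ1, rpow_one]
    rw [h1]; exact rpow_lt_one hθ1.le (by linarith) hq
  set g : X p →L[ℂ] ℂ := ((θ * k1 / M : ℝ) : ℂ) • fu N u with hg
  have hgn : ∀ v, ‖g v‖ = θ * k1 / M * ‖fu N u v‖ := fun v => by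
    rw [hg, _root_.smul_apply, norm_smul, Complex.norm_of_nonneg (by positivity)]
  have hgP : ∀ v, g (P p N v) = g v := fun v => by
    simp only [hg, _root_.smul_apply, fu_P]
  have hgρ : ∀ v, ‖g v‖ ≤ ρ * ‖v‖ := fun v => by
    rw [hgn]
    have h1 : θ * k1 / M ≤ ρ / N := (div_le_self (by positivity) hM).trans hρθ
    calc θ * k1 / M * ‖fu N u v‖ ≤ ρ / N * (N * ‖v‖) :=
          mul_le_mul h1 (norm_fu_le hu v) (norm_nonneg _) (by positivity)
      _ = ρ * ‖v‖ := by field_simp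
  set S : X p →L[ℂ] X p := A + (g + (s : ℂ) • ev p N).smulRight (e p N) with hS
  have hSv : ∀ v, S v = A v + (g v + s * v N) • e p N := fun v => by
    simp only [hS, _root_.add_apply, ContinuousLinearMap.smulRight_apply, ev_apply,
      _root_.smul_apply, smul_eq_mul]
  have hP2 : ∀ c : ℂ, P p N (c • e p N) = 0 := fun c => by rw [map_smul, P_e_zero le_rfl, smul_zero]
  have hnorm : ∀ v, ‖S v‖ ^ p.toReal = ‖A v‖ ^ p.toReal + ‖g v + s * v N‖ ^ p.toReal := fun v => by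
    rw [hSv, norm_add_rpow_P hp (hA v).1 (hP2 _), norm_smul, norm_e, mul_one]
  have hPS : ∀ v, P p N (S v) = A v := fun v => by rw [hSv, map_add, (hA v).1, hP2, add_zero]
  have hSupp : Supp (N + 1) S := fun v => by
    constructor
    · rw [hSv, map_add, P_mono (hA v).1 (Nat.le_succ N), map_smul, P_e (Nat.lt_succ_self N)]
    · rw [hSv, hSv, P_coord, if_pos (Nat.lt_succ_self N), (hA.mono (Nat.le_succ N) v).2,
        ← hgP, P_P_of_le (Nat.le_succ N), hgP]
  set c0 : ℂ := fu N u a0 / M with hc0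
  have hc0n : ‖c0‖ = 1 := by
    rw [hc0, norm_div, Complex.norm_of_nonneg hM0.le, div_self hM0.ne']
  set α0 : ℂ := ((k1 / k2 : ℝ) : ℂ) * c0 with hα0
  have hα0n : ‖α0‖ = k1 / k2 := by
    rw [hα0, norm_mul, hc0n, mul_one, Complex.norm_of_nonneg (by positivity)]
  have hzN : (a0 + α0 • e p N) N = α0 := by
    rw [add_coord, P_eq_self_iff.1 ha0 N le_rfl, smul_coord, e_apply]; simp
  have hPz : P p N (a0 + α0 • e p N) = a0 := by rw [map_add, ha0, hP2, add_zero]
  refine ⟨S, ?_, ⟨?_, a0 + α0 • e p N, ?_, (hSupp _).1, ?_, Or.inr ⟨hr2, ?_⟩⟩, hSupp, ?_, ?_, ?_,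
    ?_⟩
  · refine contr_of_rpow hp fun v => ?_
    have h1 := P_add_coord_le hp N v
    have h2 := hmax (P p N v) (P_P N v)
    rw [fu_P, (hA v).2] at h2
    have h3 : ‖g v + s * v N‖ ≤ θ * (k1 * (‖fu N u v‖ / M)) + (1 - θ) * (k2 * ‖v N‖) := by
      refine (norm_add_le _ _).trans (le_of_eq ?_)
      rw [hgn, norm_mul, Complex.norm_of_nonneg hs0.le, hs]; ring
    have h4 := (rpow_le_rpow (norm_nonneg _) h3 hr.le).trans
      (rpow_convex2 hr1.le (by positivity) (by positivity) hθ0.le hθ1.le (by ring))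
    rw [mul_rpow hk10.le (by positivity), mul_rpow hk20.le (norm_nonneg _), hk1r, hk2r,
      ← mul_assoc, ← mul_assoc, mul_inv_cancel₀ hθ0.ne', mul_inv_cancel₀ hθ1.ne', one_mul, one_mul,
      div_rpow (norm_nonneg _) hM0.le] at h4
    have h5 : ‖fu N u v‖ ^ p.toReal / M ^ p.toReal ≤ ‖P p N v‖ ^ p.toReal - ‖A v‖ ^ p.toReal := by
      rw [div_le_iff₀ (by positivity), mul_comm]; exact h2
    rw [hnorm]; linarith
  · set σ : ℝ := (max ‖A‖ s + 1) / 2 with hσ
    have hmx : max ‖A‖ s < 1 := max_lt hA1 hs1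
    have hσA : 0 < σ - ‖A‖ := by have := le_max_left ‖A‖ s; linarith
    have hσs : s ≤ σ := by have := le_max_right ‖A‖ s; linarith
    set l : ℝ := (‖A‖ + ρ) / (σ - ‖A‖) with hl
    have hl0 : 0 ≤ l := by positivity
    refine ⟨fun v => ‖v‖ + l * ‖P p N v‖, σ, 1 + l, hs0.le.trans hσs, by linarith,
      by positivity, fun u v => ?_, fun v => ?_, fun v => ?_, fun v => ?_⟩
    · have h1 := norm_add_le u v
      have h2 := mul_le_mul_of_nonneg_left (norm_add_le (P p N u) (P p N v)) hl0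
      simp only [map_add]; linarith
    · exact le_add_of_nonneg_right (by positivity)
    · have := mul_le_mul_of_nonneg_left (norm_P_le hp N v) hl0
      simp only; linarith
    · have h0 := hA.norm_le v
      have h1 : ‖S v‖ ≤ σ * ‖v‖ + (‖A‖ + ρ) * ‖P p N v‖ := by
        rw [hSv]
        refine (norm_add_le _ _).trans ?_
        have h2 := norm_add_le (g v) (s * v N)
        have h3 := hgρ (P p N v)
        rw [hgP] at h3
        rw [norm_mul, Complex.norm_of_nonneg hs0.le] at h2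
        have h4 : s * ‖v N‖ ≤ σ * ‖v‖ :=
          mul_le_mul hσs (norm_apply_le v N) (norm_nonneg _) (hs0.le.trans hσs)
        rw [norm_smul, norm_e, mul_one]
        linarith
      have h2 : ‖A‖ + ρ = l * (σ - ‖A‖) := by rw [hl]; field_simp
      have h3 := mul_le_mul_of_nonneg_left h0 hl0
      simp only [hPS]
      rw [h2] at h1
      linarith
  · rw [map_add, P_mono ha0 (Nat.le_succ N), map_smul, P_e (Nat.lt_succ_self N)]
  · refine eq_of_rpow_eq hp (norm_nonneg _) (norm_nonneg _) ?_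
    have h1 : g (a0 + α0 • e p N) + s * α0 = (k1 : ℂ) * c0 := by
      rw [← hgP, hPz, hg, _root_.smul_apply, smul_eq_mul, hα0, hc0, hs]
      have : (M : ℂ) ≠ 0 := by exact_mod_cast hM0.ne'
      have : (k2 : ℂ) ≠ 0 := by exact_mod_cast hk20.ne'
      push_cast; field_simp; ring
    rw [hnorm, hzN, h1, ← (hA _).2, hPz, norm_add_rpow_P hp ha0 (hP2 _), norm_smul, norm_e,
      mul_one, hα0n, norm_mul, hc0n, mul_one, Complex.norm_of_nonneg hk10.le,
      div_rpow hk10.le hk20.le, hk1r, hk2r]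
    have : θ⁻¹ / (1 - θ)⁻¹ = θ⁻¹ - 1 := by field_simp
    linarith
  · intro i hi
    rcases Nat.lt_succ_iff_lt_or_eq.1 hi with h | rfl
    · rw [add_coord, smul_coord, e_apply, if_neg h.ne, mul_zero, add_zero]
      exact hfull i h
    · rw [hzN, ← norm_pos_iff, hα0n]; positivity
  · intro v
    rw [hSv, (hA v).2, add_sub_cancel_left, hgP, P_coord, if_neg (lt_irrefl N), mul_zero, add_zero,
      norm_smul, norm_e, mul_one]
    exact hgρ v
  · intro v
    rw [hPS, sub_self, norm_zero]; positivity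
  · intro x hx k
    induction k with
    | zero => simpa using hx
    | succ k ih =>
      rw [pow_succ', pow_succ', mul_apply_eq_comp, mul_apply_eq_comp,
        hPS, ← (hA _).2, ih]
  · intro h i j
    have he : ∀ a b : ℕ, (0 : ℂ) ≤ (e p a) b := fun a b => by
      rw [e_apply]; split_ifs; exacts [zero_le_one, le_rfl]
    rw [hSv, add_coord, smul_coord]
    refine add_nonneg (h i j) (mul_nonneg (add_nonneg ?_
      (mul_nonneg (Complex.zero_le_real.2 hs0.le) (he _ _))) (he _ _))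
    rw [hg, _root_.smul_apply, smul_eq_mul, fu_e]
    refine mul_nonneg (Complex.zero_le_real.2 (by positivity)) ?_
    split_ifs
    exacts [hpos h j, le_rfl]

lemma gadget (hp1 : 1 < p) (hp : p ≠ ⊤) (hp2 : p ≠ 2) {N : ℕ} (hN : 0 < N)
    {A : X p →L[ℂ] X p} (hA : Supp N A) (hA1 : ‖A‖ < 1) {ρ : ℝ} (hρ : 0 < ρ) :
    ∃ S, Ext A S N ρ := by
  have hr1 : 1 < p.toReal := by
    have := (ENNReal.toReal_lt_toReal ENNReal.one_ne_top hp).2 hp1
    simpa using this
  have hr2 : p.toReal ≠ 2 := fun h => hp2 <| by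
    rw [← ENNReal.ofReal_toReal hp, h]; simp
  rcases lt_or_gt_of_ne hr2 with h | h
  · exact gadget_lower hp hr1 h hN hA hA1 hρ
  · exact gadget_upper hp h hN hA hA1 hρ

end Pool.Agent.P.MP_f981b0_an
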