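import Mathlib
import Pool.Agent.P.MP_f981b0_an.Gadget

set_option autoImplicit false

noncomputable section

namespace Pool.Agent.P.MP_f981b0_an

open Real Finset Filter Topology
open scoped ENNReal ComplexOrder

variable {p : ℝ≥0∞} [Fact (1 ≤ p)]

/-- The moment sequence is small in `ℓ^p`. -/
def Good (x : X p) (φ : X p →L[ℂ] ℂ) (η : ℝ) (T : X p →L[ℂ] X p) : Prop :=
  ∀ M, ∑ k ∈ range M, ‖φ ((T ^ k) x)‖ ^ p.toReal ≤ η ^ p.toReal

/-- A weighted backward shift on a block of coordinates. -/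
def blk (p : ℝ≥0∞) [Fact (1 ≤ p)] (N L : ℕ) (τ : ℝ) : X p →L[ℂ] X p :=
  ∑ i ∈ Ico N (N + L), ((τ : ℂ) • ev p (i + 1)).smulRight (e p i)

lemma blk_apply (N L : ℕ) (τ : ℝ) (v : X p) :
    blk p N L τ v = ∑ i ∈ Ico N (N + L), ((τ : ℂ) * v (i + 1)) • e p i := by
  simp [blk]

lemma blk_coord (N L : ℕ) (τ : ℝ) (v : X p) (i : ℕ) :
    blk p N L τ v i = if N ≤ i ∧ i < N + L then (τ : ℂ) * v (i + 1) else 0 := by
  rw [blk_apply, sum_e_coord (c := fun i => (τ : ℂ) * v (i + 1))]; simp

lemma blk_norm (hp : p ≠ ⊤) (N L : ℕ) {τ : ℝ} (hτ : 0 ≤ τ) (v : X p) :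
    ‖blk p N L τ v‖ ^ p.toReal ≤ τ ^ p.toReal * ‖v - P p N v‖ ^ p.toReal := by
  rw [blk_apply, norm_sum_e_rpow hp (c := fun i => (τ : ℂ) * v (i + 1))]
  have h1 := lp.sum_rpow_le_norm_rpow (r_pos hp) (v - P p N v) (Ico (N + 1) (N + L + 1))
  rw [← Finset.sum_Ico_add' (fun j => ‖(v - P p N v) j‖ ^ p.toReal) N (N + L) 1] at h1
  refine le_trans (le_of_eq ?_) (mul_le_mul_of_nonneg_left h1 (by positivity))
  rw [mul_sum]
  refine sum_congr rfl fun i hi => ?_
  have := (mem_Ico.1 hi).1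
  rw [norm_mul, Complex.norm_of_nonneg hτ, mul_rpow hτ (norm_nonneg _), sub_coord, P_coord,
    if_neg (by omega), sub_zero]

lemma P_blk (N L : ℕ) (τ : ℝ) (v : X p) : P p N (blk p N L τ v) = 0 :=
  P_eq_zero_iff.2 fun i hi => by rw [blk_coord, if_neg (by omega)]

lemma blk_of_P {N : ℕ} (L : ℕ) (τ : ℝ) {v : X p} (hv : P p N v = v) : blk p N L τ v = 0 := by
  ext i
  rw [blk_coord]
  split_ifs with h
  · rw [P_eq_self_iff.1 hv (i + 1) (by omega)]; simp
  · rfl

lemma blk_supp (N L : ℕ) (τ : ℝ) : Supp (N + L + 1) (blk p N L τ) := fun v => by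
  constructor
  · exact P_eq_self_iff.2 fun i hi => by rw [blk_coord, if_neg (by omega)]
  · ext i
    rw [blk_coord, blk_coord, P_coord]
    split_ifs with h1 h2
    · rfl
    · omega
    · rfl

lemma blk_pow_coord (N L : ℕ) (τ : ℝ) {u : X p} (hu : P p (N + L) u = u) (k i : ℕ) (hi : N ≤ i) :
    ((blk p N L τ ^ k) u) i = (τ : ℂ) ^ k * u (i + k) := by
  induction k generalizing i with
  | zero => simp
  | succ k ih =>
    rw [pow_succ', mul_apply_eq_comp, blk_coord]
    split_ifs with h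
    · rw [ih (i + 1) (by omega), pow_succ', mul_assoc, show i + 1 + k = i + (k + 1) by ring]
    · rw [P_eq_self_iff.1 hu _ (by omega), mul_zero]

lemma block (hp : p ≠ ⊤) {N : ℕ} {T : X p →L[ℂ] X p} (hT : Supp N T) (hT1 : ‖T‖ < 1) {x : X p}
    (hx : P p N x = x) {φ : X p →L[ℂ] ℂ} (hφ : ∀ v, φ (P p N v) = φ v) {η c η' : ℝ} (hη : 0 ≤ η)
    (hc : 0 < c) (hη' : 0 < η') (hgood : Good x φ η T) {S : Set ℂ} (hS : Dense S) :
    ∃ (N' : ℕ) (A : X p →L[ℂ] X p) (u : X p), N < N' ∧ Supp N' A ∧ ‖A‖ < 1 ∧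
      (∀ v, A (P p N v) = T v) ∧ (∀ v, P p N (A v) = T v) ∧ P p N u = 0 ∧ P p N' u = u ∧
      (∀ i, u i ∈ S ∨ u i = 0) ∧ ‖u‖ ≤ 2 * η / c + η' ∧
      Good (x + u) (φ + (c : ℂ) • ev p N) η' A ∧ (IsPos T → IsPos A) := by
  have hr := r_pos hp
  set m : ℕ → ℂ := fun k => φ ((T ^ k) x) with hm
  have hsum : Summable fun k => ‖m k‖ ^ p.toReal :=
    summable_of_sum_range_le (fun k => by positivity) hgood
  have hη'r : 0 < η' ^ p.toReal := by positivity
  obtain ⟨s, hs⟩ := summable_iff_vanishing_norm.1 hsum (η' ^ p.toReal / 2) (by positivity)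
  set L : ℕ := s.sup id + 1 with hL
  have hL0 : (0 : ℝ) < L := by rw [hL]; positivity
  set τ : ℝ := (1 / 2) ^ (L : ℝ)⁻¹ with hτ
  have hτ0 : 0 < τ := by positivity
  have hτ1 : τ < 1 := rpow_lt_one (by norm_num) (by norm_num) (by positivity)
  have hτk : ∀ k < L, 1 / 2 ≤ τ ^ k := fun k hk => by
    have h1 : τ ^ L = 1 / 2 := by
      rw [← rpow_natCast, hτ, rpow_inv_rpow (by norm_num) hL0.ne']
    rw [← h1]; exact pow_le_pow_of_le_one hτ0.le hτ1.le hk.le
  set κ : ℝ := min (η' / L) ((η' ^ p.toReal / (2 * L)) ^ p.toReal⁻¹ / c) with hκ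
  have hκ0 : 0 < κ := by positivity
  have hκ1 : L * κ ≤ η' := by
    have := min_le_left (η' / L) ((η' ^ p.toReal / (2 * L)) ^ p.toReal⁻¹ / c)
    rw [← hκ, le_div_iff₀ hL0] at this; linarith
  have hκ2 : L * (c * κ) ^ p.toReal ≤ η' ^ p.toReal / 2 := by
    have h1 := min_le_right (η' / L) ((η' ^ p.toReal / (2 * L)) ^ p.toReal⁻¹ / c)
    rw [← hκ, le_div_iff₀ hc, mul_comm] at h1
    have h2 := rpow_le_rpow (by positivity) h1 hr.le
    rw [rpow_inv_rpow (by positivity) hr.ne', le_div_iff₀ (by positivity)] at h2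
    linarith
  set ρ : ℕ → ℂ := fun k => -m k / (c * τ ^ k) with hρ
  have hex : ∀ k, ∃ z ∈ S, ‖z - ρ k‖ ≤ κ := fun k => by
    obtain ⟨z, hz, hz'⟩ := Metric.dense_iff.1 hS (ρ k) κ hκ0
    exact ⟨z, hz', by rw [← dist_eq_norm]; exact (Metric.mem_ball.1 hz).le⟩
  choose z hzS hz using hex
  set u : X p := ∑ i ∈ Ico N (N + L), z (i - N) • e p i with hu
  have hucoord : ∀ i, u i = if N ≤ i ∧ i < N + L then z (i - N) else 0 := fun i => by
    rw [hu, sum_e_coord (c := fun i => z (i - N))]; simp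
  have hPu0 : P p N u = 0 := P_eq_zero_iff.2 fun i hi => by rw [hucoord, if_neg (by omega)]
  have hPu : P p (N + L) u = u := P_eq_self_iff.2 fun i hi => by rw [hucoord, if_neg (by omega)]
  set B := blk p N L τ with hB
  have hTu : ∀ w, P p N w = 0 → T w = 0 := fun w hw => by rw [← (hT w).2, hw, map_zero]
  have hpow : ∀ k, ((T + B) ^ k) (x + u) = (T ^ k) x + (B ^ k) u ∧
      P p N ((T ^ k) x) = (T ^ k) x ∧ P p N ((B ^ k) u) = 0 := fun k => by
    induction k with
    | zero => simp [hx, hPu0]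
    | succ k ih =>
      simp only [pow_succ', mul_apply_eq_comp]
      refine ⟨?_, (hT _).1, P_blk _ _ _ _⟩
      rw [ih.1, _root_.add_apply, map_add, map_add, hTu _ ih.2.2, hB, blk_of_P L τ ih.2.1]
      simp
  refine ⟨N + L + 1, T + B, u, by omega, fun v => ?_, ?_, fun v => ?_, fun v => ?_, hPu0,
    P_mono hPu (by omega), fun i => ?_, ?_, fun M => ?_, fun h i j => ?_⟩
  · have h1 := hT.mono (show N ≤ N + L + 1 by omega) v
    have h2 := blk_supp (p := p) N L τ v
    simp only [_root_.add_apply, map_add, h1.1, h1.2, hB, h2.1, h2.2, and_self]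
  · refine lt_of_le_of_lt (b := max ‖T‖ τ) ?_ (max_lt hT1 hτ1)
    have hγ : 0 ≤ max ‖T‖ τ := le_max_of_le_right hτ0.le
    refine ContinuousLinearMap.opNorm_le_bound _ hγ fun v => ?_
    refine le_of_rpow_le hp (norm_nonneg _) (by positivity) ?_
    rw [_root_.add_apply, norm_add_rpow_P hp (hT v).1 (P_blk _ _ _ _),
      mul_rpow hγ (norm_nonneg _), ← norm_P_rpow hp N v, mul_add]
    refine add_le_add ?_ ((blk_norm hp N L hτ0.le v).trans ?_)
    · rw [← mul_rpow hγ (norm_nonneg _)]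
      exact rpow_le_rpow (norm_nonneg _) ((hT.norm_le v).trans
        (mul_le_mul_of_nonneg_right (le_max_left _ _) (norm_nonneg _))) hr.le
    · exact mul_le_mul_of_nonneg_right (rpow_le_rpow hτ0.le (le_max_right _ _) hr.le)
        (by positivity)
  · rw [_root_.add_apply, (hT v).2, hB, blk_of_P L τ (P_P N v), add_zero]
  · rw [_root_.add_apply, map_add, (hT v).1, hB, P_blk, add_zero]
  · rw [hucoord]; split_ifs
    exacts [Or.inl (hzS _), Or.inr rfl]
  · have e1 : u = ∑ i ∈ Ico N (N + L), ρ (i - N) • e p i +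
        ∑ i ∈ Ico N (N + L), (z (i - N) - ρ (i - N)) • e p i := by
      rw [hu, ← sum_add_distrib]
      exact sum_congr rfl fun i _ => by rw [← add_smul]; congr 1; ring
    rw [e1]
    refine (norm_add_le _ _).trans (add_le_add ?_ ?_)
    · refine le_of_rpow_le hp (norm_nonneg _) (by positivity) ?_
      rw [norm_sum_e_rpow hp (c := fun i => ρ (i - N)), Finset.sum_Ico_eq_sum_range,
        Nat.add_sub_cancel_left, show 2 * η / c = 2 / c * η by ring,
        mul_rpow (by positivity) hη]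
      refine le_trans ?_ (mul_le_mul_of_nonneg_left (hgood L) (by positivity))
      rw [mul_sum]
      refine sum_le_sum fun k hk => ?_
      rw [Nat.add_sub_cancel_left, ← mul_rpow (by positivity) (norm_nonneg _)]
      refine rpow_le_rpow (norm_nonneg _) ?_ hr.le
      have h1 := hτk k (mem_range.1 hk)
      simp only [hρ, norm_div, norm_neg, norm_mul, norm_pow, Complex.norm_of_nonneg hc.le,
        Complex.norm_of_nonneg hτ0.le]
      rw [div_le_iff₀ (by positivity)]
      have h2 : 2 / c * ‖m k‖ * (c * τ ^ k) = ‖m k‖ * (2 * τ ^ k) := by field_simp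
      rw [h2]
      exact le_mul_of_one_le_right (norm_nonneg _) (by linarith)
    · refine (norm_sum_le _ _).trans (le_trans ?_ hκ1)
      calc ∑ i ∈ Ico N (N + L), ‖(z (i - N) - ρ (i - N)) • e p i‖ ≤ ∑ _i ∈ Ico N (N + L), κ :=
            sum_le_sum fun i _ => by rw [norm_smul, norm_e, mul_one]; exact hz _
        _ = L * κ := by simp
  · have hval : ∀ k, (φ + (c : ℂ) • ev p N) (((T + B) ^ k) (x + u)) =
        m k + c * (τ ^ k * u (N + k)) := fun k => by
      obtain ⟨h1, h2, h3⟩ := hpow k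
      rw [h1, _root_.add_apply, map_add, _root_.smul_apply, ev_apply, add_coord,
        P_eq_self_iff.1 h2 N le_rfl, ← hφ ((B ^ k) u), h3, map_zero, hB,
        blk_pow_coord N L τ hPu k N le_rfl]
      simp [hm]
    have hb : ∀ k, ‖(φ + (c : ℂ) • ev p N) (((T + B) ^ k) (x + u))‖ ^ p.toReal ≤
        (if k < L then (c * κ) ^ p.toReal else 0) + (if L ≤ k then ‖m k‖ ^ p.toReal else 0) := by
      intro k
      rw [hval, hucoord]
      rcases lt_or_ge k L with h | h
      · rw [if_pos (by omega), if_pos h, if_neg (by omega), add_zero, Nat.add_sub_cancel_left]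
        refine rpow_le_rpow (norm_nonneg _) ?_ hr.le
        have h1 : (c : ℂ) ≠ 0 := Complex.ofReal_ne_zero.2 hc.ne'
        have h2 : (τ : ℂ) ≠ 0 := Complex.ofReal_ne_zero.2 hτ0.ne'
        have e1 : m k + c * (τ ^ k * z k) = c * (τ ^ k * (z k - ρ k)) := by
          simp only [hρ]; field_simp; ring
        rw [e1, norm_mul, norm_mul, norm_pow, Complex.norm_of_nonneg hc.le,
          Complex.norm_of_nonneg hτ0.le]
        refine mul_le_mul_of_nonneg_left ?_ hc.le
        calc τ ^ k * ‖z k - ρ k‖ ≤ 1 * κ :=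
              mul_le_mul (pow_le_one₀ hτ0.le hτ1.le) (hz k) (norm_nonneg _) zero_le_one
          _ = κ := one_mul _
      · rw [if_neg (by omega), if_neg (by omega), if_pos h]; simp
    refine (sum_le_sum fun k _ => hb k).trans ?_
    rw [sum_add_distrib, ← sum_filter, ← sum_filter]
    have h1 : ∑ _k ∈ (range M).filter (· < L), (c * κ) ^ p.toReal ≤ η' ^ p.toReal / 2 := by
      refine le_trans ?_ hκ2
      rw [sum_const, nsmul_eq_mul]
      refine mul_le_mul_of_nonneg_right ?_ (by positivity)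
      have : ((range M).filter (· < L)).card ≤ (range L).card :=
        card_le_card fun k hk => mem_range.2 (mem_filter.1 hk).2
      rw [card_range] at this
      exact_mod_cast this
    have h2 := hs ((range M).filter (L ≤ ·)) (by
      rw [Finset.disjoint_left]
      intro k hk hks
      have h3 := (mem_filter.1 hk).2
      have h4 : k ≤ s.sup id := Finset.le_sup (f := id) hks
      omega)
    have h3 := (le_abs_self _).trans_lt h2
    linarith
  · rw [_root_.add_apply, add_coord, hB, blk_coord]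
    refine add_nonneg (h i j) ?_
    split_ifs
    · refine mul_nonneg (Complex.zero_le_real.2 hτ0.le) ?_
      rw [e_apply]; split_ifs; exacts [zero_le_one, le_rfl]
    · exact le_rfl

end Pool.Agent.P.MP_f981b0_an
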