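import Pool.Agent.P.MP_f981b0_an.ShiftCyc
import Pool.Agent.P.MP_f981b0_an.BlockChain

set_option autoImplicit false

namespace Pool.Agent.P.MP_f981b0_an.Blk

open scoped InnerProductSpace
open Submodule Complex Real

section

variable {N : ℕ} [NeZero N] {E : Type*} [NormedAddCommGroup E] [InnerProductSpace ℂ E]

/-- Square summable functions on the cyclic group with values in `E`. -/
abbrev HH (N : ℕ) (E : Type*) := PiLp 2 fun _ : ZMod N => E

/-- Multiplication by the roots of unity. -/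
noncomputable def posOp (N : ℕ) [NeZero N] (E : Type*) [NormedAddCommGroup E]
    [InnerProductSpace ℂ E] : HH N E →ₗ[ℂ] HH N E where
  toFun a := WithLp.toLp 2 fun i => zr i • a i
  map_add' a b := by ext i; simp [smul_add]
  map_smul' c a := by ext i; simp [smul_comm c]

lemma posOp_apply (a : HH N E) (i : ZMod N) : posOp N E a i = zr i • a i := rfl

lemma posOp_inner (a b : HH N E) : ⟪posOp N E a, posOp N E b⟫_ℂ = ⟪a, b⟫_ℂ := by
  simp only [PiLp.inner_apply, posOp_apply, inner_smul_left, inner_smul_right]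
  refine Finset.sum_congr rfl fun i _ => ?_
  have h : zr i * (starRingEnd ℂ) (zr i) = 1 := by
    rw [Complex.mul_conj, Complex.normSq_eq_norm_sq, norm_zr]; simp
  linear_combination ⟪a i, b i⟫_ℂ * h

/-- Weighted cyclic translation with a matrix coefficient. -/
noncomputable def trOp (W : ZMod N → E ≃ₗ[ℂ] E) (k : ZMod N) (C : E →ₗ[ℂ] E) :
    HH N E →ₗ[ℂ] HH N E where
  toFun a := WithLp.toLp 2 fun i => W i (C ((W (i - k)).symm (a (i - k))))
  map_add' a b := by ext i; simp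
  map_smul' c a := by ext i; simp

omit [NeZero N] in
lemma trOp_apply (W : ZMod N → E ≃ₗ[ℂ] E) (k : ZMod N) (C : E →ₗ[ℂ] E) (a : HH N E)
    (i : ZMod N) : trOp W k C a i = W i (C ((W (i - k)).symm (a (i - k)))) := rfl

/-- The eigenspaces of the weighted cyclic translations. -/
noncomputable def eigv (W : ZMod N → E ≃ₗ[ℂ] E) (j : ℤ) : E →ₗ[ℂ] HH N E where
  toFun e := WithLp.toLp 2 fun i => zr i ^ j • W i e
  map_add' a b := by ext i; simp [smul_add]
  map_smul' c a := by ext i; simp [smul_comm c]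

lemma eigv_apply (W : ZMod N → E ≃ₗ[ℂ] E) (j : ℤ) (e : E) (i : ZMod N) :
    eigv W j e i = zr i ^ j • W i e := rfl

lemma posOp_eigv (W : ZMod N → E ≃ₗ[ℂ] E) (j : ℤ) (e : E) :
    posOp N E (eigv W j e) = eigv W (j + 1) e := by
  ext i
  rw [posOp_apply, eigv_apply, eigv_apply, zpow_add_one₀ (zr_ne i), smul_smul, mul_comm]

lemma trOp_eigv (W : ZMod N → E ≃ₗ[ℂ] E) (k : ZMod N) (C : E →ₗ[ℂ] E) (j : ℤ) (e : E) :
    trOp W k C (eigv W j e) = (zr (-k) ^ j) • eigv W j (C e) := by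
  ext i
  rw [trOp_apply, eigv_apply, PiLp.smul_apply, eigv_apply, map_smul, LinearEquiv.symm_apply_apply,
    map_smul, map_smul, sub_eq_add_neg, zr_add, mul_zpow, smul_smul, mul_comm]

lemma trOp_kry (W : ZMod N → E ≃ₗ[ℂ] E) (k : ZMod N) (C : E →ₗ[ℂ] E) (m : ℕ) {a : HH N E}
    (ha : a ∈ kry (eigv W) m) : trOp W k C a ∈ kry (eigv W) m := by
  induction ha using span_induction with
  | mem x hx =>
    obtain ⟨j, h0, h1, e, rfl⟩ := hx
    rw [trOp_eigv]
    exact smul_mem _ _ (mem_kry _ h0 h1 _)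
  | zero => simp
  | add x y _ _ hx hy => rw [map_add]; exact add_mem hx hy
  | smul a x _ hx => rw [map_smul]; exact smul_mem _ _ hx

variable [FiniteDimensional ℂ E]

lemma kry_eigv_top (W : ZMod N → E ≃ₗ[ℂ] E) : kry (eigv W) N = ⊤ := by
  rw [← Submodule.orthogonal_eq_bot_iff, eq_bot_iff]
  intro g hg
  let B : Fin N ≃ ZMod N := (ZMod.finEquiv N).toEquiv
  have h1 : ∀ e : E, (fun s : Fin N => ⟪g (B s), W (B s) e⟫_ℂ) = 0 := by
    intro e
    refine Matrix.eq_zero_of_forall_pow_sum_mul_pow_eq_zero (f := fun s => zr (B s))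
      (zr_inj.comp B.injective) fun t => ?_
    have h2 : ⟪g, eigv W (t : ℕ) e⟫_ℂ = 0 :=
      (Submodule.mem_orthogonal' _ _).1 hg _
        (mem_kry _ (by positivity) (by exact_mod_cast t.2) e)
    simp only [PiLp.inner_apply, eigv_apply, inner_smul_right, zpow_natCast] at h2
    rw [← h2, ← B.sum_comp]
    refine Finset.sum_congr rfl fun s _ => ?_
    ring
  rw [Submodule.mem_bot]
  ext i
  have h3 := congrFun (h1 ((W i).symm (g i))) (B.symm i)
  simp only [Equiv.apply_symm_apply, Pi.zero_apply, LinearEquiv.apply_symm_apply,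
    inner_self_eq_zero] at h3
  simpa using h3

omit [FiniteDimensional ℂ E] in
lemma moment_bound (p : HH N E) (h : ‖posOp N E p - p‖ ≤ 8 * π / N) :
    ∑ i : ZMod N, (i.valMinAbs : ℝ) ^ 2 * ‖p i‖ ^ 2 ≤ 40 := by
  have hN : (0 : ℝ) < N := Nat.cast_pos.2 (NeZero.pos N)
  have h1 : ‖posOp N E p - p‖ ^ 2 ≤ (8 * π / N) ^ 2 := pow_le_pow_left₀ (norm_nonneg _) h 2
  rw [PiLp.norm_sq_eq_of_L2] at h1
  have h2 : ∑ i : ZMod N, (4 / N : ℝ) ^ 2 * ((i.valMinAbs : ℝ) ^ 2 * ‖p i‖ ^ 2) ≤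
      ∑ i, ‖(posOp N E p - p) i‖ ^ 2 := by
    refine Finset.sum_le_sum fun i _ => ?_
    have e : (posOp N E p - p) i = (zr i - 1) • p i := by
      rw [PiLp.sub_apply, posOp_apply, sub_smul, one_smul]
    rw [e, norm_smul, mul_pow]
    have h3 := pow_le_pow_left₀ (by positivity) (zr_lower i) 2
    have e2 : (4 * |(i.valMinAbs : ℝ)| / N) ^ 2 = (4 / N : ℝ) ^ 2 * (i.valMinAbs : ℝ) ^ 2 := by
      rw [← sq_abs (i.valMinAbs : ℝ)]; ring
    rw [e2] at h3
    nlinarith [sq_nonneg ‖p i‖]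
  rw [← Finset.mul_sum] at h2
  have h4 := h2.trans h1
  have e3 : (8 * π / N) ^ 2 = (4 / N : ℝ) ^ 2 * (4 * π ^ 2) := by ring
  rw [e3] at h4
  have h5 := le_of_mul_le_mul_left h4 (by positivity)
  have := Real.pi_lt_d2
  nlinarith [pi_pos]

/-- The finite cyclic model. -/
theorem cyclic_model [Nontrivial E] (hN : 5 ≤ N) (W : ZMod N → E ≃ₗ[ℂ] E) :
    ∃ p g : ZMod N → E,
      1 / 2 ≤ ∑ i, ‖p i‖ ^ 2 ∧ ∑ i, ‖p i‖ ^ 2 ≤ 1 ∧
      ∑ i : ZMod N, (i.valMinAbs : ℝ) ^ 2 * ‖p i‖ ^ 2 ≤ 40 ∧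
      1 / 2 ≤ ∑ i, ‖g i‖ ^ 2 ∧ ∑ i, ‖g i‖ ^ 2 ≤ 1 ∧
      ∑ i : ZMod N, (i.valMinAbs : ℝ) ^ 2 * ‖g i‖ ^ 2 ≤ 40 ∧
      ∀ (k : ZMod N) (C : E →ₗ[ℂ] E),
        ∑ i, ⟪g (i + k), W (i + k) (C ((W i).symm (p i)))⟫_ℂ = 0 := by
  classical
  have hN0 : (0 : ℝ) < N := Nat.cast_pos.2 (NeZero.pos N)
  let ι : Fin 5 → ZMod N := fun t => ((t : ℕ) : ZMod N)
  have hι : Function.Injective ι := by
    intro s t h
    have h1 := (ZMod.natCast_eq_natCast_iff' _ _ _).1 h
    rw [Nat.mod_eq_of_lt (by omega), Nat.mod_eq_of_lt (by omega)] at h1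
    exact Fin.ext h1
  let J : (Fin 5 → E) →ₗ[ℂ] HH N E :=
    { toFun := fun c => WithLp.toLp 2 (Function.extend ι c 0)
      map_add' := fun a b => by
        ext i
        by_cases hi : ∃ t, ι t = i
        · obtain ⟨t, rfl⟩ := hi
          simp [hι.extend_apply]
        · simp [Function.extend_apply' _ _ _ hi]
      map_smul' := fun c a => by
        ext i
        by_cases hi : ∃ t, ι t = i
        · obtain ⟨t, rfl⟩ := hi
          simp [hι.extend_apply]
        · simp [Function.extend_apply' _ _ _ hi] }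
  have hJ : Function.Injective J := by
    intro a b h
    ext t
    have h1 : J a (ι t) = J b (ι t) := by rw [h]
    simpa [J, hι.extend_apply] using h1
  have hF : 4 * Module.finrank ℂ E < Module.finrank ℂ (LinearMap.range J) := by
    rw [LinearMap.finrank_range_of_inj hJ, Module.finrank_pi_fintype]
    have : 0 < Module.finrank ℂ E := Module.finrank_pos
    simp
    omega
  have hε : ∀ c ∈ LinearMap.range J, ‖posOp N E c - c‖ ≤ 8 * π / N * ‖c‖ := by
    rintro c ⟨a, rfl⟩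
    refine le_of_sq_le_sq ?_ (by positivity)
    rw [mul_pow, PiLp.norm_sq_eq_of_L2, PiLp.norm_sq_eq_of_L2, Finset.mul_sum]
    refine Finset.sum_le_sum fun i _ => ?_
    have e : (posOp N E (J a) - J a) i = (zr i - 1) • J a i := by
      rw [PiLp.sub_apply, posOp_apply, sub_smul, one_smul]
    rw [e, norm_smul, mul_pow]
    by_cases hi : ∃ t, ι t = i
    · obtain ⟨t, rfl⟩ := hi
      have h1 := zr_upper (N := N) ((t : ℕ) : ℤ)
      have h2 : ‖zr (ι t) - 1‖ ≤ 8 * π / N := by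
        have e2 : (((t : ℕ) : ℤ) : ZMod N) = ι t := by simp [ι]
        rw [e2] at h1
        refine h1.trans (div_le_div_of_nonneg_right ?_ hN0.le)
        have h3 : |((((t : ℕ) : ℤ)) : ℝ)| ≤ 4 := by
          have : (t : ℕ) ≤ 4 := by omega
          rw [Int.cast_natCast, Nat.abs_cast]
          exact_mod_cast this
        nlinarith [pi_pos]
      exact mul_le_mul_of_nonneg_right (pow_le_pow_left₀ (norm_nonneg _) h2 2) (sq_nonneg _)
    · have : J a i = 0 := by simp [J, Function.extend_apply' _ _ _ hi]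
      rw [this]; simp
  obtain ⟨m, p, hp, g, hg, p1, p2, p3, g1, g2, g3⟩ := chain_lemma (posOp N E) posOp_inner (eigv W)
    (posOp_eigv W) N (kry_eigv_top W) _ hF _ hε
  refine ⟨fun i => p i, fun i => g i, ?_, ?_, moment_bound p p3, ?_, ?_, moment_bound g g3,
    fun k C => ?_⟩
  · rwa [← PiLp.norm_sq_eq_of_L2]
  · rw [← PiLp.norm_sq_eq_of_L2]; nlinarith [norm_nonneg p]
  · rwa [← PiLp.norm_sq_eq_of_L2]
  · rw [← PiLp.norm_sq_eq_of_L2]; nlinarith [norm_nonneg g]
  · have h1 : ⟪g, trOp W k C p⟫_ℂ = 0 :=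
      (Submodule.mem_orthogonal' _ _).1 hg _ (trOp_kry W k C m hp)
    simp only [PiLp.inner_apply, trOp_apply] at h1
    rw [← h1]
    refine Fintype.sum_equiv (Equiv.addRight k) _ _ fun i => ?_
    simp only [Equiv.coe_addRight, add_sub_cancel_right]

end

end Pool.Agent.P.MP_f981b0_an.Blk
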