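import Pool.Agent.P.MP_f981b0_an.ShiftCore
import Pool.Agent.P.MP_f981b0_an.BlockCyc

set_option autoImplicit false

namespace Pool.Agent.P.MP_f981b0_an.Blk

open Filter Topology Finset
open scoped InnerProductSpace

section

variable {E : Type*} [NormedAddCommGroup E]

lemma tail_le {N : ℕ} [NeZero N] (p : ZMod N → E)
    (hp : ∑ i : ZMod N, (i.valMinAbs : ℝ) ^ 2 * ‖p i‖ ^ 2 ≤ 40) (R : ℕ) :
    ((R : ℝ) + 1) ^ 2 * ∑ i ∈ univ.filter (fun i : ZMod N => ¬ |i.valMinAbs| ≤ R), ‖p i‖ ^ 2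
      ≤ 40 := by
  have := Pool.Agent.P.MP_f981b0_an.tail_le (fun i => ((‖p i‖ : ℝ) : ℂ)) (by simpa using hp) R
  simpa using this

/-- The properties of one of the two sequences at level `L`. -/
def Loc (L : ℕ) (p : ℤ → E) : Prop :=
  Pool.Agent.P.MP_f981b0_an.Loc L fun y => ((‖p y‖ : ℝ) : ℂ)

lemma Loc.le_one {L : ℕ} {p : ℤ → E} (h : Loc L p) (y : ℤ) : ‖p y‖ ≤ 1 := by
  simpa using h.1 y

lemma loc_of {L : ℕ} [NeZero (4 * L)] (hL : 13 ≤ L) (p : ZMod (4 * L) → E)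
    (h1 : 1 / 2 ≤ ∑ i, ‖p i‖ ^ 2) (h2 : ∑ i, ‖p i‖ ^ 2 ≤ 1)
    (h3 : ∑ i : ZMod (4 * L), (i.valMinAbs : ℝ) ^ 2 * ‖p i‖ ^ 2 ≤ 40) :
    Loc L fun y => p (y : ZMod (4 * L)) :=
  Pool.Agent.P.MP_f981b0_an.loc_of hL (fun i => ((‖p i‖ : ℝ) : ℂ)) (by simpa using h1)
    (by simpa using h2) (by simpa using h3)

lemma loc_lim {f : ℕ → ℤ → E} (hf : ∀ n, Loc (n + 13) (f n)) {p : ℤ → E}
    (hp : ∀ y, Tendsto (fun n => f n y) (hyperfilter ℕ) (𝓝 (p y))) :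
    (∀ y, ‖p y‖ ≤ 1) ∧ Summable (fun y => ‖p y‖) ∧ p ≠ 0 := by
  obtain ⟨h1, h2, h3⟩ := Pool.Agent.P.MP_f981b0_an.loc_lim hf
    (p := fun y => ((‖p y‖ : ℝ) : ℂ))
    (fun y => (Complex.continuous_ofReal.tendsto _).comp (hp y).norm)
  refine ⟨fun y => by simpa using h1 y, by simpa using h2, ?_⟩
  rintro rfl
  apply h3
  ext y
  simp

variable [InnerProductSpace ℂ E] [FiniteDimensional ℂ E]

lemma exists_ulim (f : ℕ → ℤ → E) (hf : ∀ n y, ‖f n y‖ ≤ 1) :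
    ∃ p : ℤ → E, ∀ y, Tendsto (fun n => f n y) (hyperfilter ℕ) (𝓝 (p y)) := by
  have : ProperSpace E := FiniteDimensional.proper ℂ E
  have : ∀ y, ∃ x : E, Tendsto (fun n => f n y) (hyperfilter ℕ) (𝓝 x) := by
    intro y
    obtain ⟨x, -, hx⟩ := (isCompact_closedBall (0 : E) 1).ultrafilter_le_nhds
      ((hyperfilter ℕ).map fun n => f n y) (by
        rw [Ultrafilter.coe_map, le_principal_iff, Filter.mem_map]
        exact univ_mem' fun n => by simpa using hf n y)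
    exact ⟨x, hx⟩
  exact ⟨fun y => (this y).choose, fun y => (this y).choose_spec⟩

omit [FiniteDimensional ℂ E] in
lemma term_le {W : ℤ → E ≃ₗ[ℂ] E} {K : ℝ} (hK : 0 ≤ K)
    (h1 : ∀ n v, ‖W (n + 1) v‖ ≤ K * ‖W n v‖) (h2 : ∀ n v, ‖W n v‖ ≤ K * ‖W (n + 1) v‖)
    {C : E →ₗ[ℂ] E} {B : ℝ} (hC : ∀ n v, ‖W n (C v)‖ ≤ B * ‖W n v‖) (k y : ℤ) (a : E) :
    ‖W (y + k) (C ((W y).symm a))‖ ≤ K ^ k.natAbs * B * ‖a‖ := by
  have a1 := ratio_le (D := fun n => ‖W n (C ((W y).symm a))‖) hK (fun n => h1 n _)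
    (fun n => h2 n _) k y
  have a2 := hC y ((W y).symm a)
  rw [LinearEquiv.apply_symm_apply] at a2
  rw [mul_assoc]
  exact a1.trans (mul_le_mul_of_nonneg_left a2 (pow_nonneg hK _))

theorem level_model [Nontrivial E] {W : ℤ → E ≃ₗ[ℂ] E} {K : ℝ} (hK : 0 ≤ K)
    (h1 : ∀ n v, ‖W (n + 1) v‖ ≤ K * ‖W n v‖) (h2 : ∀ n v, ‖W n v‖ ≤ K * ‖W (n + 1) v‖)
    {L : ℕ} (hL : 13 ≤ L) :
    ∃ p g : ℤ → E, Loc L p ∧ Loc L g ∧ ∀ (k : ℤ) (C : E →ₗ[ℂ] E) (B : ℝ), 0 ≤ B →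
      (∀ n v, ‖W n (C v)‖ ≤ B * ‖W n v‖) → ∀ R : ℕ, R + k.natAbs ≤ L →
      ‖∑ y ∈ Icc (-(R : ℤ)) R, ⟪g (y + k), W (y + k) (C ((W y).symm (p y)))⟫_ℂ‖ ≤
        K ^ k.natAbs * B * 21 / (R + 1) := by
  have : NeZero (4 * L) := ⟨by omega⟩
  let d : ZMod (4 * L) → E ≃ₗ[ℂ] E := fun i => W (tri L i.valMinAbs)
  have hdc : ∀ y : ℤ, d (y : ZMod (4 * L)) = W (tri L y) := fun y => by
    simp only [d]
    rw [tri_congr (ZMod.coe_valMinAbs _)]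
  have hD1 : ∀ n v, ‖W (tri L (n + 1)) v‖ ≤ K * ‖W (tri L n) v‖ := fun n v => by
    rcases tri_step (L := L) (by omega) n with h | h
    · rw [h]; exact h1 _ _
    · rw [h]; exact h2 _ _
  have hD2 : ∀ n v, ‖W (tri L n) v‖ ≤ K * ‖W (tri L (n + 1)) v‖ := fun n v => by
    rcases tri_step (L := L) (by omega) n with h | h
    · rw [h]; exact h2 _ _
    · rw [h]; exact h1 _ _
  obtain ⟨p, g, p1, p2, p3, g1, g2, g3, hz⟩ := cyclic_model (N := 4 * L) (by omega) d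
  refine ⟨fun y => p y, fun y => g y, loc_of hL p p1 p2 p3, loc_of hL g g1 g2 g3,
    fun k C B hB hC R hR => ?_⟩
  have hdr : ∀ (i : ZMod (4 * L)) (a : E),
      ‖d (i + k) (C ((d i).symm a))‖ ≤ K ^ k.natAbs * B * ‖a‖ := by
    intro i a
    have := term_le (W := fun n => W (tri L n)) hK hD1 hD2 (fun n v => hC _ v) k i.valMinAbs a
    rw [← hdc, ← hdc, Int.cast_add, ZMod.coe_valMinAbs] at this
    exact this
  have e : ∑ y ∈ Icc (-(R : ℤ)) R,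
      ⟪g ((y + k : ℤ) : ZMod (4 * L)), W (y + k) (C ((W y).symm (p y)))⟫_ℂ =
      ∑ y ∈ Icc (-(R : ℤ)) R, ⟪g ((y : ZMod (4 * L)) + k),
        d ((y : ZMod (4 * L)) + k) (C ((d y).symm (p y)))⟫_ℂ := by
    refine Finset.sum_congr rfl fun y hy => ?_
    rw [mem_Icc] at hy
    rw [← Int.cast_add, hdc, hdc, tri_eq (by omega) (abs_le.2 ⟨by omega, by omega⟩),
      tri_eq (by omega) (abs_le.2 ⟨by omega, by omega⟩)]
  simp only
  rw [e, sum_Icc_cast (N := 4 * L) (by omega)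
    (fun i : ZMod (4 * L) => ⟪g (i + k), d (i + k) (C ((d i).symm (p i)))⟫_ℂ)]
  have a2 := Finset.sum_filter_add_sum_filter_not univ
    (fun i : ZMod (4 * L) => |i.valMinAbs| ≤ R)
    (fun i => ⟪g (i + k), d (i + k) (C ((d i).symm (p i)))⟫_ℂ)
  rw [hz k C] at a2
  rw [eq_neg_of_add_eq_zero_left a2, norm_neg]
  have a1 := tail_le p p3 R
  set T := univ.filter (fun i : ZMod (4 * L) => ¬ |i.valMinAbs| ≤ R) with hT
  have hR0 : (0 : ℝ) < R + 1 := by positivity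
  have a3 : ∑ i ∈ T, ‖g (i + k)‖ ^ 2 ≤ 1 := by
    refine le_trans (Finset.sum_le_sum_of_subset_of_nonneg (subset_univ _)
      fun i _ _ => by positivity) (le_trans (le_of_eq ?_) g2)
    exact Fintype.sum_equiv (Equiv.addRight (k : ZMod (4 * L))) _ _ fun i => rfl
  have hKk : 0 ≤ K ^ k.natAbs * B := mul_nonneg (pow_nonneg hK _) hB
  have a4 : ∀ i ∈ T, ‖⟪g (i + k), d (i + k) (C ((d i).symm (p i)))⟫_ℂ‖ ≤
      K ^ k.natAbs * B / (2 * (R + 1)) *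
        (((R : ℝ) + 1) ^ 2 * ‖p i‖ ^ 2 + ‖g (i + k)‖ ^ 2) := by
    intro i _
    have b1 : ‖p i‖ * ‖g (i + k)‖ ≤
        1 / (2 * (R + 1)) * (((R : ℝ) + 1) ^ 2 * ‖p i‖ ^ 2 + ‖g (i + k)‖ ^ 2) := by
      rw [one_div, ← div_eq_inv_mul, le_div_iff₀ (by positivity)]
      nlinarith [sq_nonneg (((R : ℝ) + 1) * ‖p i‖ - ‖g (i + k)‖)]
    calc ‖⟪g (i + k), d (i + k) (C ((d i).symm (p i)))⟫_ℂ‖
        ≤ ‖g (i + k)‖ * (K ^ k.natAbs * B * ‖p i‖) :=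
          (norm_inner_le_norm _ _).trans (mul_le_mul_of_nonneg_left (hdr i _) (norm_nonneg _))
      _ = K ^ k.natAbs * B * (‖p i‖ * ‖g (i + k)‖) := by ring
      _ ≤ K ^ k.natAbs * B * (1 / (2 * (R + 1)) *
          (((R : ℝ) + 1) ^ 2 * ‖p i‖ ^ 2 + ‖g (i + k)‖ ^ 2)) :=
          mul_le_mul_of_nonneg_left b1 hKk
      _ = _ := by ring
  refine (norm_sum_le_of_le _ a4).trans ?_
  rw [← Finset.mul_sum, Finset.sum_add_distrib, ← Finset.mul_sum]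
  calc K ^ k.natAbs * B / (2 * (R + 1)) *
        (((R : ℝ) + 1) ^ 2 * ∑ i ∈ T, ‖p i‖ ^ 2 + ∑ i ∈ T, ‖g (i + k)‖ ^ 2)
      ≤ K ^ k.natAbs * B / (2 * (R + 1)) * 42 :=
        mul_le_mul_of_nonneg_left (by linarith) (by positivity)
    _ = _ := by field_simp; ring

/-- The core theorem: a weighted matrix convolution identity with two nonzero summable
sequences. -/
theorem weight_core [Nontrivial E] {W : ℤ → E ≃ₗ[ℂ] E} {K : ℝ} (hK : 0 ≤ K)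
    (h1 : ∀ n v, ‖W (n + 1) v‖ ≤ K * ‖W n v‖) (h2 : ∀ n v, ‖W n v‖ ≤ K * ‖W (n + 1) v‖) :
    ∃ p g : ℤ → E, Summable (fun y => ‖p y‖) ∧ Summable (fun y => ‖g y‖) ∧ p ≠ 0 ∧ g ≠ 0 ∧
      ∀ (k : ℤ) (C : E →ₗ[ℂ] E) (B : ℝ), 0 ≤ B → (∀ n v, ‖W n (C v)‖ ≤ B * ‖W n v‖) →
        ∑' y, ⟪g (y + k), W (y + k) (C ((W y).symm (p y)))⟫_ℂ = 0 := by
  choose P G hP hG hz using fun n : ℕ => level_model hK h1 h2 (L := n + 13) (by omega)
  obtain ⟨p, hp⟩ := exists_ulim P fun n => (hP n).le_one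
  obtain ⟨g, hg⟩ := exists_ulim G fun n => (hG n).le_one
  obtain ⟨-, p2, p3⟩ := loc_lim hP hp
  obtain ⟨g1, g2, g3⟩ := loc_lim hG hg
  refine ⟨p, g, p2, g2, p3, g3, fun k C B hB hC => ?_⟩
  have b : ∀ R : ℕ, ‖∑ y ∈ Icc (-(R : ℤ)) R, ⟪g (y + k), W (y + k) (C ((W y).symm (p y)))⟫_ℂ‖ ≤
      K ^ k.natAbs * B * 21 / (R + 1) := by
    intro R
    have hc : ∀ y, Continuous fun a : E => W (y + k) (C ((W y).symm a)) := fun y =>
      ((W (y + k)).toLinearMap ∘ₗ C ∘ₗ (W y).symm.toLinearMap).continuous_of_finiteDimensional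
    refine le_of_tendsto (tendsto_finsetSum _ fun y _ =>
      (hg (y + k)).inner (((hc y).tendsto _).comp (hp y))).norm ?_
    refine ((eventually_ge_atTop (R + k.natAbs)).filter_mono Nat.hyperfilter_le_atTop).mono
      fun n hn => ?_
    exact hz n k C B hB hC R (by omega)
  have s : Summable fun y => ⟪g (y + k), W (y + k) (C ((W y).symm (p y)))⟫_ℂ := by
    refine Summable.of_norm_bounded (p2.mul_left (K ^ k.natAbs * B)) fun y => ?_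
    refine (norm_inner_le_norm _ _).trans ?_
    exact (mul_le_of_le_one_left (norm_nonneg _) (g1 _)).trans (term_le hK h1 h2 hC k y _)
  have t1 := (s.hasSum.comp (Finset.tendsto_Icc_neg (R := ℤ))).norm
  have t2 : Tendsto (fun R : ℕ => K ^ k.natAbs * B * 21 / ((R : ℝ) + 1)) atTop (𝓝 0) :=
    tendsto_const_nhds.div_atTop (tendsto_atTop_add_const_right _ _ tendsto_natCast_atTop_atTop)
  exact norm_le_zero_iff.1 (le_of_tendsto_of_tendsto' t1 t2 b)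

end

end Pool.Agent.P.MP_f981b0_an.Blk
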