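import Pool.Agent.P.MP_f981b0_an.ShiftOp
import Pool.Agent.P.MP_f981b0_an.BlockCore

set_option autoImplicit false

namespace Pool.Agent.P.MP_f981b0_an.Blk

open Filter Topology
open scoped InnerProductSpace

lemma exists_cumul {G : Type*} [Group G] (a : ℤ → G) :
    ∃ W : ℤ → G, ∀ n, W (n + 1) = a n * W n := by
  let W : ℤ → G := fun n => Int.inductionOn' (motive := fun _ => G) n 0 1
    (fun k _ x => a k * x) (fun k _ x => (a (k - 1))⁻¹ * x)
  refine ⟨W, fun n => ?_⟩
  rcases le_or_gt 0 n with h | h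
  · exact Int.inductionOn'_add_one h
  · have h2 : W (n + 1 - 1) = (a (n + 1 - 1))⁻¹ * W (n + 1) :=
      Int.inductionOn'_sub_one (by omega)
    rw [add_sub_cancel_right] at h2
    rw [h2, mul_inv_cancel_left]

/-- A set of endomorphisms of a finite dimensional space which is closed under the quasi-product
and fixes every given vector contains the identity. -/
lemma one_mem_of_fix {E : Type*} [AddCommGroup E] [Module ℂ E] [FiniteDimensional ℂ E]
    (P : (E →ₗ[ℂ] E) → Prop) (h0 : P 0) (hq : ∀ a b, P a → P b → P (a + b - b * a))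
    (hf : ∀ v, ∃ b, P b ∧ b v = v) : P 1 := by
  obtain ⟨M, ⟨a, ha, rfl⟩, hM⟩ := (set_has_maximal_iff_noetherian.2
    (inferInstance : IsNoetherian ℂ E)) {M | ∃ a, P a ∧ M = LinearMap.ker (1 - a)}
    ⟨_, 0, h0, rfl⟩
  suffices h : a = 1 from h ▸ ha
  ext w
  by_contra hw
  obtain ⟨b, hb, hbw⟩ := hf (w - a w)
  refine hM _ ⟨a + b - b * a, hq a b ha hb, rfl⟩ (lt_of_le_of_ne (fun y hy => ?_) fun h => ?_)
  · have h1 : a y = y := by
      have := LinearMap.mem_ker.1 hy
      rw [LinearMap.sub_apply, Module.End.one_apply, sub_eq_zero] at this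
      exact this.symm
    simp [h1]
  · have h1 : w ∈ LinearMap.ker (1 - (a + b - b * a)) := by
      rw [map_sub] at hbw
      rw [LinearMap.mem_ker]
      simp only [LinearMap.sub_apply, LinearMap.add_apply, Module.End.one_apply,
        Module.End.mul_apply]
      rw [add_sub_assoc, hbw]
      abel
    rw [← h, LinearMap.mem_ker, LinearMap.sub_apply, Module.End.one_apply, sub_eq_zero] at h1
    exact hw h1.symm

section

variable {X : Type*} [NormedAddCommGroup X] [NormedSpace ℂ X]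
  {E : Type*} [NormedAddCommGroup E] [InnerProductSpace ℂ E]

lemma toeplitz {S : X →L[ℂ] X} {u : ℤ → E →L[ℂ] X} {ψ : ℤ → X →L[ℂ] E}
    (hu : ∀ n v, S (u n v) = u (n + 1) v) (hψ : ∀ n x, ψ (n + 1) (S x) = ψ n x)
    {A : X →L[ℂ] X} (hA : A * S = S * A) (k n : ℤ) (v : E) :
    ψ (n + k) (A (u n v)) = ψ k (A (u 0 v)) := by
  have step : ∀ n, ψ (n + 1 + k) (A (u (n + 1) v)) = ψ (n + k) (A (u n v)) := by
    intro n
    have : A (S (u n v)) = S (A (u n v)) := congrArg (fun B : X →L[ℂ] X => B (u n v)) hA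
    rw [← hu, this, add_right_comm, hψ]
  induction n using Int.induction_on with
  | zero => simp
  | succ n ih => rw [step, ih]
  | pred n ih => rw [← step, sub_add_cancel, ih]

variable [CompleteSpace X] [FiniteDimensional ℂ E] [Nontrivial E]

/-- The case of two sided bounds for the weights. -/
theorem pair_main {S : X →L[ℂ] X} {u : ℤ → E →L[ℂ] X} {ψ : ℤ → X →L[ℂ] E}
    {W : ℤ → E ≃ₗ[ℂ] E}
    (hu : ∀ n v, S (u n v) = u (n + 1) v) (hψ : ∀ n x, ψ (n + 1) (S x) = ψ n x)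
    (hbi : ∀ m n v, ψ m (u n v) = if m = n then v else 0) (hW : ∀ n v, ‖u n v‖ ≤ ‖W n v‖)
    {C : ℝ} (hC0 : 0 ≤ C) (hC : ∀ n x, ‖W n (ψ n x)‖ ≤ C * ‖x‖) {K : ℝ} (hK : 0 ≤ K)
    (h1 : ∀ n v, ‖W (n + 1) v‖ ≤ K * ‖W n v‖) (h2 : ∀ n v, ‖W n v‖ ≤ K * ‖W (n + 1) v‖) :
    ∃ x : X, ∃ φ : X →L[ℂ] ℂ, x ≠ 0 ∧ φ ≠ 0 ∧
      ∀ A : X →L[ℂ] X, A * S = S * A → φ (A x) = 0 := by
  obtain ⟨p, g, sp, sg, p0, g0, hz⟩ := weight_core hK h1 h2
  have hent : ∀ (A : X →L[ℂ] X) m n v, ‖W m (ψ m (A (u n v)))‖ ≤ C * ‖A‖ * ‖W n v‖ := by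
    intro A m n v
    refine (hC m _).trans ?_
    rw [mul_assoc]
    exact mul_le_mul_of_nonneg_left ((A.le_opNorm _).trans
      (mul_le_mul_of_nonneg_left (hW n v) (norm_nonneg _))) hC0
  let ξ : ℤ → X := fun n => u n ((W n).symm (p n))
  let γ : ℤ → X →L[ℂ] ℂ := fun n =>
    (innerSL ℂ (g n)).comp (((W n).toContinuousLinearEquiv : E →L[ℂ] E).comp (ψ n))
  have eγ : ∀ n x, γ n x = ⟪g n, W n (ψ n x)⟫_ℂ := fun n x => rfl
  have sx : Summable ξ := by
    refine Summable.of_norm_bounded sp fun n => ?_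
    simpa using hW n ((W n).symm (p n))
  have sφ : Summable γ := by
    refine Summable.of_norm_bounded (sg.mul_right C) fun n => ?_
    refine ContinuousLinearMap.opNorm_le_bound _ (mul_nonneg (norm_nonneg _) hC0) fun x => ?_
    rw [eγ, mul_assoc]
    exact (norm_inner_le_norm _ _).trans (mul_le_mul_of_nonneg_left (hC n x) (norm_nonneg _))
  have evφ : ∀ y : X, (∑' n, γ n) y = ∑' n, γ n y := fun y => by
    have := (ContinuousLinearMap.apply ℂ ℂ y).map_tsum sφ
    simpa using this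
  refine ⟨∑' n, ξ n, ∑' n, γ n, ?_, ?_, fun A hA => ?_⟩
  · intro h
    apply p0
    ext m
    have h1 := (ψ m).map_tsum sx
    rw [h, map_zero, tsum_eq_single m (fun n hn => by rw [hbi, if_neg (Ne.symm hn)]),
      hbi, if_pos rfl] at h1
    simpa using h1.symm
  · intro h
    apply g0
    ext m
    have h1 := evφ (u m ((W m).symm (g m)))
    rw [h, zero_apply,
      tsum_eq_single m (fun n hn => by rw [eγ, hbi, if_neg hn, map_zero, inner_zero_right]),
      eγ, hbi, if_pos rfl, LinearEquiv.apply_symm_apply] at h1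
    simpa using h1.symm
  · let F : ℤ × ℤ → ℂ := fun q => γ q.2 (A (ξ q.1))
    have sF : Summable F := by
      refine Summable.of_norm_bounded
        ((summable_mul_of_summable_norm (f := fun n => ‖p n‖) (g := fun n => ‖g n‖)
          (by simpa using sp) (by simpa using sg)).mul_right (C * ‖A‖)) fun q => ?_
      simp only [F, eγ, ξ]
      have h1 := hent A q.2 q.1 ((W q.1).symm (p q.1))
      rw [LinearEquiv.apply_symm_apply] at h1
      refine (norm_inner_le_norm _ _).trans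
        ((mul_le_mul_of_nonneg_left h1 (norm_nonneg _)).trans (le_of_eq ?_))
      ring
    have e1 : (∑' n, γ n) (A (∑' n, ξ n)) = ∑' q, F q := by
      have := ((∑' n, γ n).comp A).map_tsum sx
      simp only [ContinuousLinearMap.comp_apply] at this
      rw [this, sF.tsum_prod]
      exact tsum_congr fun n => evφ _
    let B : ℤ × ℤ ≃ ℤ × ℤ :=
      { toFun := fun q => (q.2, q.2 + q.1)
        invFun := fun q => (q.2 - q.1, q.1)
        left_inv := fun q => by simp
        right_inv := fun q => by simp }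
    have sFE : Summable fun q => F (B q) := sF.comp_injective B.injective
    rw [e1, ← B.tsum_eq, sFE.tsum_prod]
    refine (tsum_congr fun k => ?_).trans tsum_zero
    let D : E →ₗ[ℂ] E := ((ψ k).comp (A.comp (u 0)) : E →L[ℂ] E)
    have eD : ∀ n v, ψ (n + k) (A (u n v)) = D v := fun n v => toeplitz hu hψ hA k n v
    have e2 : ∀ n, F (B (k, n)) = ⟪g (n + k), W (n + k) (D ((W n).symm (p n)))⟫_ℂ := by
      intro n
      simp only [F, B, Equiv.coe_fn_mk, eγ, ξ, eD]
    simp only [e2]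
    refine hz k D (K ^ (-k).natAbs * (C * ‖A‖)) (by positivity) fun n v => ?_
    have a1 := ratio_le (D := fun n => ‖W n (D v)‖) hK (fun n => h1 n _) (fun n => h2 n _)
      (-k) (n + k)
    have a2 := hent A (n + k) n v
    rw [eD] at a2
    rw [add_neg_cancel_right] at a1
    rw [mul_assoc]
    exact a1.trans (mul_le_mul_of_nonneg_left a2 (pow_nonneg hK _))

/-- The pair of a vector and a functional which are orthogonal along the whole commutant. -/
theorem pair_of_orbit {S : X →L[ℂ] X} {u : ℤ → E →L[ℂ] X} {ψ : ℤ → X →L[ℂ] E}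
    {W : ℤ → E ≃ₗ[ℂ] E}
    (hu : ∀ n v, S (u n v) = u (n + 1) v) (hψ : ∀ n x, ψ (n + 1) (S x) = ψ n x)
    (hbi : ∀ m n v, ψ m (u n v) = if m = n then v else 0) (hW : ∀ n v, ‖u n v‖ ≤ ‖W n v‖)
    {C : ℝ} (hC0 : 0 ≤ C) (hC : ∀ n x, ‖W n (ψ n x)‖ ≤ C * ‖x‖) :
    ∃ x : X, ∃ φ : X →L[ℂ] ℂ, x ≠ 0 ∧ φ ≠ 0 ∧
      ∀ A : X →L[ℂ] X, A * S = S * A → φ (A x) = 0 := by
  have hent : ∀ (A : X →L[ℂ] X) m n v, ‖W m (ψ m (A (u n v)))‖ ≤ C * ‖A‖ * ‖W n v‖ := by
    intro A m n v
    refine (hC m _).trans ?_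
    rw [mul_assoc]
    exact mul_le_mul_of_nonneg_left ((A.le_opNorm _).trans
      (mul_le_mul_of_nonneg_left (hW n v) (norm_nonneg _))) hC0
  have hK0 : 0 ≤ C * ‖S‖ := mul_nonneg hC0 (norm_nonneg _)
  have hup : ∀ n v, ‖W (n + 1) v‖ ≤ C * ‖S‖ * ‖W n v‖ := fun n v => by
    have := hent S (n + 1) n v
    rwa [hu, hbi, if_pos rfl] at this
  let P : (E →ₗ[ℂ] E) → Prop := fun D => ∃ B : ℝ, 0 ≤ B ∧ ∀ n v, ‖W n (D v)‖ ≤ B * ‖W (n + 1) v‖
  have P0 : P 0 := ⟨0, le_rfl, fun n v => by simp⟩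
  have Padd : ∀ a b, P a → P b → P (a + b) := by
    rintro a b ⟨B, hB, ha⟩ ⟨B', hB', hb⟩
    refine ⟨B + B', add_nonneg hB hB', fun n v => ?_⟩
    rw [LinearMap.add_apply, map_add, add_mul]
    exact (norm_add_le _ _).trans (add_le_add (ha n v) (hb n v))
  have Psmul : ∀ (c : ℂ) a, P a → P (c • a) := by
    rintro c a ⟨B, hB, ha⟩
    refine ⟨‖c‖ * B, mul_nonneg (norm_nonneg _) hB, fun n v => ?_⟩
    rw [LinearMap.smul_apply, map_smul, norm_smul, mul_assoc]
    exact mul_le_mul_of_nonneg_left (ha n v) (norm_nonneg _)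
  have Pmul : ∀ a b, P a → P b → P (a * b) := by
    rintro a b ⟨B, hB, ha⟩ ⟨B', hB', hb⟩
    refine ⟨B * (C * ‖S‖ * B'), by positivity, fun n v => ?_⟩
    rw [Module.End.mul_apply, mul_assoc, mul_assoc]
    exact (ha n _).trans (mul_le_mul_of_nonneg_left ((hup n _).trans
      (mul_le_mul_of_nonneg_left (hb n v) hK0)) hB)
  by_cases hf : ∀ v, ∃ b, P b ∧ b v = v
  · obtain ⟨B, hB, h1⟩ := one_mem_of_fix P P0 (fun a b ha hb => by
      rw [sub_eq_add_neg, ← neg_one_smul ℂ (b * a)]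
      exact Padd _ _ (Padd _ _ ha hb) (Psmul _ _ (Pmul _ _ hb ha))) hf
    exact pair_main hu hψ hbi hW hC0 hC (K := max B (C * ‖S‖)) (le_max_of_le_left hB)
      (fun n v => (hup n v).trans
        (mul_le_mul_of_nonneg_right (le_max_right _ _) (norm_nonneg _)))
      (fun n v => (h1 n v).trans
        (mul_le_mul_of_nonneg_right (le_max_left _ _) (norm_nonneg _)))
  · push Not at hf
    obtain ⟨v, hv⟩ := hf
    let U : Submodule ℂ E :=
      { carrier := {y | ∃ b, P b ∧ b v = y}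
        add_mem' := by
          rintro _ _ ⟨a, ha, rfl⟩ ⟨b, hb, rfl⟩
          exact ⟨a + b, Padd a b ha hb, rfl⟩
        zero_mem' := ⟨0, P0, rfl⟩
        smul_mem' := by
          rintro c _ ⟨a, ha, rfl⟩
          exact ⟨c • a, Psmul c a ha, rfl⟩ }
    have hU : Uᗮ ≠ ⊥ := by
      rw [Ne, Submodule.orthogonal_eq_bot_iff]
      intro h
      have : v ∈ U := by rw [h]; trivial
      obtain ⟨b, hb, h1⟩ := this
      exact hv b hb h1
    obtain ⟨η, hη, hη0⟩ := (Submodule.ne_bot_iff _).1 hU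
    refine ⟨u 1 v, (innerSL ℂ η).comp (ψ 0), fun h => ?_, fun h => ?_, fun A hA => ?_⟩
    · have := hbi 1 1 v
      rw [h, map_zero, if_pos rfl] at this
      exact hv 0 P0 this
    · have h1 : ((innerSL ℂ η).comp (ψ 0)) (u 0 η) = 0 := by rw [h]; rfl
      rw [ContinuousLinearMap.comp_apply, hbi, if_pos rfl, innerSL_apply_apply,
        inner_self_eq_zero] at h1
      exact hη0 h1
    · let D : E →ₗ[ℂ] E := ((ψ (-1)).comp (A.comp (u 0)) : E →L[ℂ] E)
      have eD : ∀ n w, ψ n (A (u (n + 1) w)) = D w := fun n w => by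
        have h1 := toeplitz hu hψ hA (-1) (n + 1) w
        rwa [add_neg_cancel_right] at h1
      have hD : P D := ⟨C * ‖A‖, by positivity, fun n w => by
        rw [← eD n]; exact hent A n (n + 1) w⟩
      have h1 := eD 0 v
      rw [zero_add] at h1
      rw [ContinuousLinearMap.comp_apply, h1, innerSL_apply_apply]
      exact (Submodule.mem_orthogonal' _ _).1 hη _ ⟨D, hD, rfl⟩

theorem block_hyper_inner (j : ℤ → E →L[ℂ] X) (r : ℤ → X →L[ℂ] E)
    (hbi : ∀ m n v, r m (j n v) = if m = n then v else 0) (C : ℝ) (hC : ∀ n, ‖j n‖ * ‖r n‖ ≤ C)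
    (S : X →L[ℂ] X) (a : ℤ → E →ₗ[ℂ] E) (hS : ∀ n v, S (j n v) = j (n + 1) (a n v))
    (hS' : ∀ n x, r (n + 1) (S x) = a n (r n x)) (hS0 : S ≠ 0) :
    ∃ V : Submodule ℂ X, IsClosed (V : Set X) ∧ V ≠ ⊥ ∧ V ≠ ⊤ ∧
      ∀ A : X →L[ℂ] X, A * S = S * A → ∀ y ∈ V, A y ∈ V := by
  by_cases ha : ∀ n, Function.Injective (a n)
  · obtain ⟨W, hW⟩ := exists_cumul fun n => LinearEquiv.ofInjectiveEndo (a n) (ha n)
    have hW' : ∀ n v, W (n + 1) v = a n (W n v) := fun n v => by rw [hW]; rfl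
    have hj : ∀ n, ((‖j n‖ : ℝ) : ℂ) ≠ 0 := fun n h => by
      obtain ⟨v, hv⟩ := exists_ne (0 : E)
      have h1 := hbi n n v
      rw [norm_eq_zero.1 (Complex.ofReal_eq_zero.1 h), if_pos rfl] at h1
      exact hv (by simpa using h1.symm)
    obtain ⟨x, φ, hx, hφ, h⟩ := pair_of_orbit (S := S)
      (u := fun n => (j n).comp ((W n).toContinuousLinearEquiv : E →L[ℂ] E))
      (ψ := fun n => ((W n).symm.toContinuousLinearEquiv : E →L[ℂ] E).comp (r n))
      (W := fun n => (W n).trans (LinearEquiv.smulOfNeZero ℂ E _ (hj n))) (C := C)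
      (fun n v => by simp [hS, hW'])
      (fun n x => by
        simp only [ContinuousLinearMap.comp_apply, ContinuousLinearEquiv.coe_coe,
          LinearEquiv.coe_toContinuousLinearEquiv', hS']
        rw [LinearEquiv.symm_apply_eq, hW', LinearEquiv.apply_symm_apply])
      (fun m n v => by
        simp only [ContinuousLinearMap.comp_apply, ContinuousLinearEquiv.coe_coe,
          LinearEquiv.coe_toContinuousLinearEquiv', hbi]
        split_ifs with h
        · subst h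
          simp
        · simp)
      (fun n v => by simpa [norm_smul] using (j n).le_opNorm (W n v))
      (le_trans (by positivity) (hC 0))
      (fun n x => by
        have h1 := mul_le_mul_of_nonneg_left ((r n).le_opNorm x) (norm_nonneg (j n))
        have h2 := mul_le_mul_of_nonneg_right (hC n) (norm_nonneg x)
        rw [← mul_assoc] at h1
        simpa [norm_smul] using h1.trans h2)
    exact hyper_of_pair S hx hφ h
  · push Not at ha
    obtain ⟨n, hn⟩ := ha
    rw [← LinearMap.ker_eq_bot] at hn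
    obtain ⟨v, hv, hv0⟩ := (Submodule.ne_bot_iff _).1 hn
    refine ⟨LinearMap.ker (S : X →ₗ[ℂ] X), S.isClosed_ker, ?_, ?_, fun A hA y hy => ?_⟩
    · refine (Submodule.ne_bot_iff _).2 ⟨j n v, ?_, fun h => ?_⟩
      · simp [LinearMap.mem_ker, hS, LinearMap.mem_ker.1 hv]
      · have := hbi n n v
        rw [h, map_zero, if_pos rfl] at this
        exact hv0 this.symm
    · intro h
      apply hS0
      ext y
      have : y ∈ LinearMap.ker (S : X →ₗ[ℂ] X) := by rw [h]; trivial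
      simpa using this
    · have h1 : A (S y) = S (A y) := congrArg (fun B : X →L[ℂ] X => B y) hA
      have h2 : S y = 0 := by simpa using hy
      simp only [LinearMap.mem_ker, ContinuousLinearMap.coe_coe]
      rw [← h1, h2, map_zero]

end

theorem block_hyper {X : Type*} [NormedAddCommGroup X] [NormedSpace ℂ X] [CompleteSpace X]
    {E : Type*} [NormedAddCommGroup E] [NormedSpace ℂ E] [FiniteDimensional ℂ E] [Nontrivial E]
    (j : ℤ → E →L[ℂ] X) (r : ℤ → X →L[ℂ] E)
    (hbi : ∀ m n v, r m (j n v) = if m = n then v else 0) (C : ℝ) (hC : ∀ n, ‖j n‖ * ‖r n‖ ≤ C)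
    (S : X →L[ℂ] X) (a : ℤ → E →ₗ[ℂ] E) (hS : ∀ n v, S (j n v) = j (n + 1) (a n v))
    (hS' : ∀ n x, r (n + 1) (S x) = a n (r n x)) (hS0 : S ≠ 0) :
    ∃ V : Submodule ℂ X, IsClosed (V : Set X) ∧ V ≠ ⊥ ∧ V ≠ ⊤ ∧
      ∀ A : X →L[ℂ] X, A * S = S * A → ∀ y ∈ V, A y ∈ V := by
  let T : E ≃L[ℂ] EuclideanSpace ℂ (Fin (Module.finrank ℂ E)) :=
    ContinuousLinearEquiv.ofFinrankEq (by simp)
  have : Nontrivial (EuclideanSpace ℂ (Fin (Module.finrank ℂ E))) := T.injective.nontrivial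
  refine block_hyper_inner (fun n => (j n).comp (T.symm : _ →L[ℂ] E))
    (fun n => (T : E →L[ℂ] _).comp (r n)) (fun m n v => ?_)
    (‖(T : E →L[ℂ] EuclideanSpace ℂ (Fin (Module.finrank ℂ E)))‖ *
      ‖(T.symm : EuclideanSpace ℂ (Fin (Module.finrank ℂ E)) →L[ℂ] E)‖ * C) (fun n => ?_) S
    (fun n => T.toLinearEquiv.toLinearMap ∘ₗ a n ∘ₗ T.symm.toLinearEquiv.toLinearMap)
    (fun n v => by simp [hS]) (fun n x => by simp [hS']) hS0
  · simp only [ContinuousLinearMap.comp_apply, ContinuousLinearEquiv.coe_coe, hbi]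
    split_ifs <;> simp
  · have h1 := mul_le_mul ((j n).opNorm_comp_le T.symm.toContinuousLinearMap)
      (T.toContinuousLinearMap.opNorm_comp_le (r n)) (norm_nonneg _) (by positivity)
    refine h1.trans (le_trans (le_of_eq ?_) (mul_le_mul_of_nonneg_left (hC n) (by positivity)))
    ring

end Pool.Agent.P.MP_f981b0_an.Blk
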