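import Mathlib
import Pool.Agent.P.MP_f981b0_an.Block

set_option autoImplicit false

noncomputable section

namespace Pool.Agent.P.MP_f981b0_an

open Real Finset Filter Topology
open scoped ENNReal ComplexOrder

variable {p : ℝ≥0∞} [Fact (1 ≤ p)]

/-- The class of operators under study: contractions, positive ones if `b` holds. -/
def Cl (b : Prop) (T : X p →L[ℂ] X p) : Prop := ‖T‖ ≤ 1 ∧ (b → IsPos T)

/-- The class with the topology of entrywise convergence. -/
def Y0 (p : ℝ≥0∞) [Fact (1 ≤ p)] (b : Prop) : Type := {T : X p →L[ℂ] X p // Cl b T}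

/-- The class with the topology of norm convergence of rows and columns. -/
def Y1 (p : ℝ≥0∞) [Fact (1 ≤ p)] (b : Prop) : Type := {T : X p →L[ℂ] X p // Cl b T}

variable {b : Prop}

/-- Matrix entries. -/
def j0 (T : Y0 p b) : ℕ × ℕ → ℂ := fun ij => (T.1 (e p ij.2)) ij.1

/-- Columns and rows. -/
def j1 (T : Y1 p b) : (ℕ → X p) × (ℕ → (X p →L[ℂ] ℂ)) :=
  (fun j => T.1 (e p j), fun i => (ev p i).comp T.1)

instance : TopologicalSpace (Y0 p b) := TopologicalSpace.induced j0 inferInstance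
instance : TopologicalSpace (Y1 p b) := TopologicalSpace.induced j1 inferInstance

lemma inducing_j0 : IsInducing (j0 (p := p) (b := b)) := ⟨rfl⟩
lemma inducing_j1 : IsInducing (j1 (p := p) (b := b)) := ⟨rfl⟩

instance : PerfectlyNormalSpace (Y0 p b) := inducing_j0.perfectlyNormalSpace

lemma cont_entry (i j : ℕ) : Continuous fun T : Y0 p b => (T.1 (e p j)) i :=
  (continuous_apply (i, j)).comp inducing_j0.continuous

lemma cont_col (j : ℕ) : Continuous fun T : Y1 p b => T.1 (e p j) :=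
  (continuous_apply j).comp (continuous_fst.comp inducing_j1.continuous)

lemma cont_row (i : ℕ) : Continuous fun T : Y1 p b => (ev p i).comp T.1 :=
  (continuous_apply i).comp (continuous_snd.comp inducing_j1.continuous)

/-- The identity map. -/
def idm (T : Y1 p b) : Y0 p b := T

lemma cont_idm : Continuous (idm (p := p) (b := b)) := by
  rw [inducing_j0.continuous_iff]
  exact continuous_pi fun ij => (ev p ij.1).continuous.comp (cont_col ij.2)

lemma norm_apply_le_of_le {T : X p →L[ℂ] X p} (hT : ‖T‖ ≤ 1) (v : X p) : ‖T v‖ ≤ ‖v‖ :=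
  (T.le_opNorm v).trans (mul_le_of_le_one_left (norm_nonneg _) hT)

lemma apply_P_eq (T : X p →L[ℂ] X p) (n : ℕ) (x : X p) :
    T (P p n x) = ∑ i ∈ range n, x i • T (e p i) := by
  rw [P_eq_sum, map_sum]; simp

lemma cont_apply (hp : p ≠ ⊤) (x : X p) : Continuous fun T : Y1 p b => T.1 x := by
  refine TendstoUniformly.continuous (F := fun n (T : Y1 p b) => T.1 (P p n x)) (p := atTop) ?_
    (Frequently.of_forall fun n => ?_)
  · rw [Metric.tendstoUniformly_iff]
    intro ε hε
    filter_upwards [Metric.tendsto_nhds.1 (tendsto_P hp x) ε hε] with n hn T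
    rw [dist_eq_norm, ← map_sub]
    rw [dist_comm, dist_eq_norm] at hn
    exact (norm_apply_le_of_le T.2.1 _).trans_lt hn
  · simp only [apply_P_eq]
    exact continuous_finsetSum _ fun i _ => (cont_col i).const_smul (x i)

lemma comp_P_eq (φ : X p →L[ℂ] ℂ) (n : ℕ) :
    φ.comp (P p n) = ∑ i ∈ range n, φ (e p i) • ev p i := by
  ext v
  simp [P_eq_sum, mul_comm]

lemma cont_comp (hp1 : 1 < p) (hp : p ≠ ⊤) (φ : X p →L[ℂ] ℂ) :
    Continuous fun T : Y1 p b => φ.comp T.1 := by
  refine TendstoUniformly.continuous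
    (F := fun n (T : Y1 p b) => (φ.comp (P p n)).comp T.1) (p := atTop) ?_
    (Frequently.of_forall fun n => ?_)
  · rw [Metric.tendstoUniformly_iff]
    intro ε hε
    filter_upwards [Metric.tendsto_nhds.1 (tendsto_comp_P hp1 hp φ) ε hε] with n hn T
    rw [dist_eq_norm, ← ContinuousLinearMap.sub_comp]
    rw [dist_comm, dist_eq_norm] at hn
    exact ((ContinuousLinearMap.opNorm_comp_le _ _).trans
      (mul_le_of_le_one_right (norm_nonneg _) T.2.1)).trans_lt hn
  · simp only [comp_P_eq, ContinuousLinearMap.finsetSum_comp, ContinuousLinearMap.smul_comp]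
    exact continuous_finsetSum _ fun i _ => (cont_row i).const_smul (φ (e p i))

lemma closedEmbedding_j1 (hp : p ≠ ⊤) : IsClosedEmbedding (j1 (p := p) (b := b)) := by
  refine ⟨⟨inducing_j1, fun S T h => ?_⟩, IsSeqClosed.isClosed fun u y hu hy => ?_⟩
  · have h1 : ∀ j, S.1 (e p j) = T.1 (e p j) := fun j => congrFun (congrArg Prod.fst h) j
    refine Subtype.ext (ContinuousLinearMap.ext fun x => ?_)
    refine tendsto_nhds_unique ((S.1.continuous.tendsto x).comp (tendsto_P hp x)) ?_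
    refine ((T.1.continuous.tendsto x).comp (tendsto_P hp x)).congr fun n => ?_
    simp only [Function.comp, apply_P_eq, h1]
  · choose T hT using hu
    have hcol : ∀ j, Tendsto (fun n => (T n).1 (e p j)) atTop (𝓝 (y.1 j)) := fun j => by
      have := ((continuous_apply j).comp continuous_fst).tendsto y |>.comp hy
      refine this.congr fun n => ?_
      simp only [Function.comp, ← hT n]; rfl
    have hrow : ∀ i, Tendsto (fun n => (ev p i).comp (T n).1) atTop (𝓝 (y.2 i)) := fun i => by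
      have := ((continuous_apply i).comp continuous_snd).tendsto y |>.comp hy
      refine this.congr fun n => ?_
      simp only [Function.comp, ← hT n]; rfl
    have hcau : ∀ x, CauchySeq fun n => (T n).1 x := fun x => by
      rw [Metric.cauchySeq_iff']
      intro ε hε
      obtain ⟨k, hk⟩ := (Metric.tendsto_nhds.1 (tendsto_P hp x) (ε / 3) (by positivity)).exists
      have h1 : CauchySeq fun n => (T n).1 (P p k x) := by
        simp only [apply_P_eq]
        exact (tendsto_finsetSum _ fun i _ => (hcol i).const_smul (x i)).cauchySeq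
      obtain ⟨N, hN⟩ := Metric.cauchySeq_iff'.1 h1 (ε / 3) (by positivity)
      refine ⟨N, fun n hn => ?_⟩
      have h2 : ∀ m, dist ((T m).1 x) ((T m).1 (P p k x)) < ε / 3 := fun m => by
        rw [dist_eq_norm, ← map_sub]
        rw [dist_comm, dist_eq_norm] at hk
        exact (norm_apply_le_of_le (T m).2.1 _).trans_lt hk
      have h3 := dist_triangle4 ((T n).1 x) ((T n).1 (P p k x)) ((T N).1 (P p k x)) ((T N).1 x)
      have h4 := h2 N
      rw [dist_comm] at h4
      linarith [h2 n, hN n hn]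
    choose f hf using fun x => cauchySeq_tendsto_of_complete (hcau x)
    let S : X p →L[ℂ] X p :=
      continuousLinearMapOfTendsto (l := atTop) (fun n => (T n).1) (f := f) (tendsto_pi_nhds.2 hf)
    have hS : ∀ x, Tendsto (fun n => (T n).1 x) atTop (𝓝 (S x)) := hf
    refine ⟨⟨S, ?_, fun hb i j => ?_⟩, Prod.ext (funext fun j => ?_) (funext fun i => ?_)⟩
    · refine ContinuousLinearMap.opNorm_le_bound _ zero_le_one fun x => ?_
      rw [one_mul]
      exact le_of_tendsto' (hS x).norm fun n => norm_apply_le_of_le (T n).2.1 x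
    · exact ge_of_tendsto' (((ev p i).continuous.tendsto _).comp (hS (e p j)))
        fun n => (T n).2.2 hb i j
    · exact tendsto_nhds_unique (hS _) (hcol j)
    · refine ContinuousLinearMap.ext fun x => ?_
      have h1 := ((ContinuousLinearMap.apply ℂ ℂ x).continuous.tendsto _).comp (hrow i)
      exact tendsto_nhds_unique (((ev p i).continuous.tendsto _).comp (hS x)) h1

lemma baire_Y1 (hp : p ≠ ⊤) : BaireSpace (Y1 p b) := by
  have := (closedEmbedding_j1 (b := b) hp).IsCompletelyPseudoMetrizableSpace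
  infer_instance

/-- Finite strict contractions that approximate a given operator. -/
def trunc (T : X p →L[ℂ] X p) (k : ℕ) : X p →L[ℂ] X p :=
  ((1 - 1 / ((k : ℝ) + 1) : ℝ) : ℂ) • (P p k).comp (T.comp (P p k))

lemma trunc_apply (T : X p →L[ℂ] X p) (k : ℕ) (v : X p) :
    trunc T k v = ((1 - 1 / ((k : ℝ) + 1) : ℝ) : ℂ) • P p k (T (P p k v)) := rfl

lemma coef_nonneg (k : ℕ) : 0 ≤ 1 - 1 / ((k : ℝ) + 1) := by
  have : 1 / ((k : ℝ) + 1) ≤ 1 := by
    rw [div_le_one (by positivity)]; linarith [Nat.cast_nonneg (α := ℝ) k]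
  linarith

lemma trunc_supp (T : X p →L[ℂ] X p) (k : ℕ) : Supp k (trunc T k) := fun v =>
  ⟨by rw [trunc_apply, map_smul, P_P], by rw [trunc_apply, trunc_apply, P_P]⟩

lemma trunc_norm (hp : p ≠ ⊤) {T : X p →L[ℂ] X p} (hT : ‖T‖ ≤ 1) (k : ℕ) : ‖trunc T k‖ < 1 := by
  refine lt_of_le_of_lt (b := 1 - 1 / ((k : ℝ) + 1)) ?_ (by
    have : 0 < 1 / ((k : ℝ) + 1) := by positivity
    linarith)
  refine ContinuousLinearMap.opNorm_le_bound _ (coef_nonneg k) fun v => ?_
  rw [trunc_apply, norm_smul, Complex.norm_of_nonneg (coef_nonneg k)]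
  exact mul_le_mul_of_nonneg_left (((norm_P_le hp _ _).trans (norm_apply_le_of_le hT _)).trans
    (norm_P_le hp _ _)) (coef_nonneg k)

lemma trunc_pos {T : X p →L[ℂ] X p} (hT : IsPos T) (k : ℕ) : IsPos (trunc T k) := fun i j => by
  rw [trunc_apply, smul_coord, P_coord]
  refine mul_nonneg (Complex.zero_le_real.2 (coef_nonneg k)) ?_
  split_ifs
  · rcases lt_or_ge j k with h | h
    · rw [P_e h]; exact hT i j
    · rw [P_e_zero h, map_zero]; exact le_rfl
  · exact le_rfl

lemma trunc_cl (hp : p ≠ ⊤) {T : X p →L[ℂ] X p} (hT : Cl b T) (k : ℕ) : Cl b (trunc T k) :=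
  ⟨(trunc_norm hp hT.1 k).le, fun hb => trunc_pos (hT.2 hb) k⟩

/-- The rows and columns of index below `k` are close to those of the truncation. -/
def Near (T S : X p →L[ℂ] X p) (k : ℕ) : Prop :=
  (∀ v, ‖S (P p k v) - trunc T k v‖ ≤ 1 / ((k : ℝ) + 1) * ‖v‖) ∧
    ∀ v, ‖P p k (S v) - trunc T k v‖ ≤ 1 / ((k : ℝ) + 1) * ‖v‖

lemma near_trunc (T : X p →L[ℂ] X p) (k : ℕ) : Near T (trunc T k) k :=
  ⟨fun v => by rw [(trunc_supp T k v).2, sub_self, norm_zero]; positivity,
    fun v => by rw [(trunc_supp T k v).1, sub_self, norm_zero]; positivity⟩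

lemma tendsto_of_near (hp1 : 1 < p) (hp : p ≠ ⊤) (T : Y1 p b) (S : ℕ → Y1 p b)
    (h : ∀ k, Near T.1 (S k).1 k) : Tendsto S atTop (𝓝 T) := by
  have hc : Tendsto (fun k : ℕ => ((1 - 1 / ((k : ℝ) + 1) : ℝ) : ℂ)) atTop (𝓝 1) := by
    have := (Complex.continuous_ofReal.tendsto _).comp
      ((tendsto_const_nhds (x := (1 : ℝ))).sub tendsto_one_div_add_atTop_nhds_zero_nat)
    rw [sub_zero, Complex.ofReal_one] at this
    exact this
  rw [inducing_j1.tendsto_nhds_iff]
  refine Tendsto.prodMk_nhds (tendsto_pi_nhds.2 fun j => ?_) (tendsto_pi_nhds.2 fun i => ?_)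
  · have h1 : Tendsto (fun k => trunc T.1 k (e p j)) atTop (𝓝 (T.1 (e p j))) := by
      have h2 := hc.smul (tendsto_P hp (T.1 (e p j)))
      rw [one_smul] at h2
      refine h2.congr' ?_
      filter_upwards [eventually_gt_atTop j] with k hk
      rw [trunc_apply, P_e hk]
    have h2 : Tendsto (fun k => (S k).1 (e p j) - trunc T.1 k (e p j)) atTop (𝓝 0) := by
      refine squeeze_zero_norm' ?_ tendsto_one_div_add_atTop_nhds_zero_nat
      filter_upwards [eventually_gt_atTop j] with k hk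
      have := (h k).1 (e p j)
      rwa [P_e hk, norm_e, mul_one] at this
    have h3 := h2.add h1
    simp only [sub_add_cancel, zero_add] at h3
    exact h3
  · have h1 : Tendsto (fun k => (ev p i).comp (trunc T.1 k)) atTop (𝓝 ((ev p i).comp T.1)) := by
      have h2 := hc.smul (tendsto_comp_P hp1 hp ((ev p i).comp T.1))
      rw [one_smul] at h2
      refine h2.congr' ?_
      filter_upwards [eventually_gt_atTop i] with k hk
      ext v
      simp [trunc_apply, P_coord, hk]
    have h2 : Tendsto (fun k => (ev p i).comp (S k).1 - (ev p i).comp (trunc T.1 k)) atTop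
        (𝓝 0) := by
      refine squeeze_zero_norm' ?_ tendsto_one_div_add_atTop_nhds_zero_nat
      filter_upwards [eventually_gt_atTop i] with k hk
      refine ContinuousLinearMap.opNorm_le_bound _ (by positivity) fun v => ?_
      have h3 := (norm_apply_le _ i).trans ((h k).2 v)
      rw [sub_coord, P_coord, if_pos hk] at h3
      simpa using h3
    have h3 := h2.add h1
    simp only [sub_add_cancel, zero_add] at h3
    exact h3

lemma mem_closure_of_near (hp1 : 1 < p) (hp : p ≠ ⊤) (T : Y1 p b) (U : Set (Y1 p b))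
    (h : ∀ᶠ k in atTop, ∃ S ∈ U, Near T.1 S.1 k) : T ∈ closure U := by
  classical
  let S : ℕ → Y1 p b := fun k =>
    if hk : ∃ S ∈ U, Near T.1 S.1 k then hk.choose else ⟨trunc T.1 k, trunc_cl hp T.2 k⟩
  refine mem_closure_of_tendsto (tendsto_of_near hp1 hp T S fun k => ?_) (h.mono fun k hk => ?_)
  · simp only [S]
    split_ifs with hk
    · exact hk.choose_spec.2
    · exact near_trunc _ _
  · simp only [S, dif_pos hk]
    exact hk.choose_spec.1

lemma eventually_close {S : Y0 p b} {n : ℕ} (hS : Supp n S.1) {ε : ℝ} (hε : 0 < ε) :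
    ∀ᶠ T in 𝓝 S, ∀ a, P p n a = a → ‖P p n (T.1 a) - S.1 a‖ ≤ ε * ‖a‖ := by
  set δ : ℝ := ε / ((n : ℝ) + 1) ^ 2 with hδ
  have hδ0 : 0 < δ := by positivity
  have h1 : ∀ᶠ T in 𝓝 S, ∀ i ∈ range n, ∀ j ∈ range n,
      ‖(T.1 (e p j)) i - (S.1 (e p j)) i‖ < δ := by
    rw [eventually_all_finset]; intro i _
    rw [eventually_all_finset]; intro j _
    have := Metric.tendsto_nhds.1 ((cont_entry (b := b) i j).tendsto S) δ hδ0
    simpa only [dist_eq_norm] using this
  filter_upwards [h1] with T hT a ha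
  have h2 : P p n (T.1 a) - S.1 a = P p n (T.1 a - S.1 a) := by rw [map_sub, (hS a).1]
  rw [h2, P_eq_sum]
  refine (norm_sum_le _ _).trans ?_
  have h3 : ∀ i ∈ range n, ‖(T.1 a - S.1 a) i • e p i‖ ≤ n * (‖a‖ * δ) := fun i hi => by
    rw [norm_smul, norm_e, mul_one, sub_coord, apply_coord _ ha, apply_coord _ ha,
      ← sum_sub_distrib]
    refine (norm_sum_le _ _).trans ?_
    calc ∑ j ∈ range n, ‖a j * (T.1 (e p j)) i - a j * (S.1 (e p j)) i‖
        ≤ ∑ _j ∈ range n, ‖a‖ * δ := sum_le_sum fun j hj => by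
          rw [← mul_sub, norm_mul]
          exact mul_le_mul (norm_apply_le a j) (hT i hi j hj).le (norm_nonneg _) (norm_nonneg _)
      _ = n * (‖a‖ * δ) := by simp
  refine (sum_le_sum h3).trans ?_
  rw [sum_const, card_range, nsmul_eq_mul]
  have h4 : ε = ((n : ℝ) + 1) ^ 2 * δ := by rw [hδ]; field_simp
  rw [h4]
  have h5 : 0 ≤ ‖a‖ * δ := by positivity
  have h6 : (0 : ℝ) ≤ n := Nat.cast_nonneg n
  nlinarith

lemma mem_interior_good (hp : p ≠ ⊤) {A : X p →L[ℂ] X p} {S : Y0 p b} {N : ℕ} {ρ : ℝ}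
    (hext : Ext A S.1 N ρ) {x : X p} (hx : P p N x = x) {φ : X p →L[ℂ] ℂ}
    (hφ : ∀ v, φ (P p N v) = φ v) {η : ℝ} (hη : 0 < η) (hgood : Good x φ (η / 4) A) :
    S ∈ interior {T : Y0 p b | Good x φ η T.1} := by
  obtain ⟨-, hrig, hsupp, -, -, hpow, -⟩ := hext
  have hr := r_pos hp
  have hr1 := one_le_r hp
  set r := p.toReal with hrdef
  set θ : ℝ := (η / 4) ^ r / ((‖φ‖ ^ r + 1) * (‖x‖ ^ r + 1)) with hθ
  have hθ0 : 0 < θ := by positivity
  obtain ⟨ε, hε, hrob⟩ := robust hp hrig hθ0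
  rw [mem_interior_iff_mem_nhds]
  filter_upwards [eventually_close hsupp hε] with T hT M
  have h1 := hrob T.1 T.2.1 hT x (P_mono hx (Nat.le_succ N)) M
  have h2 : ∀ k, ‖φ ((T.1 ^ k) x)‖ ^ r ≤ 2 ^ r * (‖φ ((A ^ k) x)‖ ^ r +
      ‖φ‖ ^ r * ‖P p (N + 1) ((T.1 ^ k) x) - (S.1 ^ k) x‖ ^ r) := fun k => by
    have e1 : φ ((T.1 ^ k) x) =
        φ ((A ^ k) x) + φ (P p (N + 1) ((T.1 ^ k) x) - (S.1 ^ k) x) := by
      rw [map_sub, ← hφ (P p (N + 1) _), P_P_of_le (Nat.le_succ N), hφ, ← hφ ((S.1 ^ k) x),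
        hpow x hx]
      ring
    rw [← mul_rpow (norm_nonneg _) (norm_nonneg _)]
    refine le_trans (rpow_le_rpow (norm_nonneg _) ?_ hr.le)
      (add_rpow_le_two hr.le (norm_nonneg _) (by positivity))
    rw [e1]
    exact (norm_add_le _ _).trans (add_le_add le_rfl (φ.le_opNorm _))
  refine (sum_le_sum fun k _ => h2 k).trans ?_
  rw [← mul_sum, sum_add_distrib, ← mul_sum]
  have h3 : ‖φ‖ ^ r * (θ * ‖x‖ ^ r) ≤ (η / 4) ^ r := by
    have h4 : (η / 4) ^ r = θ * ((‖φ‖ ^ r + 1) * (‖x‖ ^ r + 1)) := by rw [hθ]; field_simp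
    have h5 : 0 ≤ ‖φ‖ ^ r := by positivity
    have h6 : 0 ≤ ‖x‖ ^ r := by positivity
    rw [h4, mul_left_comm]
    exact mul_le_mul_of_nonneg_left (by nlinarith) hθ0.le
  have h4 := (mul_le_mul_of_nonneg_left h1 (by positivity : 0 ≤ ‖φ‖ ^ r)).trans h3
  have h5 := hgood M
  have h6 : (2 : ℝ) ^ r * (2 * (η / 4) ^ r) ≤ η ^ r := by
    have h7 : (2 : ℝ) ≤ 2 ^ r := by
      calc (2 : ℝ) = 2 ^ (1 : ℝ) := (rpow_one _).symm
        _ ≤ _ := rpow_le_rpow_of_exponent_le (by norm_num) hr1
    calc (2 : ℝ) ^ r * (2 * (η / 4) ^ r) ≤ 2 ^ r * (2 ^ r * (η / 4) ^ r) := by gcongr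
      _ = η ^ r := by
        rw [← mul_rpow (by norm_num) (by positivity), ← mul_rpow (by norm_num) (by positivity)]
        congr 1; ring
  refine le_trans (mul_le_mul_of_nonneg_left ?_ (by positivity)) h6
  linarith

end Pool.Agent.P.MP_f981b0_an
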