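import Mathlib
import Pool.Agent.P.MP_f981b0_an.Topo

set_option autoImplicit false

noncomputable section

namespace Pool.Agent.P.MP_f981b0_an

open Real Finset Filter Topology
open scoped ENNReal ComplexOrder

variable {p : ℝ≥0∞} [Fact (1 ≤ p)] {b : Prop}

/-- Existence of a nontrivial closed invariant subspace. -/
def HasInv (T : X p →L[ℂ] X p) : Prop :=
  ∃ M : Submodule ℂ (X p), IsClosed (M : Set (X p)) ∧ M ≠ ⊥ ∧ M ≠ ⊤ ∧ ∀ x ∈ M, T x ∈ M

lemma hasInv_of_moments {T : X p →L[ℂ] X p} {x : X p} {φ : X p →L[ℂ] ℂ} (hx : x ≠ 0)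
    (hφ : φ ≠ 0) (h : ∀ k : ℕ, φ ((T ^ k) x) = 0) : HasInv T := by
  let M : Submodule ℂ (X p) :=
    ⨅ k : ℕ, LinearMap.ker ((φ.comp (T ^ k) : X p →L[ℂ] ℂ) : X p →ₗ[ℂ] ℂ)
  have hM : ∀ v, v ∈ M ↔ ∀ k : ℕ, φ ((T ^ k) v) = 0 := fun v => by
    simp only [M, Submodule.mem_iInf, LinearMap.mem_ker]; rfl
  refine ⟨M, ?_, fun h0 => hx ?_, fun h0 => hφ ?_, fun v hv => ?_⟩
  · have : (M : Set (X p)) = ⋂ k : ℕ, {v | φ ((T ^ k) v) = 0} := by
      ext v; simp [hM]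
    rw [this]
    exact isClosed_iInter fun k => isClosed_eq (by fun_prop) continuous_const
  · have := (hM x).2 h
    rwa [h0, Submodule.mem_bot] at this
  · ext v
    have := (hM v).1 (h0 ▸ Submodule.mem_top) 0
    simpa using this
  · rw [hM] at hv ⊢
    intro k
    have := hv (k + 1)
    rwa [pow_succ, mul_apply_eq_comp] at this

lemma countable_seq {S : Set ℂ} (hS : S.Countable) :
    {u : ℕ → ℂ | (∃ N, ∀ i, N ≤ i → u i = 0) ∧ ∀ i, u i ∈ S}.Countable := by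
  have : Countable S := hS.to_subtype
  refine (Set.countable_range fun l : List S => fun i => (l.map Subtype.val).getD i 0).mono ?_
  rintro u ⟨⟨N, hN⟩, hu⟩
  refine ⟨List.ofFn fun i : Fin N => ⟨u i, hu i⟩, funext fun i => ?_⟩
  rcases lt_or_ge i N with h | h
  · simp [List.getD_eq_getElem?_getD, h]
  · simp [List.getD_eq_getElem?_getD, h, hN i h]

/-- Finitely supported pairs with coordinates in a prescribed set, with a level. -/
def St (p : ℝ≥0∞) [Fact (1 ≤ p)] (S : Set ℂ) : Type :=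
  {σ : X p × (X p →L[ℂ] ℂ) × ℕ // (∃ N, P p N σ.1 = σ.1 ∧ ∀ v, σ.2.1 (P p N v) = σ.2.1 v) ∧
    (∀ i, σ.1 i ∈ S) ∧ ∀ i, σ.2.1 (e p i) ∈ S}

lemma countable_St {S : Set ℂ} (hS : S.Countable) : Countable (St p S) := by
  have := (countable_seq hS).to_subtype
  let U := {u : ℕ → ℂ | (∃ N, ∀ i, N ≤ i → u i = 0) ∧ ∀ i, u i ∈ S}
  let f : St p S → U × U × ℕ := fun σ =>
    (⟨fun i => σ.1.1 i, σ.2.1.imp fun N hN => P_eq_self_iff.1 hN.1, σ.2.2.1⟩,
      ⟨fun i => σ.1.2.1 (e p i), σ.2.1.imp fun N hN i hi => by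
        change σ.1.2.1 (e p i) = 0
        rw [← hN.2, P_e_zero hi, map_zero], σ.2.2.2⟩, σ.1.2.2)
  refine Function.Injective.countable (f := f) ?_
  rintro ⟨⟨x, φ, n⟩, ⟨N, hx, hφ⟩, h⟩ ⟨⟨y, ψ, m⟩, ⟨M, hy, hψ⟩, h'⟩ hh
  simp only [f, Prod.mk.injEq, Subtype.mk.injEq] at hh
  obtain ⟨h1, h2, h3⟩ := hh
  have e1 : x = y := lp.ext h1
  have e2 : φ = ψ := by
    ext v
    have hφ' : φ v = φ (P p (max N M) v) := by
      rw [← hφ (P p (max N M) v), P_P_of_le (le_max_left _ _), hφ]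
    have hψ' : ψ v = ψ (P p (max N M) v) := by
      rw [← hψ (P p (max N M) v), P_P_of_le (le_max_right _ _), hψ]
    rw [hφ', hψ', P_eq_sum, map_sum, map_sum]
    refine sum_congr rfl fun i _ => ?_
    rw [map_smul, map_smul, congrFun h2 i]
  subst e1 e2 h3
  rfl

/-- The open set on which the moments of a state are robustly small. -/
def V (b : Prop) {S : Set ℂ} (σ : St p S) : Set (Y0 p b) :=
  interior {T : Y0 p b | Good σ.1.1 σ.1.2.1 ((1 / 4) ^ σ.1.2.2) T.1}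

/-- Successor relation on states. -/
def Succ {S : Set ℂ} (σ τ : St p S) : Prop :=
  τ.1.2.2 = σ.1.2.2 + 1 ∧ ‖τ.1.1 - σ.1.1‖ ≤ 3 * (1 / 2) ^ σ.1.2.2 ∧
    ‖τ.1.2.1 - σ.1.2.1‖ ≤ 3 * (1 / 2) ^ σ.1.2.2

/-- Initial states. -/
def Init {S : Set ℂ} (σ : St p S) : Prop := σ.1.2.2 = 3 ∧ 1 ≤ ‖σ.1.1‖ ∧ 1 ≤ ‖σ.1.2.1‖

lemma near_of_ext (hp : p ≠ ⊤) {T A S : X p →L[ℂ] X p} {k N : ℕ} (hkN : k ≤ N)
    (h1 : ∀ v, A (P p k v) = trunc T k v) (h2 : ∀ v, P p k (A v) = trunc T k v)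
    (hext : Ext A S N (1 / ((k : ℝ) + 1))) : Near T S k := by
  obtain ⟨-, -, -, h3, h4, -, -⟩ := hext
  refine ⟨fun v => ?_, fun v => ?_⟩
  · have := h3 (P p k v)
    rw [P_mono (P_P k v) hkN, h1] at this
    exact this.trans (mul_le_mul_of_nonneg_left (norm_P_le hp _ _) (by positivity))
  · rw [← h2, ← P_P_of_le hkN (S v), ← map_sub]
    exact (norm_P_le hp _ _).trans (h4 v)

lemma init_dense (hp1 : 1 < p) (hp : p ≠ ⊤) (hp2 : p ≠ 2) {S : Set ℂ} (h0 : (0 : ℂ) ∈ S)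
    (h1 : (1 : ℂ) ∈ S) : Dense (idm ⁻¹' ⋃ σ : St p S, ⋃ (_ : Init σ), V b σ) := by
  intro T
  refine mem_closure_of_near hp1 hp T _ (Eventually.of_forall fun k => ?_)
  have hA := (trunc_supp T.1 k).mono (show k ≤ k + 2 by omega)
  obtain ⟨R, hR⟩ := gadget hp1 hp hp2 (show 0 < k + 2 by omega) hA (trunc_norm hp T.2.1 k)
    (ρ := 1 / ((k : ℝ) + 1)) (by positivity)
  have hcl : Cl b R := ⟨hR.1, fun hb => hR.2.2.2.2.2.2 (trunc_pos (T.2.2 hb) k)⟩
  have hx : P p (k + 2) (e p k) = e p k := P_e (by omega)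
  have hφ : ∀ v, ev p (k + 1) (P p (k + 2) v) = ev p (k + 1) v := fun v => by
    rw [ev_apply, ev_apply, P_coord, if_pos (by omega)]
  have he : ∀ i j, (e p i) j ∈ S := fun i j => by
    rw [e_apply]; split_ifs; exacts [h1, h0]
  refine ⟨⟨R, hcl⟩, ?_, near_of_ext hp (show k ≤ k + 2 by omega)
    (fun v => (trunc_supp T.1 k v).2) (fun v => (trunc_supp T.1 k v).1) hR⟩
  simp only [Set.mem_preimage, Set.mem_iUnion]
  refine ⟨⟨(e p k, ev p (k + 1), 3), ⟨k + 2, hx, hφ⟩, he k, fun i => he i _⟩,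
    ⟨rfl, (norm_e k).ge, ?_⟩, ?_⟩
  · have := (ev p (k + 1)).le_opNorm (e p (k + 1))
    simpa [e_apply] using this
  · refine mem_interior_good hp (S := ⟨R, hcl⟩) hR hx hφ (by positivity) fun M => ?_
    refine le_trans (le_of_eq (sum_eq_zero fun m _ => ?_)) (by positivity)
    have : ev p (k + 1) ((trunc T.1 k ^ m) (e p k)) = 0 := by
      cases m with
      | zero => simp [e_apply]
      | succ m =>
        rw [pow_succ', mul_apply_eq_comp, ev_apply]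
        exact (trunc_supp T.1 k).coord _ (by omega)
    rw [this, norm_zero, zero_rpow (r_pos hp).ne']

lemma step_closure (hp1 : 1 < p) (hp : p ≠ ⊤) (hp2 : p ≠ 2) {S : Set ℂ} (hS : Dense S)
    (h0 : (0 : ℂ) ∈ S) (h2 : ∀ n : ℕ, (((1 / 2 : ℝ) ^ n : ℝ) : ℂ) ∈ S) (σ : St p S) (T : Y1 p b)
    (hT : idm T ∈ V b σ) : T ∈ closure (idm ⁻¹' ⋃ τ : St p S, ⋃ (_ : Succ σ τ), V b τ) := by
  obtain ⟨⟨x, φ, n⟩, ⟨N, hx, hφ⟩, hxS, hφS⟩ := σ
  dsimp only at hx hφ hxS hφS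
  refine mem_closure_of_near hp1 hp T _ ?_
  have hlim : Tendsto (fun k => idm (⟨trunc T.1 k, trunc_cl hp T.2 k⟩ : Y1 p b)) atTop
      (𝓝 (idm T)) :=
    (cont_idm.tendsto T).comp (tendsto_of_near hp1 hp T _ fun k => near_trunc _ _)
  filter_upwards [hlim.eventually (isOpen_interior.mem_nhds hT), eventually_ge_atTop N]
    with k hk hkN
  have hgood : Good x φ ((1 / 4) ^ n) (trunc T.1 k) := interior_subset hk
  have hxk : P p k x = x := P_mono hx hkN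
  have hφk : ∀ v, φ (P p k v) = φ v := fun v => by rw [← hφ, P_P_of_le hkN, hφ]
  obtain ⟨N', A, u, hN', hA, hA1, hA2, hA3, hu0, hu1, huS, hun, hg, hpos⟩ :=
    block hp (trunc_supp T.1 k) (trunc_norm hp T.2.1 k) hxk hφk (c := (1 / 2) ^ n)
      (η' := (1 / 4) ^ (n + 1) / 4) (by positivity) (by positivity) (by positivity) hgood hS
  obtain ⟨R, hR⟩ := gadget hp1 hp hp2 (show 0 < N' by omega) hA hA1
    (ρ := 1 / ((k : ℝ) + 1)) (by positivity)
  have hcl : Cl b R := ⟨hR.1, fun hb => hR.2.2.2.2.2.2 (hpos (trunc_pos (T.2.2 hb) k))⟩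
  have hx' : P p N' (x + u) = x + u := by rw [map_add, P_mono hxk hN'.le, hu1]
  have hφ' : ∀ v, (φ + (((1 / 2 : ℝ) ^ n : ℝ) : ℂ) • ev p k) (P p N' v) =
      (φ + (((1 / 2 : ℝ) ^ n : ℝ) : ℂ) • ev p k) v := fun v => by
    simp only [_root_.add_apply, _root_.smul_apply, ev_apply]
    rw [← hφk, P_P_of_le hN'.le, hφk, P_coord, if_pos hN']
  refine ⟨⟨R, hcl⟩, ?_, near_of_ext hp hN'.le hA2 hA3 hR⟩
  simp only [Set.mem_preimage, Set.mem_iUnion]
  refine ⟨⟨(x + u, φ + (((1 / 2 : ℝ) ^ n : ℝ) : ℂ) • ev p k, n + 1), ⟨N', hx', hφ'⟩,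
    fun i => ?_, fun i => ?_⟩, ⟨rfl, ?_, ?_⟩,
    mem_interior_good hp (S := ⟨R, hcl⟩) hR hx' hφ' (by positivity) hg⟩
  · dsimp only
    rw [add_coord]
    rcases lt_or_ge i k with h | h
    · rw [P_eq_zero_iff.1 hu0 i h, add_zero]; exact hxS i
    · rw [P_eq_self_iff.1 hxk i h, zero_add]
      rcases huS i with h3 | h3
      · exact h3
      · rw [h3]; exact h0
  · simp only [_root_.add_apply, _root_.smul_apply, ev_apply, e_apply]
    split_ifs with h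
    · rw [← hφk, P_e_zero h.le, map_zero, zero_add, smul_eq_mul, mul_one]; exact h2 n
    · rw [smul_zero, add_zero]; exact hφS i
  · dsimp only
    rw [add_sub_cancel_left]
    refine hun.trans ?_
    have h3 : ((1 / 4 : ℝ)) ^ n = (1 / 2) ^ n * (1 / 2) ^ n := by rw [← mul_pow]; norm_num
    have h4 : (0 : ℝ) < (1 / 2) ^ n := by positivity
    have h5 : ((1 / 2 : ℝ)) ^ n ≤ 1 := pow_le_one₀ (by norm_num) (by norm_num)
    rw [pow_succ, h3, mul_div_assoc, mul_div_cancel_right₀ _ h4.ne']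
    nlinarith
  · dsimp only
    rw [add_sub_cancel_left, norm_smul, Complex.norm_of_nonneg (by positivity)]
    have h4 : (0 : ℝ) < (1 / 2) ^ n := by positivity
    have := norm_ev_le (p := p) k
    nlinarith

lemma hasInv_of_chain (hp : p ≠ ⊤) {S : Set ℂ} (T : Y0 p b) (σ0 : St p S) (hinit : Init σ0)
    (h0 : T ∈ V b σ0) (hstep : ∀ σ : St p S, T ∈ V b σ → ∃ τ, Succ σ τ ∧ T ∈ V b τ) :
    HasInv T.1 := by
  have : Nonempty (St p S) := ⟨σ0⟩
  choose! nx hnx using hstep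
  let f : ℕ → St p S := fun k => nx^[k] σ0
  have hf : ∀ k, f (k + 1) = nx (f k) := fun k => Function.iterate_succ_apply' _ _ _
  have hV : ∀ k, T ∈ V b (f k) := fun k => by
    induction k with
    | zero => exact h0
    | succ k ih => rw [hf]; exact (hnx _ ih).2
  have hS : ∀ k, Succ (f k) (f (k + 1)) := fun k => by rw [hf]; exact (hnx _ (hV k)).1
  have hlev : ∀ k, (f k).1.2.2 = k + 3 := fun k => by
    induction k with
    | zero => exact hinit.1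
    | succ k ih => rw [(hS k).1, ih]
  have hd1 : ∀ k, dist (f k).1.1 (f (k + 1)).1.1 ≤ 3 / 8 * (1 / 2) ^ k := fun k => by
    have := (hS k).2.1
    rw [hlev, pow_add] at this
    rw [dist_comm, dist_eq_norm]; linarith
  have hd2 : ∀ k, dist (f k).1.2.1 (f (k + 1)).1.2.1 ≤ 3 / 8 * (1 / 2) ^ k := fun k => by
    have := (hS k).2.2
    rw [hlev, pow_add] at this
    rw [dist_comm, dist_eq_norm]; linarith
  obtain ⟨x, hx⟩ := cauchySeq_tendsto_of_complete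
    (cauchySeq_of_le_geometric (1 / 2) (3 / 8) (by norm_num) hd1)
  obtain ⟨φ, hφ⟩ := cauchySeq_tendsto_of_complete
    (cauchySeq_of_le_geometric (1 / 2) (3 / 8) (by norm_num) hd2)
  have hx0 := dist_le_of_le_geometric_of_tendsto₀ (1 / 2) (3 / 8) (by norm_num) hd1 hx
  have hφ0 := dist_le_of_le_geometric_of_tendsto₀ (1 / 2) (3 / 8) (by norm_num) hd2 hφ
  refine hasInv_of_moments (x := x) (φ := φ) ?_ ?_ fun m => ?_
  · rintro rfl
    rw [dist_zero_right] at hx0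
    have : 1 ≤ ‖(f 0).1.1‖ := hinit.2.1
    linarith
  · rintro rfl
    rw [dist_zero_right] at hφ0
    have : 1 ≤ ‖(f 0).1.2.1‖ := hinit.2.2
    linarith
  · have h1 : Tendsto (fun k => (f k).1.2.1 ((T.1 ^ m) (f k).1.1)) atTop (𝓝 (φ ((T.1 ^ m) x))) :=
      (isBoundedBilinearMap_apply.continuous.tendsto (φ, (T.1 ^ m) x)).comp
        (hφ.prodMk_nhds (((T.1 ^ m).continuous.tendsto x).comp hx))
    refine tendsto_nhds_unique h1 (squeeze_zero_norm (fun k => ?_)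
      (tendsto_pow_atTop_nhds_zero_of_lt_one (r := 1 / 4) (by norm_num) (by norm_num)))
    have h2 : Good (f k).1.1 (f k).1.2.1 ((1 / 4) ^ (f k).1.2.2) T.1 := interior_subset (hV k)
    have h3 := (single_le_sum (f := fun j => ‖(f k).1.2.1 ((T.1 ^ j) (f k).1.1)‖ ^ p.toReal)
      (fun j _ => by positivity) (mem_range.2 (Nat.lt_succ_self m))).trans (h2 (m + 1))
    refine (le_of_rpow_le hp (norm_nonneg _) (by positivity) h3).trans ?_
    rw [hlev]
    exact pow_le_pow_of_le_one (by norm_num) (by norm_num) (by omega)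

theorem main_abstract (hp1 : 1 < p) (hp : p ≠ ⊤) (hp2 : p ≠ 2) (b : Prop) :
    ∃ G : Set (Y0 p b), IsGδ G ∧ Dense (idm ⁻¹' G) ∧ ∀ T ∈ G, HasInv T.1 := by
  obtain ⟨S0, hS0c, hS0d⟩ := TopologicalSpace.exists_countable_dense ℂ
  set S : Set ℂ := insert 0 (S0 ∪ Set.range fun n : ℕ => (((1 / 2 : ℝ) ^ n : ℝ) : ℂ)) with hSdef
  have hSc : S.Countable := (hS0c.union (Set.countable_range _)).insert 0
  have hSd : Dense S := hS0d.mono fun z hz => Or.inr (Or.inl hz)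
  have h0 : (0 : ℂ) ∈ S := Or.inl rfl
  have h2 : ∀ n : ℕ, (((1 / 2 : ℝ) ^ n : ℝ) : ℂ) ∈ S := fun n => Or.inr (Or.inr ⟨n, rfl⟩)
  have h1 : (1 : ℂ) ∈ S := by simpa using h2 0
  have := countable_St (p := p) hSc
  have := baire_Y1 (b := b) hp
  have hO : ∀ q : St p S → Prop, IsOpen (⋃ σ : St p S, ⋃ (_ : q σ), V b σ) := fun q =>
    isOpen_iUnion fun _ => isOpen_iUnion fun _ => isOpen_interior
  have hG : ∀ σ : St p S, IsGδ ((⋃ τ : St p S, ⋃ (_ : Succ σ τ), V b τ) ∪ (V b σ)ᶜ) := fun σ =>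
    (hO _).isGδ.union (isOpen_interior.isClosed_compl.isGδ)
  refine ⟨(⋃ σ : St p S, ⋃ (_ : Init σ), V b σ) ∩
    ⋂ σ : St p S, ((⋃ τ : St p S, ⋃ (_ : Succ σ τ), V b τ) ∪ (V b σ)ᶜ),
    (hO _).isGδ.inter (IsGδ.iInter hG), ?_, ?_⟩
  · rw [Set.preimage_inter, Set.preimage_iInter]
    have hG' := fun σ => (hG σ).preimage (cont_idm (p := p) (b := b))
    refine Dense.inter_of_Gδ ((hO _).isGδ.preimage cont_idm) (IsGδ.iInter hG')
      (init_dense hp1 hp hp2 h0 h1) (dense_iInter_of_Gδ hG' fun σ T => ?_)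
    by_cases hT : idm T ∈ V b σ
    · exact closure_mono (Set.preimage_mono Set.subset_union_left)
        (step_closure hp1 hp hp2 hSd h0 h2 σ T hT)
    · exact subset_closure (Or.inr hT)
  · rintro T ⟨hT1, hT2⟩
    simp only [Set.mem_iUnion] at hT1
    obtain ⟨σ0, hinit, hσ0⟩ := hT1
    refine hasInv_of_chain hp T σ0 hinit hσ0 fun σ hσ => ?_
    rcases Set.mem_iInter.1 hT2 σ with h | h
    · simp only [Set.mem_iUnion] at h
      obtain ⟨τ, h1, h2⟩ := h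
      exact ⟨τ, h1, h2⟩
    · exact absurd hσ h

end Pool.Agent.P.MP_f981b0_an
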