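import Mathlib
import Pool.Agent.P.MP_f981b0_an.R1.Main

set_option autoImplicit false

noncomputable section

namespace Pool.Agent.P.MP_f981b0_an.RankOneScalar

section Defs

variable {E : Type} [NormedAddCommGroup E] [NormedSpace ℂ E]

/-- `S` is a value `Θ a` of a continuous functional calculus: a continuous unital algebra
homomorphism `Θ : C(X, ℂ) → B(E)` with `X` a compact Hausdorff space. -/
def IsScalarType (S : E →L[ℂ] E) : Prop :=
  ∃ (X : Type) (_ : TopologicalSpace X) (_ : CompactSpace X) (_ : T2Space X)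
    (Θ : C(X, ℂ) →ₐ[ℂ] (E →L[ℂ] E)) (a : C(X, ℂ)), Continuous Θ ∧ S = Θ a

/-- `T` has a closed subspace other than `{0}` and the whole space that is invariant under every
bounded operator commuting with `T` (in particular under `T`). -/
def HasHyperinvariant (T : E →L[ℂ] E) : Prop :=
  ∃ M : Submodule ℂ E, IsClosed (M : Set E) ∧ M ≠ ⊥ ∧ M ≠ ⊤ ∧
    ∀ A : E →L[ℂ] E, A * T = T * A → ∀ x ∈ M, A x ∈ M

end Defs

/-- Every normal operator on a Hilbert space is of scalar type. -/
theorem isScalarType_of_normal {H : Type} [NormedAddCommGroup H] [InnerProductSpace ℂ H]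
    [CompleteSpace H] (N : H →L[ℂ] H) (hN : IsStarNormal N) : IsScalarType N :=
  ⟨spectrum ℂ N, inferInstance, inferInstance, inferInstance, (cfcHom (R := ℂ) hN).toAlgHom,
    (ContinuousMap.id ℂ).restrict (spectrum ℂ N), cfcHom_continuous hN, (cfcHom_id hN).symm⟩

/-- Every Hilbert space is reflexive. -/
theorem reflexive_of_hilbert {H : Type} [NormedAddCommGroup H] [InnerProductSpace ℂ H]
    [CompleteSpace H] : Function.Surjective (NormedSpace.inclusionInDoubleDual ℂ H) :=
  Pool.Agent.P.MP_f981b0_an.R1.refl_hilbert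

/-- On a reflexive complex Banach space, every rank-one perturbation `T x = S x + v(x) u` of a
scalar-type operator `S` is a scalar multiple of the identity or has a nontrivial closed
hyperinvariant subspace. -/
theorem result (E : Type) [NormedAddCommGroup E] [NormedSpace ℂ E] [CompleteSpace E]
    (hE : Function.Surjective (NormedSpace.inclusionInDoubleDual ℂ E))
    (S T : E →L[ℂ] E) (hS : IsScalarType S) (u : E) (v : StrongDual ℂ E)
    (hT : ∀ x, T x = S x + v x • u) :
    (∃ c : ℂ, ∀ x, T x = c • x) ∨ HasHyperinvariant T := by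
  obtain ⟨X, _, _, _, Θ, a, hΘ, rfl⟩ := hS
  obtain rfl : T = Θ a + v.smulRight u := ContinuousLinearMap.ext hT
  refine or_iff_not_imp_left.2 fun h => ?_
  exact Pool.Agent.P.MP_f981b0_an.R1.main_hyper hE Θ hΘ a u v fun c hc =>
    h ⟨c, fun x => by rw [hc]; rfl⟩

end Pool.Agent.P.MP_f981b0_an.RankOneScalar
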