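import Mathlib

set_option autoImplicit false

namespace Pool.Agent.P.MP_f981b0_an

open scoped InnerProductSpace
open Submodule

section

variable {H : Type*} [NormedAddCommGroup H] [InnerProductSpace ℂ H]

/-- The span of the first `m` vectors of a two sided sequence. -/
def kry (v : ℤ → H) (m : ℕ) : Submodule ℂ H := span ℂ (v '' Set.Ico (0 : ℤ) m)

lemma mem_kry (v : ℤ → H) {m : ℕ} {j : ℤ} (h0 : 0 ≤ j) (h1 : j < m) : v j ∈ kry v m :=
  subset_span ⟨j, ⟨h0, h1⟩, rfl⟩

lemma kry_mono (v : ℤ → H) (m : ℕ) : kry v m ≤ kry v (m + 1) := by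
  refine span_mono (Set.image_mono ?_)
  intro j hj
  exact ⟨hj.1, by have := hj.2; push_cast; omega⟩

lemma kry_zero (v : ℤ → H) : kry v 0 = ⊥ := by
  simp [kry]

lemma mem_kry_orth (v : ℤ → H) {m : ℕ} {u : H}
    (h : ∀ j : ℤ, 0 ≤ j → j < m → ⟪v j, u⟫_ℂ = 0) : u ∈ (kry v m)ᗮ := by
  rw [Submodule.mem_orthogonal]
  intro a ha
  induction ha using span_induction with
  | mem x hx =>
    obtain ⟨j, hj, rfl⟩ := hx
    exact h j hj.1 hj.2
  | zero => simp
  | add x y _ _ hx hy => rw [inner_add_left, hx, hy, add_zero]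
  | smul a x _ hx => rw [inner_smul_left, hx, mul_zero]

lemma kry_map (X : H →ₗ[ℂ] H) (v : ℤ → H) (hv : ∀ j, X (v j) = v (j + 1)) (m : ℕ) {a : H}
    (ha : a ∈ kry v m) : X a ∈ kry v (m + 1) := by
  induction ha using span_induction with
  | mem x hx =>
    obtain ⟨j, hj, rfl⟩ := hx
    rw [hv]
    exact mem_kry v (by have := hj.1; omega) (by have := hj.2; push_cast; omega)
  | zero => simp
  | add x y _ _ hx hy => rw [map_add]; exact add_mem hx hy
  | smul a x _ hx => rw [map_smul]; exact smul_mem _ _ hx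

variable [FiniteDimensional ℂ H]

lemma kry_step (v : ℤ → H) (m : ℕ) {c : H}
    (hc : ⟪v m - (kry v m).starProjection (v m), c⟫_ℂ = 0) :
    (kry v (m + 1)).starProjection c = (kry v m).starProjection c := by
  refine eq_starProjection_of_mem_orthogonal (kry_mono v m (starProjection_apply_mem _ _)) ?_
  have h1 := sub_starProjection_mem_orthogonal (K := kry v m) c
  refine mem_kry_orth v fun j h0 hj => ?_
  rcases lt_or_ge j m with h | h
  · exact (Submodule.mem_orthogonal _ _).1 h1 _ (mem_kry v h0 h)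
  · have hjm : j = m := by push_cast at hj; omega
    subst hjm
    have h2 := sub_starProjection_mem_orthogonal (K := kry v m) (v m)
    have h3 : ⟪(kry v m).starProjection (v m), c - (kry v m).starProjection c⟫_ℂ = 0 :=
      (Submodule.mem_orthogonal _ _).1 h1 _ (starProjection_apply_mem _ _)
    have h4 : ⟪v m - (kry v m).starProjection (v m), (kry v m).starProjection c⟫_ℂ = 0 :=
      (Submodule.mem_orthogonal' _ _).1 h2 _ (starProjection_apply_mem _ _)
    have h5 : v (m : ℤ) = (v m - (kry v m).starProjection (v m)) +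
      (kry v m).starProjection (v m) := by abel
    rw [h5, inner_add_left, h3, inner_sub_right, hc, h4]
    simp

lemma kry_comm (X : H →ₗ[ℂ] H) (hX : ∀ a b, ⟪X a, X b⟫_ℂ = ⟪a, b⟫_ℂ) (v : ℤ → H)
    (hv : ∀ j, X (v j) = v (j + 1)) (m : ℕ) {c : H}
    (h1 : (kry v (m + 1)).starProjection c = (kry v m).starProjection c)
    (h2 : ⟪v (-1) - (kry v (m + 1)).starProjection (v (-1)), c⟫_ℂ = 0) :
    (kry v (m + 1)).starProjection (X c) = X ((kry v (m + 1)).starProjection c) := by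
  refine eq_starProjection_of_mem_orthogonal ?_ ?_
  · rw [h1]
    exact kry_map X v hv m (starProjection_apply_mem _ _)
  · rw [← map_sub]
    have h3 := sub_starProjection_mem_orthogonal (K := kry v (m + 1)) c
    refine mem_kry_orth v fun j h0 hj => ?_
    have e : v j = X (v (j - 1)) := by rw [hv]; simp
    rw [e, hX]
    rcases eq_or_lt_of_le h0 with h | h
    · subst h
      have h4 := sub_starProjection_mem_orthogonal (K := kry v (m + 1)) (v (-1))
      have h5 : ⟪(kry v (m + 1)).starProjection (v (-1)),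
          c - (kry v (m + 1)).starProjection c⟫_ℂ = 0 :=
        (Submodule.mem_orthogonal _ _).1 h3 _ (starProjection_apply_mem _ _)
      have h6 : ⟪v (-1) - (kry v (m + 1)).starProjection (v (-1)),
          (kry v (m + 1)).starProjection c⟫_ℂ = 0 :=
        (Submodule.mem_orthogonal' _ _).1 h4 _ (starProjection_apply_mem _ _)
      have h7 : v (0 - 1) = (v (-1) - (kry v (m + 1)).starProjection (v (-1))) +
        (kry v (m + 1)).starProjection (v (-1)) := by simp
      rw [h7, inner_add_left, h5, inner_sub_right, h2, h6]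
      simp
    · exact (Submodule.mem_orthogonal _ _).1 h3 _ (mem_kry v (by omega) (by omega))

lemma exists_orth_four (F : Submodule ℂ H) (hF : 5 ≤ Module.finrank ℂ F) (a : Fin 4 → H) :
    ∃ c ∈ F, c ≠ 0 ∧ ∀ i, ⟪a i, c⟫_ℂ = 0 := by
  let G : F →ₗ[ℂ] (Fin 4 → ℂ) :=
    LinearMap.pi fun i => (innerSL ℂ (a i)).toLinearMap.comp F.subtype
  have hG : LinearMap.ker G ≠ ⊥ := G.ker_ne_bot_of_finrank_lt (by simp; omega)
  obtain ⟨⟨c, hc⟩, h1, h2⟩ := (Submodule.ne_bot_iff _).1 hG
  refine ⟨c, hc, fun h => h2 (Subtype.ext h), fun i => ?_⟩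
  have := congrFun (LinearMap.mem_ker.1 h1) i
  simpa [G] using this

/-- The chain lemma: some member of the chain and its orthogonal complement both contain
vectors which are almost fixed by `X`. -/
theorem chain_lemma (X : H →ₗ[ℂ] H) (hX : ∀ a b, ⟪X a, X b⟫_ℂ = ⟪a, b⟫_ℂ) (v : ℤ → H)
    (hv : ∀ j, X (v j) = v (j + 1)) (N : ℕ) (hN : kry v N = ⊤) (F : Submodule ℂ H)
    (hF : 5 ≤ Module.finrank ℂ F) (ε : ℝ) (hε : ∀ c ∈ F, ‖X c - c‖ ≤ ε * ‖c‖) :
    ∃ m : ℕ, ∃ p ∈ kry v m, ∃ g ∈ (kry v m)ᗮ,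
      1 / 2 ≤ ‖p‖ ^ 2 ∧ ‖p‖ ≤ 1 ∧ ‖X p - p‖ ≤ ε ∧ 1 / 2 ≤ ‖g‖ ^ 2 ∧ ‖g‖ ≤ 1 ∧ ‖X g - g‖ ≤ ε := by
  classical
  set P : ℕ → H →L[ℂ] H := fun m => (kry v m).starProjection with hP
  let low : ℕ → Prop := fun m => ∀ c ∈ F, ‖c‖ = 1 → P m (X c) = X (P m c) → ‖P m c‖ ^ 2 < 1 / 2
  let high : ℕ → Prop := fun m => ∀ c ∈ F, ‖c‖ = 1 → P m (X c) = X (P m c) →
    ‖c - P m c‖ ^ 2 < 1 / 2
  have unit : ∀ a : Fin 4 → H, ∃ c ∈ F, ‖c‖ = 1 ∧ ∀ i, ⟪a i, c⟫_ℂ = 0 := by
    intro a
    obtain ⟨c, hc, h0, h1⟩ := exists_orth_four F hF a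
    refine ⟨((‖c‖⁻¹ : ℝ) : ℂ) • c, smul_mem _ _ hc, ?_, fun i => ?_⟩
    · rw [norm_smul, Complex.norm_real, norm_inv, norm_norm, inv_mul_cancel₀ (norm_ne_zero_iff.2 h0)]
    · rw [inner_smul_right, h1, mul_zero]
  have pyth : ∀ m c, ‖c‖ ^ 2 = ‖P m c‖ ^ 2 + ‖c - P m c‖ ^ 2 := by
    intro m c
    rw [norm_sq_eq_add_norm_sq_starProjection c (kry v m), starProjection_orthogonal_val]
  have hP0 : ∀ c, P 0 c = 0 := by
    intro c
    have h0 : P 0 c ∈ kry v 0 := starProjection_apply_mem (kry v 0) c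
    have h1 : P 0 c ∈ (⊥ : Submodule ℂ H) := kry_zero v ▸ h0
    exact (Submodule.mem_bot ℂ).1 h1
  have hPN : ∀ c, P N c = c := by
    intro c
    exact starProjection_eq_self_iff.2 (by rw [hN]; trivial)
  have hlow0 : low 0 := by
    intro c _ _ _
    rw [hP0]; norm_num
  have hlowN : ¬ low N := by
    intro h
    obtain ⟨c, hc, h1, -⟩ := unit fun _ => 0
    have := h c hc h1 (by rw [hPN, hPN])
    rw [hPN, h1] at this
    norm_num at this
  have key : ∀ m, low m → ¬ high (m + 1) := by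
    intro m hl hh
    obtain ⟨c, hc, h1, h2⟩ := unit ![v ((m - 1 : ℕ) : ℤ) - P (m - 1) (v ((m - 1 : ℕ) : ℤ)),
      v (-1) - P m (v (-1)), v m - P m (v m), v (-1) - P (m + 1) (v (-1))]
    have e1 : P (m + 1) c = P m c := kry_step v m (h2 2)
    have e2 : P (m + 1) (X c) = X (P (m + 1) c) := kry_comm X hX v hv m e1 (h2 3)
    have e3 : P m (X c) = X (P m c) := by
      rcases m with _ | m
      · rw [hP0, hP0, map_zero]
      · exact kry_comm X hX v hv m (kry_step v m (h2 0)) (h2 1)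
    have a1 := hl c hc h1 e3
    have a2 := hh c hc h1 e2
    have a3 := pyth m c
    rw [e1] at a2
    rw [h1] at a3
    linarith
  have hex : ∃ m, ¬ low m := ⟨N, hlowN⟩
  have hm := Nat.find_spec hex
  have hm0 : Nat.find hex ≠ 0 := fun h => hm (h ▸ hlow0)
  obtain ⟨m, hm1⟩ := Nat.exists_eq_succ_of_ne_zero hm0
  have hlm : low m := by
    by_contra h
    have := Nat.find_min' hex h
    omega
  have hh := key m hlm
  rw [hm1] at hm
  simp only [low, not_forall, not_lt] at hm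
  simp only [high, not_forall, not_lt] at hh
  obtain ⟨c, hc, c1, c2, c3⟩ := hm
  obtain ⟨b, hb, b1, b2, b3⟩ := hh
  refine ⟨m + 1, P (m + 1) c, starProjection_apply_mem _ _, b - P (m + 1) b,
    sub_starProjection_mem_orthogonal _, c3, ?_, ?_, b3, ?_, ?_⟩
  · exact (norm_starProjection_apply_le _ _).trans c1.le
  · rw [← c2, ← map_sub]
    refine (norm_starProjection_apply_le _ _).trans ?_
    simpa [c1] using hε c hc
  · have := pyth (m + 1) b
    rw [b1] at this
    nlinarith [norm_nonneg (b - P (m + 1) b), sq_nonneg ‖P (m + 1) b‖]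
  · have e : X (b - P (m + 1) b) - (b - P (m + 1) b) = (X b - b) - P (m + 1) (X b - b) := by
      rw [map_sub, map_sub, b2]; abel
    rw [e]
    have := pyth (m + 1) (X b - b)
    have h2 := hε b hb
    rw [b1, mul_one] at h2
    have h3 : ‖X b - b - P (m + 1) (X b - b)‖ ≤ ‖X b - b‖ := by
      nlinarith [norm_nonneg (X b - b - P (m + 1) (X b - b)), sq_nonneg ‖P (m + 1) (X b - b)‖,
        norm_nonneg (X b - b)]
    exact h3.trans h2

end

end Pool.Agent.P.MP_f981b0_an
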