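import Pool.Agent.P.MP_f981b0_an.ShiftCyc

set_option autoImplicit false

namespace Pool.Agent.P.MP_f981b0_an

open Filter Topology Finset

/-- The triangle wave of period `4 L`. -/
def tri (L : ℕ) (y : ℤ) : ℤ := L - |(y + L) % (4 * L) - 2 * L|

lemma tri_eq {L : ℕ} (hL : 0 < L) {y : ℤ} (hy : |y| ≤ L) : tri L y = y := by
  have h := abs_le.1 hy
  rw [tri, Int.emod_eq_of_lt (by omega) (by omega), abs_of_nonpos (by omega)]
  ring

lemma tri_step {L : ℕ} (hL : 0 < L) (y : ℤ) :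
    tri L (y + 1) = tri L y + 1 ∨ tri L y = tri L (y + 1) + 1 := by
  have h4 : (0 : ℤ) < 4 * L := by omega
  have h0 := Int.emod_nonneg (y + L) h4.ne'
  have h1 := Int.emod_lt_of_pos (y + L) h4
  have h2 := Int.emod_add_mul_ediv (y + L) (4 * L)
  unfold tri
  set s := (y + L) % (4 * L) with hs
  set q := (y + L) / (4 * L) with hq
  rcases lt_or_ge (s + 1) (4 * L) with h | h
  · have e : (y + 1 + L) % (4 * L) = s + 1 := by
      rw [show y + 1 + L = (s + 1) + (4 * L) * q by linarith, Int.add_mul_emod_self_left,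
        Int.emod_eq_of_lt (by omega) h]
    rw [e]
    rcases abs_cases (s + 1 - 2 * L) with h3 | h3 <;> rcases abs_cases (s - 2 * L) with h5 | h5 <;>
      omega
  · have e : (y + 1 + L) % (4 * L) = 0 := by
      rw [show y + 1 + L = 0 + (4 * L) * (q + 1) by linarith [show s + 1 = 4 * L by omega],
        Int.add_mul_emod_self_left]
      simp
    rw [e]
    rcases abs_cases ((0 : ℤ) - 2 * L) with h3 | h3 <;>
      rcases abs_cases (s - 2 * L) with h5 | h5 <;> omega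

lemma tri_congr {L : ℕ} {a b : ℤ} (h : (a : ZMod (4 * L)) = (b : ZMod (4 * L))) :
    tri L a = tri L b := by
  have h1 := (ZMod.intCast_eq_intCast_iff _ _ _).1 h
  have h2 : (a + L) % (4 * L) = (b + L) % (4 * L) := by
    have := h1.add_right L
    unfold Int.ModEq at this
    push_cast at this
    exact this
  rw [tri, tri, h2]

lemma ratio_le {D : ℤ → ℝ} {K : ℝ} (hK : 0 ≤ K) (h1 : ∀ n, D (n + 1) ≤ K * D n)
    (h2 : ∀ n, D n ≤ K * D (n + 1)) (k y : ℤ) : D (y + k) ≤ K ^ k.natAbs * D y := by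
  have a1 : ∀ n : ℕ, D (y + n) ≤ K ^ n * D y := by
    intro n
    induction n with
    | zero => simp
    | succ n ih =>
      have := h1 (y + n)
      rw [Nat.cast_succ, ← add_assoc, pow_succ']
      calc D (y + n + 1) ≤ K * D (y + n) := this
        _ ≤ K * (K ^ n * D y) := mul_le_mul_of_nonneg_left ih hK
        _ = _ := by ring
  have a2 : ∀ n : ℕ, D (y - n) ≤ K ^ n * D y := by
    intro n
    induction n with
    | zero => simp
    | succ n ih =>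
      have := h2 (y - (n + 1 : ℕ))
      rw [show y - (n + 1 : ℕ) + 1 = y - n by push_cast; ring] at this
      rw [pow_succ']
      calc D (y - (n + 1 : ℕ)) ≤ K * D (y - n) := this
        _ ≤ K * (K ^ n * D y) := mul_le_mul_of_nonneg_left ih hK
        _ = _ := by ring
  rcases Int.natAbs_eq k with h | h
  · have := a1 k.natAbs
    rwa [← h] at this
  · have := a2 k.natAbs
    rwa [sub_eq_add_neg, ← h] at this

lemma sum_Icc_cast {N : ℕ} [NeZero N] {M : Type*} [AddCommMonoid M] {R : ℕ} (hR : 2 * R < N)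
    (φ : ZMod N → M) :
    ∑ y ∈ Icc (-(R : ℤ)) R, φ (y : ZMod N) =
      ∑ i ∈ univ.filter (fun i : ZMod N => |i.valMinAbs| ≤ R), φ i := by
  have key : ∀ y ∈ Icc (-(R : ℤ)) R, (y : ZMod N).valMinAbs = y := by
    intro y hy
    rw [mem_Icc] at hy
    exact (ZMod.valMinAbs_spec _ _).2 ⟨rfl, by omega, by omega⟩
  refine Finset.sum_nbij' (fun y => (y : ZMod N)) (fun i => i.valMinAbs) ?_ ?_ ?_ ?_ ?_
  · intro y hy
    simp only [mem_filter, mem_univ, true_and]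
    rw [key y hy]
    exact abs_le.2 (mem_Icc.1 hy)
  · intro i hi
    simp only [mem_filter, mem_univ, true_and] at hi
    exact mem_Icc.2 (abs_le.1 hi)
  · intro y hy
    exact key y hy
  · intro i _
    exact ZMod.coe_valMinAbs i
  · intro y _
    rfl

lemma tail_le {N : ℕ} [NeZero N] (p : ZMod N → ℂ)
    (hp : ∑ i : ZMod N, (i.valMinAbs : ℝ) ^ 2 * ‖p i‖ ^ 2 ≤ 40) (R : ℕ) :
    ((R : ℝ) + 1) ^ 2 * ∑ i ∈ univ.filter (fun i : ZMod N => ¬ |i.valMinAbs| ≤ R), ‖p i‖ ^ 2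
      ≤ 40 := by
  rw [Finset.mul_sum]
  refine le_trans (Finset.sum_le_sum fun i hi => ?_)
    ((Finset.sum_le_sum_of_subset_of_nonneg (filter_subset _ _)
      fun i _ _ => by positivity).trans hp)
  simp only [mem_filter, mem_univ, true_and, not_le] at hi
  have h1 : (R : ℝ) + 1 ≤ |(i.valMinAbs : ℝ)| := by
    have : (R : ℤ) + 1 ≤ |i.valMinAbs| := hi
    exact_mod_cast this
  have h2 : ((R : ℝ) + 1) ^ 2 ≤ (i.valMinAbs : ℝ) ^ 2 := by
    rw [← sq_abs (i.valMinAbs : ℝ)]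
    exact pow_le_pow_left₀ (by positivity) h1 2
  exact mul_le_mul_of_nonneg_right h2 (sq_nonneg _)

/-- The properties of one of the two sequences at level `L`. -/
def Loc (L : ℕ) (p : ℤ → ℂ) : Prop :=
  (∀ y, ‖p y‖ ≤ 1) ∧ (∀ R : ℕ, R ≤ L → ∑ y ∈ Icc (-(R : ℤ)) R, (y : ℝ) ^ 2 * ‖p y‖ ^ 2 ≤ 40) ∧
    1 / 4 ≤ ∑ y ∈ Icc (-((12 : ℕ) : ℤ)) (12 : ℕ), ‖p y‖ ^ 2

lemma loc_of {L : ℕ} [NeZero (4 * L)] (hL : 13 ≤ L) (p : ZMod (4 * L) → ℂ)
    (h1 : 1 / 2 ≤ ∑ i, ‖p i‖ ^ 2) (h2 : ∑ i, ‖p i‖ ^ 2 ≤ 1)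
    (h3 : ∑ i : ZMod (4 * L), (i.valMinAbs : ℝ) ^ 2 * ‖p i‖ ^ 2 ≤ 40) :
    Loc L fun y => p (y : ZMod (4 * L)) := by
  refine ⟨fun y => ?_, fun R hR => ?_, ?_⟩
  · have : ‖p y‖ ^ 2 ≤ 1 :=
      (Finset.single_le_sum (f := fun i => ‖p i‖ ^ 2) (fun i _ => sq_nonneg _)
        (mem_univ _)).trans h2
    nlinarith [norm_nonneg (p y)]
  · have e : ∑ y ∈ Icc (-(R : ℤ)) R, (y : ℝ) ^ 2 * ‖p y‖ ^ 2 =
        ∑ y ∈ Icc (-(R : ℤ)) R, (((y : ZMod (4 * L)).valMinAbs : ℤ) : ℝ) ^ 2 * ‖p y‖ ^ 2 := by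
      refine Finset.sum_congr rfl fun y hy => ?_
      rw [mem_Icc] at hy
      rw [(ZMod.valMinAbs_spec (y : ZMod (4 * L)) y).2 ⟨rfl, by push_cast; omega,
        by push_cast; omega⟩]
    rw [e, sum_Icc_cast (N := 4 * L) (by omega)
      (fun i : ZMod (4 * L) => (i.valMinAbs : ℝ) ^ 2 * ‖p i‖ ^ 2)]
    exact (Finset.sum_le_sum_of_subset_of_nonneg (filter_subset _ _)
      fun i _ _ => by positivity).trans h3
  · rw [sum_Icc_cast (N := 4 * L) (by omega) (fun i : ZMod (4 * L) => ‖p i‖ ^ 2)]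
    have a1 := tail_le p h3 12
    have a2 := Finset.sum_filter_add_sum_filter_not univ
      (fun i : ZMod (4 * L) => |i.valMinAbs| ≤ (12 : ℕ)) (fun i => ‖p i‖ ^ 2)
    push_cast at a1 a2 ⊢
    linarith

theorem level_model {w : ℤ → ℝ} (hw : ∀ n, 0 < w n) {K : ℝ} (hK : 0 ≤ K)
    (h1 : ∀ n, w (n + 1) ≤ K * w n) (h2 : ∀ n, w n ≤ K * w (n + 1)) {L : ℕ} (hL : 13 ≤ L) :
    ∃ p g : ℤ → ℂ, Loc L p ∧ Loc L g ∧ ∀ (k : ℤ) (R : ℕ), R + k.natAbs ≤ L →
      ‖∑ y ∈ Icc (-(R : ℤ)) R, p y * g (y + k) * ((w (y + k) / w y : ℝ) : ℂ)‖ ≤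
        K ^ k.natAbs * 21 / (R + 1) := by
  have : NeZero (4 * L) := ⟨by omega⟩
  let d : ZMod (4 * L) → ℝ := fun i => w (tri L i.valMinAbs)
  have hd : ∀ i, 0 < d i := fun i => hw _
  have hdc : ∀ y : ℤ, d (y : ZMod (4 * L)) = w (tri L y) := fun y => by
    simp only [d]
    rw [tri_congr (ZMod.coe_valMinAbs _)]
  have hD1 : ∀ n, w (tri L (n + 1)) ≤ K * w (tri L n) := fun n => by
    rcases tri_step (L := L) (by omega) n with h | h
    · rw [h]; exact h1 _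
    · rw [h]; exact h2 _
  have hD2 : ∀ n, w (tri L n) ≤ K * w (tri L (n + 1)) := fun n => by
    rcases tri_step (L := L) (by omega) n with h | h
    · rw [h]; exact h2 _
    · rw [h]; exact h1 _
  have hdr : ∀ (k : ℤ) (i : ZMod (4 * L)), d (i + k) / d i ≤ K ^ k.natAbs := by
    intro k i
    rw [div_le_iff₀ (hd i)]
    have := ratio_le (D := fun n => w (tri L n)) hK hD1 hD2 k i.valMinAbs
    rw [← hdc, ← hdc, Int.cast_add, ZMod.coe_valMinAbs] at this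
    exact this
  obtain ⟨p, g, p1, p2, p3, g1, g2, g3, hz⟩ := cyclic_model (N := 4 * L) (by omega) hd
  refine ⟨fun y => p y, fun y => g y, loc_of hL p p1 p2 p3, loc_of hL g g1 g2 g3,
    fun k R hR => ?_⟩
  have e : ∑ y ∈ Icc (-(R : ℤ)) R, p y * g ((y + k : ℤ) : ZMod (4 * L)) *
      ((w (y + k) / w y : ℝ) : ℂ) = ∑ y ∈ Icc (-(R : ℤ)) R,
      p y * g ((y : ZMod (4 * L)) + k) * ((d ((y : ZMod (4 * L)) + k) / d y : ℝ) : ℂ) := by
    refine Finset.sum_congr rfl fun y hy => ?_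
    rw [mem_Icc] at hy
    rw [← Int.cast_add, hdc, hdc, tri_eq (by omega) (abs_le.2 ⟨by omega, by omega⟩),
      tri_eq (by omega) (abs_le.2 ⟨by omega, by omega⟩)]
  simp only
  rw [e, sum_Icc_cast (N := 4 * L) (by omega)
    (fun i : ZMod (4 * L) => p i * g (i + k) * ((d (i + k) / d i : ℝ) : ℂ))]
  have a2 := Finset.sum_filter_add_sum_filter_not univ
    (fun i : ZMod (4 * L) => |i.valMinAbs| ≤ R)
    (fun i => p i * g (i + k) * ((d (i + k) / d i : ℝ) : ℂ))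
  rw [hz k] at a2
  rw [eq_neg_of_add_eq_zero_left a2, norm_neg]
  have a1 := tail_le p p3 R
  set T := univ.filter (fun i : ZMod (4 * L) => ¬ |i.valMinAbs| ≤ R) with hT
  have hR0 : (0 : ℝ) < R + 1 := by positivity
  have a3 : ∑ i ∈ T, ‖g (i + k)‖ ^ 2 ≤ 1 := by
    refine le_trans (Finset.sum_le_sum_of_subset_of_nonneg (subset_univ _)
      fun i _ _ => by positivity) (le_trans (le_of_eq ?_) g2)
    exact Fintype.sum_equiv (Equiv.addRight (k : ZMod (4 * L))) _ _ fun i => rfl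
  have a4 : ∀ i ∈ T, ‖p i * g (i + k) * ((d (i + k) / d i : ℝ) : ℂ)‖ ≤
      K ^ k.natAbs / (2 * (R + 1)) * (((R : ℝ) + 1) ^ 2 * ‖p i‖ ^ 2 + ‖g (i + k)‖ ^ 2) := by
    intro i _
    rw [norm_mul, norm_mul, Complex.norm_real, Real.norm_eq_abs,
      abs_of_pos (div_pos (hd _) (hd _))]
    have b1 : ‖p i‖ * ‖g (i + k)‖ ≤
        1 / (2 * (R + 1)) * (((R : ℝ) + 1) ^ 2 * ‖p i‖ ^ 2 + ‖g (i + k)‖ ^ 2) := by
      rw [one_div, ← div_eq_inv_mul, le_div_iff₀ (by positivity)]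
      nlinarith [sq_nonneg (((R : ℝ) + 1) * ‖p i‖ - ‖g (i + k)‖)]
    calc ‖p i‖ * ‖g (i + k)‖ * (d (i + k) / d i)
        ≤ (1 / (2 * (R + 1)) * (((R : ℝ) + 1) ^ 2 * ‖p i‖ ^ 2 + ‖g (i + k)‖ ^ 2)) *
          K ^ k.natAbs :=
          mul_le_mul b1 (hdr k i) (div_pos (hd _) (hd _)).le (by positivity)
      _ = _ := by ring
  refine (norm_sum_le_of_le _ a4).trans ?_
  rw [← Finset.mul_sum, Finset.sum_add_distrib, ← Finset.mul_sum]
  have hKk : 0 ≤ K ^ k.natAbs := pow_nonneg hK _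
  calc K ^ k.natAbs / (2 * (R + 1)) *
        (((R : ℝ) + 1) ^ 2 * ∑ i ∈ T, ‖p i‖ ^ 2 + ∑ i ∈ T, ‖g (i + k)‖ ^ 2)
      ≤ K ^ k.natAbs / (2 * (R + 1)) * 42 :=
        mul_le_mul_of_nonneg_left (by linarith) (by positivity)
    _ = _ := by field_simp; ring

lemma exists_ulim (f : ℕ → ℤ → ℂ) (hf : ∀ n y, ‖f n y‖ ≤ 1) :
    ∃ p : ℤ → ℂ, ∀ y, Tendsto (fun n => f n y) (hyperfilter ℕ) (𝓝 (p y)) := by
  have : ∀ y, ∃ x : ℂ, Tendsto (fun n => f n y) (hyperfilter ℕ) (𝓝 x) := by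
    intro y
    obtain ⟨x, -, hx⟩ := (isCompact_closedBall (0 : ℂ) 1).ultrafilter_le_nhds
      ((hyperfilter ℕ).map fun n => f n y) (by
        rw [Ultrafilter.coe_map, le_principal_iff, Filter.mem_map]
        exact univ_mem' fun n => by simpa using hf n y)
    exact ⟨x, hx⟩
  exact ⟨fun y => (this y).choose, fun y => (this y).choose_spec⟩

lemma loc_lim {f : ℕ → ℤ → ℂ} (hf : ∀ n, Loc (n + 13) (f n)) {p : ℤ → ℂ}
    (hp : ∀ y, Tendsto (fun n => f n y) (hyperfilter ℕ) (𝓝 (p y))) :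
    (∀ y, ‖p y‖ ≤ 1) ∧ Summable (fun y => ‖p y‖) ∧ p ≠ 0 := by
  have b1 : ∀ y, ‖p y‖ ≤ 1 := fun y =>
    le_of_tendsto (hp y).norm (Eventually.of_forall fun n => (hf n).1 y)
  have b2 : ∀ R : ℕ, ∑ y ∈ Icc (-(R : ℤ)) R, (y : ℝ) ^ 2 * ‖p y‖ ^ 2 ≤ 40 := by
    intro R
    refine le_of_tendsto (tendsto_finsetSum _ fun y _ =>
      ((hp y).norm.pow 2).const_mul ((y : ℝ) ^ 2)) ?_
    refine ((eventually_ge_atTop R).filter_mono Nat.hyperfilter_le_atTop).mono fun n hn => ?_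
    exact (hf n).2.1 R (by omega)
  have b3 : 1 / 4 ≤ ∑ y ∈ Icc (-((12 : ℕ) : ℤ)) (12 : ℕ), ‖p y‖ ^ 2 :=
    ge_of_tendsto (tendsto_finsetSum _ fun y _ => (hp y).norm.pow 2)
      (Eventually.of_forall fun n => (hf n).2.2)
  refine ⟨b1, ?_, ?_⟩
  · have s1 : Summable fun y : ℤ => (y : ℝ) ^ 2 * ‖p y‖ ^ 2 := by
      refine summable_of_sum_le (c := 40) (fun y => by positivity) fun u => ?_
      obtain ⟨R, hR⟩ := ((Finset.tendsto_Icc_neg (R := ℤ)).eventually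
        (eventually_ge_atTop u)).exists
      exact (Finset.sum_le_sum_of_subset_of_nonneg hR fun i _ _ => by positivity).trans (b2 R)
    have s2 : Summable fun y : ℤ => 1 / (y : ℝ) ^ 2 := Real.summable_one_div_int_pow.2 one_lt_two
    refine Summable.of_norm_bounded_eventually (s1.add s2) ?_
    refine (eventually_cofinite_ne (0 : ℤ)).mono fun y hy => ?_
    have hy' : (0 : ℝ) < (y : ℝ) ^ 2 := by
      have : (y : ℝ) ≠ 0 := by exact_mod_cast hy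
      positivity
    rw [norm_norm]
    have e : (y : ℝ) ^ 2 * ‖p y‖ ^ 2 + 1 / (y : ℝ) ^ 2 =
        (((y : ℝ) ^ 2 * ‖p y‖) ^ 2 + 1) / (y : ℝ) ^ 2 := by field_simp
    rw [e, le_div_iff₀ hy']
    nlinarith [sq_nonneg ((y : ℝ) ^ 2 * ‖p y‖ - 1), mul_nonneg hy'.le (norm_nonneg (p y))]
  · rintro rfl
    simp at b3
    linarith

/-- The core theorem: a weighted convolution identity with two nonzero summable sequences. -/
theorem weight_core {w : ℤ → ℝ} (hw : ∀ n, 0 < w n) {K : ℝ} (hK : 0 ≤ K)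
    (h1 : ∀ n, w (n + 1) ≤ K * w n) (h2 : ∀ n, w n ≤ K * w (n + 1)) :
    ∃ p g : ℤ → ℂ, Summable (fun y => ‖p y‖) ∧ Summable (fun y => ‖g y‖) ∧ p ≠ 0 ∧ g ≠ 0 ∧
      ∀ k : ℤ, ∑' y, p y * g (y + k) * ((w (y + k) / w y : ℝ) : ℂ) = 0 := by
  choose P G hP hG hz using fun n : ℕ => level_model hw hK h1 h2 (L := n + 13) (by omega)
  obtain ⟨p, hp⟩ := exists_ulim P fun n => (hP n).1
  obtain ⟨g, hg⟩ := exists_ulim G fun n => (hG n).1
  obtain ⟨-, p2, p3⟩ := loc_lim hP hp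
  obtain ⟨g1, g2, g3⟩ := loc_lim hG hg
  refine ⟨p, g, p2, g2, p3, g3, fun k => ?_⟩
  have b : ∀ R : ℕ, ‖∑ y ∈ Icc (-(R : ℤ)) R, p y * g (y + k) * ((w (y + k) / w y : ℝ) : ℂ)‖ ≤
      K ^ k.natAbs * 21 / (R + 1) := by
    intro R
    refine le_of_tendsto (tendsto_finsetSum _ fun y _ =>
      ((hp y).mul (hg (y + k))).mul_const ((w (y + k) / w y : ℝ) : ℂ)).norm ?_
    refine ((eventually_ge_atTop (R + k.natAbs)).filter_mono Nat.hyperfilter_le_atTop).mono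
      fun n hn => ?_
    exact hz n k R (by omega)
  have s : Summable fun y => p y * g (y + k) * ((w (y + k) / w y : ℝ) : ℂ) := by
    refine Summable.of_norm_bounded (p2.mul_right (K ^ k.natAbs)) fun y => ?_
    rw [norm_mul, norm_mul, Complex.norm_real, Real.norm_eq_abs,
      abs_of_pos (div_pos (hw _) (hw _))]
    have c1 : w (y + k) / w y ≤ K ^ k.natAbs := by
      rw [div_le_iff₀ (hw y)]; exact ratio_le hK h1 h2 k y
    have c2 : ‖p y‖ * ‖g (y + k)‖ ≤ ‖p y‖ := mul_le_of_le_one_right (norm_nonneg _) (g1 _)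
    exact mul_le_mul c2 c1 (div_pos (hw _) (hw _)).le (norm_nonneg _)
  have t1 := (s.hasSum.comp (Finset.tendsto_Icc_neg (R := ℤ))).norm
  have t2 : Tendsto (fun R : ℕ => K ^ k.natAbs * 21 / ((R : ℝ) + 1)) atTop (𝓝 0) :=
    tendsto_const_nhds.div_atTop (tendsto_atTop_add_const_right _ _ tendsto_natCast_atTop_atTop)
  exact norm_le_zero_iff.1 (le_of_tendsto_of_tendsto' t1 t2 b)

end Pool.Agent.P.MP_f981b0_an
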