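import Pool.Agent.P.MP_f981b0_an.ShiftChain

set_option autoImplicit false

namespace Pool.Agent.P.MP_f981b0_an

open scoped InnerProductSpace
open Submodule Complex Real

section

variable {N : ℕ} [NeZero N]

/-- The `N`-th roots of unity. -/
noncomputable def zr (i : ZMod N) : ℂ := ZMod.stdAddChar i

lemma zr_intCast (j : ℤ) : zr (j : ZMod N) = cexp (I * ((2 * π * j / N : ℝ) : ℂ)) := by
  rw [zr, ZMod.stdAddChar_coe]
  congr 1
  push_cast
  ring

lemma zr_eq (i : ZMod N) : zr i = cexp (I * ((2 * π * i.valMinAbs / N : ℝ) : ℂ)) := by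
  rw [← zr_intCast, ZMod.coe_valMinAbs]

lemma norm_zr (i : ZMod N) : ‖zr i‖ = 1 := by
  rw [zr_eq, mul_comm, Complex.norm_exp_ofReal_mul_I]

lemma zr_ne (i : ZMod N) : zr i ≠ 0 := by
  intro h
  have := norm_zr i
  rw [h, norm_zero] at this
  exact zero_ne_one this

lemma zr_add (i j : ZMod N) : zr (i + j) = zr i * zr j := AddChar.map_add_eq_mul _ _ _

lemma zr_inj : Function.Injective (zr : ZMod N → ℂ) := ZMod.injective_stdAddChar

lemma zr_upper (j : ℤ) : ‖zr (j : ZMod N) - 1‖ ≤ 2 * π * |(j : ℝ)| / N := by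
  rw [zr_intCast]
  refine Real.norm_exp_I_mul_ofReal_sub_one_le.trans (le_of_eq ?_)
  rw [Real.norm_eq_abs, abs_div, abs_mul, abs_of_pos (by positivity : (0 : ℝ) < 2 * π),
    Nat.abs_cast]

lemma zr_lower (i : ZMod N) : 4 * |(i.valMinAbs : ℝ)| / N ≤ ‖zr i - 1‖ := by
  have hN : (0 : ℝ) < N := Nat.cast_pos.2 (NeZero.pos N)
  rw [zr_eq, Complex.norm_exp_I_mul_ofReal_sub_one]
  have h1 : |(i.valMinAbs : ℝ)| * 2 ≤ N := by
    have h := i.valMinAbs_mem_Ioc
    have h2 : |i.valMinAbs| * 2 ≤ N := by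
      rcases abs_cases i.valMinAbs with h3 | h3 <;> rw [h3.1] <;> have := h.1 <;> have := h.2 <;>
        omega
    exact_mod_cast h2
  have e : |2 * π * (i.valMinAbs : ℝ) / N / 2| = π * |(i.valMinAbs : ℝ)| / N := by
    rw [show 2 * π * (i.valMinAbs : ℝ) / N / 2 = π * (i.valMinAbs : ℝ) / N by ring, abs_div,
      abs_mul, abs_of_pos pi_pos, Nat.abs_cast]
  have h2 : |2 * π * (i.valMinAbs : ℝ) / N / 2| ≤ π / 2 := by
    rw [e, div_le_div_iff₀ hN two_pos]
    nlinarith [pi_pos]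
  have h3 := Real.mul_abs_le_abs_sin h2
  rw [e] at h3
  rw [Real.norm_eq_abs, abs_mul, abs_two]
  have e2 : 2 / π * (π * |(i.valMinAbs : ℝ)| / N) = 2 * |(i.valMinAbs : ℝ)| / N := by
    field_simp
  rw [e2] at h3
  have e3 : 4 * |(i.valMinAbs : ℝ)| / N = 2 * (2 * |(i.valMinAbs : ℝ)| / N) := by ring
  rw [e3]
  linarith

/-- Multiplication by the roots of unity. -/
noncomputable def posOp (N : ℕ) [NeZero N] :
    EuclideanSpace ℂ (ZMod N) →ₗ[ℂ] EuclideanSpace ℂ (ZMod N) where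
  toFun a := WithLp.toLp 2 fun i => zr i * a i
  map_add' a b := by ext i; simp [mul_add]
  map_smul' c a := by ext i; simp; ring

lemma posOp_apply (a : EuclideanSpace ℂ (ZMod N)) (i : ZMod N) : posOp N a i = zr i * a i := rfl

lemma posOp_inner (a b : EuclideanSpace ℂ (ZMod N)) :
    ⟪posOp N a, posOp N b⟫_ℂ = ⟪a, b⟫_ℂ := by
  simp only [PiLp.inner_apply, posOp_apply, RCLike.inner_apply, map_mul]
  refine Finset.sum_congr rfl fun i _ => ?_
  have h : zr i * (starRingEnd ℂ) (zr i) = 1 := by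
    rw [Complex.mul_conj, Complex.normSq_eq_norm_sq, norm_zr]; simp
  linear_combination (b i * (starRingEnd ℂ) (a i)) * h

/-- Weighted cyclic translation. -/
noncomputable def trOp (d : ZMod N → ℝ) (k : ZMod N) :
    EuclideanSpace ℂ (ZMod N) →ₗ[ℂ] EuclideanSpace ℂ (ZMod N) where
  toFun a := WithLp.toLp 2 fun i => a (i - k) * ((d i / d (i - k) : ℝ) : ℂ)
  map_add' a b := by ext i; simp [add_mul]
  map_smul' c a := by ext i; simp; ring

omit [NeZero N] in
lemma trOp_apply (d : ZMod N → ℝ) (k : ZMod N) (a : EuclideanSpace ℂ (ZMod N)) (i : ZMod N) :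
    trOp d k a i = a (i - k) * ((d i / d (i - k) : ℝ) : ℂ) := rfl

/-- The eigenvectors of the weighted cyclic translations. -/
noncomputable def eigv (d : ZMod N → ℝ) (j : ℤ) : EuclideanSpace ℂ (ZMod N) :=
  WithLp.toLp 2 fun i => (d i : ℂ) * zr i ^ j

lemma eigv_apply (d : ZMod N → ℝ) (j : ℤ) (i : ZMod N) : eigv d j i = (d i : ℂ) * zr i ^ j := rfl

lemma posOp_eigv (d : ZMod N → ℝ) (j : ℤ) : posOp N (eigv d j) = eigv d (j + 1) := by
  ext i
  rw [posOp_apply, eigv_apply, eigv_apply, zpow_add_one₀ (zr_ne i)]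
  ring

lemma trOp_eigv {d : ZMod N → ℝ} (hd : ∀ i, 0 < d i) (k : ZMod N) (j : ℤ) :
    trOp d k (eigv d j) = (zr (-k) ^ j) • eigv d j := by
  ext i
  rw [trOp_apply, eigv_apply, PiLp.smul_apply, eigv_apply, sub_eq_add_neg, zr_add, mul_zpow,
    smul_eq_mul]
  have : (d (i + -k) : ℂ) ≠ 0 := Complex.ofReal_ne_zero.2 (hd _).ne'
  push_cast
  field_simp

lemma trOp_kry {d : ZMod N → ℝ} (hd : ∀ i, 0 < d i) (k : ZMod N) (m : ℕ)
    {a : EuclideanSpace ℂ (ZMod N)} (ha : a ∈ kry (eigv d) m) :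
    trOp d k a ∈ kry (eigv d) m := by
  induction ha using span_induction with
  | mem x hx =>
    obtain ⟨j, hj, rfl⟩ := hx
    rw [trOp_eigv hd]
    exact smul_mem _ _ (mem_kry _ hj.1 hj.2)
  | zero => simp
  | add x y _ _ hx hy => rw [map_add]; exact add_mem hx hy
  | smul a x _ hx => rw [map_smul]; exact smul_mem _ _ hx

lemma kry_eigv_top {d : ZMod N → ℝ} (hd : ∀ i, 0 < d i) : kry (eigv d) N = ⊤ := by
  rw [← Submodule.orthogonal_eq_bot_iff, eq_bot_iff]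
  intro g hg
  let E : Fin N ≃ ZMod N := (ZMod.finEquiv N).toEquiv
  have h1 : (fun s : Fin N => (starRingEnd ℂ) (g (E s)) * (d (E s) : ℂ)) = 0 := by
    refine Matrix.eq_zero_of_forall_pow_sum_mul_pow_eq_zero (f := fun s => zr (E s))
      (zr_inj.comp E.injective) fun t => ?_
    have h2 : ⟪g, eigv d (t : ℕ)⟫_ℂ = 0 :=
      (Submodule.mem_orthogonal' _ _).1 hg _
        (mem_kry _ (by positivity) (by exact_mod_cast t.2))
    simp only [PiLp.inner_apply, eigv_apply, RCLike.inner_apply, zpow_natCast] at h2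
    rw [← h2, ← E.sum_comp]
    refine Finset.sum_congr rfl fun s _ => ?_
    ring
  rw [Submodule.mem_bot]
  ext i
  have h3 := congrFun h1 (E.symm i)
  simp only [Equiv.apply_symm_apply, Pi.zero_apply, mul_eq_zero, map_eq_zero,
    Complex.ofReal_eq_zero] at h3
  simpa using h3.resolve_right (hd i).ne'

lemma moment_bound (p : EuclideanSpace ℂ (ZMod N)) (h : ‖posOp N p - p‖ ≤ 8 * π / N) :
    ∑ i : ZMod N, (i.valMinAbs : ℝ) ^ 2 * ‖p i‖ ^ 2 ≤ 40 := by
  have hN : (0 : ℝ) < N := Nat.cast_pos.2 (NeZero.pos N)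
  have h1 : ‖posOp N p - p‖ ^ 2 ≤ (8 * π / N) ^ 2 := pow_le_pow_left₀ (norm_nonneg _) h 2
  rw [EuclideanSpace.norm_sq_eq] at h1
  have h2 : ∑ i : ZMod N, (4 / N : ℝ) ^ 2 * ((i.valMinAbs : ℝ) ^ 2 * ‖p i‖ ^ 2) ≤
      ∑ i, ‖(posOp N p - p) i‖ ^ 2 := by
    refine Finset.sum_le_sum fun i _ => ?_
    have e : (posOp N p - p) i = (zr i - 1) * p i := by
      rw [PiLp.sub_apply, posOp_apply]; ring
    rw [e, norm_mul, mul_pow]
    have h3 := pow_le_pow_left₀ (by positivity) (zr_lower i) 2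
    have e2 : (4 * |(i.valMinAbs : ℝ)| / N) ^ 2 = (4 / N : ℝ) ^ 2 * (i.valMinAbs : ℝ) ^ 2 := by
      rw [← sq_abs (i.valMinAbs : ℝ)]; ring
    rw [e2] at h3
    nlinarith [sq_nonneg ‖p i‖]
  rw [← Finset.mul_sum] at h2
  have h4 := h2.trans h1
  have e3 : (8 * π / N) ^ 2 = (4 / N : ℝ) ^ 2 * (4 * π ^ 2) := by ring
  rw [e3] at h4
  have h5 := le_of_mul_le_mul_left h4 (by positivity)
  have := Real.pi_lt_d2
  nlinarith [pi_pos]

/-- The finite cyclic model. -/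
theorem cyclic_model (hN : 5 ≤ N) {d : ZMod N → ℝ} (hd : ∀ i, 0 < d i) :
    ∃ p g : ZMod N → ℂ,
      1 / 2 ≤ ∑ i, ‖p i‖ ^ 2 ∧ ∑ i, ‖p i‖ ^ 2 ≤ 1 ∧
      ∑ i : ZMod N, (i.valMinAbs : ℝ) ^ 2 * ‖p i‖ ^ 2 ≤ 40 ∧
      1 / 2 ≤ ∑ i, ‖g i‖ ^ 2 ∧ ∑ i, ‖g i‖ ^ 2 ≤ 1 ∧
      ∑ i : ZMod N, (i.valMinAbs : ℝ) ^ 2 * ‖g i‖ ^ 2 ≤ 40 ∧
      ∀ k : ZMod N, ∑ i, p i * g (i + k) * ((d (i + k) / d i : ℝ) : ℂ) = 0 := by
  classical
  have hN0 : (0 : ℝ) < N := Nat.cast_pos.2 (NeZero.pos N)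
  let ι : Fin 5 → ZMod N := fun t => ((t : ℕ) : ZMod N)
  have hι : Function.Injective ι := by
    intro s t h
    have h1 := (ZMod.natCast_eq_natCast_iff' _ _ _).1 h
    rw [Nat.mod_eq_of_lt (by omega), Nat.mod_eq_of_lt (by omega)] at h1
    exact Fin.ext h1
  let b : Fin 5 → EuclideanSpace ℂ (ZMod N) := fun t => EuclideanSpace.single (ι t) 1
  have hb : LinearIndependent ℂ b :=
    ((EuclideanSpace.orthonormal_single (𝕜 := ℂ) (ι := ZMod N)).comp ι hι).linearIndependent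
  have hF : 5 ≤ Module.finrank ℂ (span ℂ (Set.range b)) := by
    rw [finrank_span_eq_card hb]; simp
  have hsupp : ∀ c ∈ span ℂ (Set.range b), ∀ i, (∀ t, i ≠ ι t) → c i = 0 := by
    intro c hc i hi
    induction hc using span_induction with
    | mem x hx =>
      obtain ⟨t, rfl⟩ := hx
      simp [b, hi t]
    | zero => simp
    | add x y _ _ hx hy => simp [hx, hy]
    | smul a x _ hx => simp [hx]
  have hε : ∀ c ∈ span ℂ (Set.range b), ‖posOp N c - c‖ ≤ 8 * π / N * ‖c‖ := by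
    intro c hc
    refine le_of_sq_le_sq ?_ (by positivity)
    rw [mul_pow, EuclideanSpace.norm_sq_eq, EuclideanSpace.norm_sq_eq, Finset.mul_sum]
    refine Finset.sum_le_sum fun i _ => ?_
    have e : (posOp N c - c) i = (zr i - 1) * c i := by
      rw [PiLp.sub_apply, posOp_apply]; ring
    rw [e, norm_mul, mul_pow]
    by_cases hi : ∀ t, i ≠ ι t
    · rw [hsupp c hc i hi]; simp
    · push Not at hi
      obtain ⟨t, rfl⟩ := hi
      have h1 := zr_upper (N := N) ((t : ℕ) : ℤ)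
      have h2 : ‖zr (ι t) - 1‖ ≤ 8 * π / N := by
        have e2 : (((t : ℕ) : ℤ) : ZMod N) = ι t := by simp [ι]
        rw [e2] at h1
        refine h1.trans (div_le_div_of_nonneg_right ?_ hN0.le)
        have h3 : |((((t : ℕ) : ℤ)) : ℝ)| ≤ 4 := by
          have : (t : ℕ) ≤ 4 := by omega
          rw [Int.cast_natCast, Nat.abs_cast]
          exact_mod_cast this
        nlinarith [pi_pos]
      exact mul_le_mul_of_nonneg_right (pow_le_pow_left₀ (norm_nonneg _) h2 2) (sq_nonneg _)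
  obtain ⟨m, p, hp, g, hg, p1, p2, p3, g1, g2, g3⟩ := chain_lemma (posOp N) posOp_inner (eigv d)
    (posOp_eigv d) N (kry_eigv_top hd) _ hF _ hε
  refine ⟨fun i => p i, fun i => (starRingEnd ℂ) (g i), ?_, ?_, moment_bound p p3, ?_, ?_, ?_,
    fun k => ?_⟩
  · rwa [← EuclideanSpace.norm_sq_eq]
  · rw [← EuclideanSpace.norm_sq_eq]; nlinarith [norm_nonneg p]
  · simp only [Complex.norm_conj]; rwa [← EuclideanSpace.norm_sq_eq]
  · simp only [Complex.norm_conj]; rw [← EuclideanSpace.norm_sq_eq]; nlinarith [norm_nonneg g]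
  · simp only [Complex.norm_conj]; exact moment_bound g g3
  · have h1 : ⟪g, trOp d k p⟫_ℂ = 0 :=
      (Submodule.mem_orthogonal' _ _).1 hg _ (trOp_kry hd k m hp)
    simp only [PiLp.inner_apply, trOp_apply, RCLike.inner_apply] at h1
    rw [← h1]
    refine Fintype.sum_equiv (Equiv.addRight k) _ _ fun i => ?_
    simp only [Equiv.coe_addRight, add_sub_cancel_right]
    ring

end

end Pool.Agent.P.MP_f981b0_an
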