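import Mathlib
import Pool.Agent.P.MP_f981b0_an.Main

set_option autoImplicit false

noncomputable section

namespace Pool.Agent.P.MP_f981b0_an

open Real Finset Filter Topology
open scoped ENNReal ComplexOrder

variable {p : ℝ≥0∞} [Fact (1 ≤ p)]

theorem main_transfer (hp1 : 1 < p) (hp : p ≠ ⊤) (hp2 : p ≠ 2) (b : Prop)
    (Q : (X p →L[ℂ] X p) → Prop) (hQ : ∀ T, Q T ↔ Cl b T) :
    ∃ G : Set {T : X p →L[ℂ] X p // Q T},
      (∀ τ : TopologicalSpace {T : X p →L[ℂ] X p // Q T},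
        ((⨅ x : X p, TopologicalSpace.induced (fun T => T.1 x) inferInstance) ⊓
          (⨅ φ : StrongDual ℂ (X p),
            TopologicalSpace.induced (fun T => φ.comp T.1) inferInstance)) ≤ τ →
        τ ≤ (⨅ (x : X p) (φ : StrongDual ℂ (X p)),
          TopologicalSpace.induced (fun T => φ (T.1 x)) inferInstance) →
        @IsGδ _ τ G ∧ @Dense _ τ G) ∧ ∀ T ∈ G, HasInv T.1 := by
  obtain ⟨G, hG1, hG2, hG3⟩ := main_abstract hp1 hp hp2 b
  let f : {T : X p →L[ℂ] X p // Q T} → Y0 p b := fun T => ⟨T.1, (hQ _).1 T.2⟩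
  let g : Y1 p b → {T : X p →L[ℂ] X p // Q T} := fun T => ⟨T.1, (hQ _).2 T.2⟩
  refine ⟨f ⁻¹' G, fun τ h1 h2 => ⟨?_, ?_⟩, fun T hT => hG3 _ hT⟩
  · refine @IsGδ.preimage _ _ τ _ f G ?_ hG1
    refine (@IsInducing.continuous_iff _ _ _ f j0 _ τ _ inducing_j0).2 ?_
    refine @continuous_pi _ _ _ τ _ _ fun ij => ?_
    refine continuous_iff_le_induced.2 (h2.trans ?_)
    exact iInf₂_le_of_le (e p ij.2) (ev p ij.1) le_rfl
  · have hg : @Continuous _ _ _ τ g := by
      refine continuous_le_rng h1 (continuous_inf_rng.2 ⟨continuous_iInf_rng.2 fun x => ?_,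
        continuous_iInf_rng.2 fun φ => ?_⟩)
      · exact continuous_induced_rng.2 (cont_apply hp x)
      · exact continuous_induced_rng.2 (cont_comp hp1 hp φ)
    have hsurj : Function.Surjective g := fun T => ⟨⟨T.1, (hQ _).1 T.2⟩, rfl⟩
    let _ := τ
    refine (hsurj.denseRange.dense_image hg hG2).mono ?_
    rintro _ ⟨T, hT, rfl⟩
    exact hT

lemma isPos_iff (hp : p ≠ ⊤) (T : X p →L[ℂ] X p) :
    (∀ x : X p, (∀ i, 0 ≤ (x i).re ∧ (x i).im = 0) → ∀ i, 0 ≤ ((T x) i).re ∧ ((T x) i).im = 0) ↔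
      IsPos T := by
  have key : ∀ z : ℂ, (0 ≤ z.re ∧ z.im = 0) ↔ 0 ≤ z := fun z => by
    rw [Complex.nonneg_iff, eq_comm]
  simp only [key]
  constructor
  · intro h i j
    refine h _ (fun k => ?_) i
    rw [e_apply]; split_ifs; exacts [zero_le_one, le_rfl]
  · intro h x hx i
    have h1 : Tendsto (fun n => ev p i (T (P p n x))) atTop (𝓝 (ev p i (T x))) :=
      (((ev p i).comp T).continuous.tendsto x).comp (tendsto_P hp x)
    refine ge_of_tendsto' h1 fun n => pos_apply h (P_P n x) (fun k => ?_) i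
    rw [P_coord]; split_ifs; exacts [hx k, le_rfl]

end Pool.Agent.P.MP_f981b0_an
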