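import Mathlib
import Pool.Agent.P.MP_f981b0_an.Transfer

set_option autoImplicit false

noncomputable section

namespace Pool.Agent.P.MP_f981b0_an.TypicalContraction

open scoped ENNReal

section Defs

variable (E : Type) [NormedAddCommGroup E] [NormedSpace ℂ E]

/-- The set of all contractions on `E`: bounded operators of norm at most one. -/
abbrev Contr : Type := {T : E →L[ℂ] E // ‖T‖ ≤ 1}

/-- Weak operator topology: the coarsest one making every `T ↦ φ (T x)` continuous. -/
@[reducible] def wot : TopologicalSpace (Contr E) :=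
  ⨅ (x : E) (φ : StrongDual ℂ E), TopologicalSpace.induced (fun T => φ (T.1 x)) inferInstance

/-- Strong operator topology: the coarsest one making every `T ↦ T x` norm continuous. -/
@[reducible] def sot : TopologicalSpace (Contr E) :=
  ⨅ x : E, TopologicalSpace.induced (fun T => T.1 x) inferInstance

/-- Strong-star operator topology: the coarsest one making every `T ↦ T x` and every
`T ↦ T* φ = φ ∘ T` norm continuous. -/
@[reducible] def sotStar : TopologicalSpace (Contr E) :=
  sot E ⊓ ⨅ φ : StrongDual ℂ E, TopologicalSpace.induced (fun T => φ.comp T.1) inferInstance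

/-- The contraction has a closed invariant subspace other than `{0}` and the whole space. -/
def HasInvariantSubspace (T : Contr E) : Prop :=
  ∃ M : Submodule ℂ E, IsClosed (M : Set E) ∧ M ≠ ⊥ ∧ M ≠ ⊤ ∧ ∀ x ∈ M, T.1 x ∈ M

/-- The strong operator topology lies between the other two (`τ ≤ τ'` means `τ` is finer). -/
theorem sot_between : sotStar E ≤ sot E ∧ sot E ≤ wot E := by
  refine ⟨inf_le_left, le_iInf₂ fun x φ => iInf_le_of_le x ?_⟩
  rw [← continuous_iff_le_induced]
  let _ : TopologicalSpace (Contr E) := TopologicalSpace.induced (fun T => T.1 x) inferInstance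
  exact φ.continuous.comp continuous_induced_dom

end Defs

/-- The complex sequence space `ℓ^p(ℕ)`. -/
abbrev Ell (p : ℝ≥0∞) : Type := lp (fun _ : ℕ => ℂ) p

/-- For `1 < p < ∞`, `p ≠ 2`, there is a set of contractions on `ℓ^p` that is a dense `Gδ` set for
every topology between the weak and the strong-star operator topologies, and all of whose members
have a nontrivial closed invariant subspace. -/
theorem result (p : ℝ≥0∞) [Fact (1 ≤ p)] (h1 : 1 < p) (h2 : p ≠ 2) (h3 : p ≠ ⊤) :
    ∃ G : Set (Contr (Ell p)),
      (∀ τ : TopologicalSpace (Contr (Ell p)), sotStar (Ell p) ≤ τ → τ ≤ wot (Ell p) →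
        @IsGδ _ τ G ∧ @Dense _ τ G) ∧
      ∀ T ∈ G, HasInvariantSubspace (Ell p) T :=
  Pool.Agent.P.MP_f981b0_an.main_transfer h1 h3 h2 False _ fun _ =>
    ⟨fun h => ⟨h, False.elim⟩, fun h => h.1⟩

end Pool.Agent.P.MP_f981b0_an.TypicalContraction
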