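import Mathlib
import Pool.Agent.P.MP_f981b0_an.Transfer

set_option autoImplicit false

noncomputable section

namespace Pool.Agent.P.MP_f981b0_an.TypicalPositive

open scoped ENNReal

section Defs

variable {E : Type} [NormedAddCommGroup E] [NormedSpace ℂ E] (K : Set E)

/-- The contractions on `E` (bounded operators of norm at most one) that map `K` into `K`. -/
abbrev Contr : Type := {T : E →L[ℂ] E // ‖T‖ ≤ 1 ∧ ∀ x ∈ K, T x ∈ K}

/-- Weak operator topology: the coarsest one making every `T ↦ φ (T x)` continuous. -/
@[reducible] def wot : TopologicalSpace (Contr K) :=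
  ⨅ (x : E) (φ : StrongDual ℂ E), TopologicalSpace.induced (fun T => φ (T.1 x)) inferInstance

/-- Strong operator topology: the coarsest one making every `T ↦ T x` norm continuous. -/
@[reducible] def sot : TopologicalSpace (Contr K) :=
  ⨅ x : E, TopologicalSpace.induced (fun T => T.1 x) inferInstance

/-- Strong-star operator topology: the coarsest one making every `T ↦ T x` and every
`T ↦ T* φ = φ ∘ T` norm continuous. -/
@[reducible] def sotStar : TopologicalSpace (Contr K) :=
  sot K ⊓ ⨅ φ : StrongDual ℂ E, TopologicalSpace.induced (fun T => φ.comp T.1) inferInstance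

/-- The operator has a closed invariant subspace other than `{0}` and the whole space. -/
def HasInvariantSubspace (T : Contr K) : Prop :=
  ∃ M : Submodule ℂ E, IsClosed (M : Set E) ∧ M ≠ ⊥ ∧ M ≠ ⊤ ∧ ∀ x ∈ M, T.1 x ∈ M

/-- The strong operator topology lies between the other two (`τ ≤ τ'` means `τ` is finer). -/
theorem sot_between : sotStar K ≤ sot K ∧ sot K ≤ wot K := by
  refine ⟨inf_le_left, le_iInf₂ fun x φ => iInf_le_of_le x ?_⟩
  rw [← continuous_iff_le_induced]
  let _ : TopologicalSpace (Contr K) := TopologicalSpace.induced (fun T => T.1 x) inferInstance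
  exact φ.continuous.comp continuous_induced_dom

end Defs

/-- The complex sequence space `ℓ^p(ℕ)`. -/
abbrev Ell (p : ℝ≥0∞) : Type := lp (fun _ : ℕ => ℂ) p

/-- The positive cone of `ℓ^p`: sequences all of whose terms are nonnegative real numbers. -/
def cone (p : ℝ≥0∞) : Set (Ell p) := {x | ∀ i, 0 ≤ (x i).re ∧ (x i).im = 0}

/-- For `1 < p < ∞`, `p ≠ 2`, there is a set of positive contractions on `ℓ^p` that is a dense `Gδ`
subset of the positive contractions for every topology between the weak and the strong-star
operator topologies, and all of whose members have a nontrivial closed invariant subspace. -/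
theorem result (p : ℝ≥0∞) [Fact (1 ≤ p)] (h1 : 1 < p) (h2 : p ≠ 2) (h3 : p ≠ ⊤) :
    ∃ G : Set (Contr (cone p)),
      (∀ τ : TopologicalSpace (Contr (cone p)), sotStar (cone p) ≤ τ → τ ≤ wot (cone p) →
        @IsGδ _ τ G ∧ @Dense _ τ G) ∧
      ∀ T ∈ G, HasInvariantSubspace (cone p) T :=
  Pool.Agent.P.MP_f981b0_an.main_transfer h1 h3 h2 True _ fun T =>
    ⟨fun h => ⟨h.1, fun _ => (Pool.Agent.P.MP_f981b0_an.isPos_iff h3 T).1 h.2⟩,
      fun h => ⟨h.1, (Pool.Agent.P.MP_f981b0_an.isPos_iff h3 T).2 (h.2 trivial)⟩⟩

end Pool.Agent.P.MP_f981b0_an.TypicalPositive
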